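import Pool.Agent.Lib.MP_453ac3_co.LB.Bip

namespace Pool.Agent.Lib.MP_453ac3_co.LB

open Finset

namespace AM

variable {W ι : Type} {S : Finset ι} {τ : ι → Sym2 W}

theorem spread {W' : Type} [Fintype W'] [DecidableEq W'] (ψ : W → W') (η : W' → W)
    (h1 : ∀ k, ψ (η k) = k) (h2 : ∀ i ∈ S, ∀ a ∈ τ i, η (ψ a) = a)
    (hnd : ∀ i ∈ S, ¬ (τ i).IsDiag) (T : Finset (Sym2 W)) (hT : T.card ≤ 2500)
    (hT' : ∀ i ∈ S, τ i ∈ T) (hst : ∀ u, 20 * star S τ u ≤ 9 * S.card)
    (htri : ∀ a b c : W, a ≠ b → a ≠ c → b ≠ c →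
      20 * (num S (fun i => τ i = s(a, b)) + num S (fun i => τ i = s(a, c)) +
        num S (fun i => τ i = s(b, c))) ≤ 9 * S.card) (hN : 100000 ≤ S.card)
    (x : Sym2 W' → ℕ) (hx : x = fun lam => num S fun i => (τ i).map ψ = lam) :
    Spread x ∧ ∑ lam, x lam = S.card ∧
      ∀ a b, x s(a, b) = num S fun i => τ i = s(η a, η b) := by
  classical
  have back : ∀ i ∈ S, ((τ i).map ψ).map η = τ i := by
    intro i hi
    have h := h2 i hi
    generalize τ i = e at h
    induction e using Sym2.ind with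
    | _ a b => simp [h a (by simp), h b (by simp)]
  have hη : Function.Injective η := Function.LeftInverse.injective h1
  have e3 : ∀ a b, x s(a, b) = num S fun i => τ i = s(η a, η b) := by
    intro a b
    rw [hx]
    refine num_congr fun i hi => ⟨fun h => ?_, fun h => ?_⟩
    · rw [← back i hi, h]
      simp
    · rw [h]
      simp [h1]
  have e2 : ∑ lam, x lam = S.card := by
    have := num_fiber S (fun i => (τ i).map ψ) fun _ => True
    rw [num_eq] at this
    simpa [hx] using this.symm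
  refine ⟨⟨fun a => ?_, ?_, fun u => ?_, fun a b c hab hac hbc => ?_, by omega⟩, e2, e3⟩
  · rw [e3]
    exact Bip.diag hnd _
  · refine le_trans ?_ (card_image_le (f := Sym2.map ψ).trans hT)
    refine le_trans (num_mono (S' := T.image (Sym2.map ψ)) (Q := fun _ => True) ?_)
      (num_le_card _ _)
    intro lam _ h
    rw [hx] at h
    obtain ⟨i, hi, h⟩ := num_pos.1 h
    exact ⟨mem_image.2 ⟨_, hT' i hi, h⟩, trivial⟩
  · have := num_fiber S (fun i => (τ i).map ψ) fun e => u ∈ e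
    have h3 : num S (fun i => u ∈ (τ i).map ψ) ≤ star S τ (η u) := by
      refine num_mono fun i hi h => ⟨hi, ?_⟩
      rw [← back i hi]
      exact Sym2.mem_map.2 ⟨_, h, rfl⟩
    have h4 := hst (η u)
    rw [e2, hx]
    beta_reduce
    omega
  · rw [e2, e3, e3, e3]
    exact htri _ _ _ (hη.ne hab) (hη.ne hac) (hη.ne hbc)

theorem four (hnd : ∀ i ∈ S, ¬ (τ i).IsDiag) (a b c d : W)
    (h : ∀ i ∈ S, ∀ u ∈ τ i, u = a ∨ u = b ∨ u = c ∨ u = d) :
    2 * S.card ≤ star S τ a + star S τ b + star S τ c + star S τ d := by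
  classical
  unfold star
  simp only [num_eq_sum]
  rw [← sum_add_distrib, ← sum_add_distrib, ← sum_add_distrib, mul_comm, ← smul_eq_mul,
    ← sum_const]
  refine sum_le_sum fun i hi => ?_
  have h1 := hnd i hi
  have h2 := h i hi
  generalize τ i = e at h1 h2
  induction e using Sym2.ind with
  | _ u v =>
    have h3 : u ≠ v := by simpa using h1
    have hu := h2 u (by simp)
    have hv := h2 v (by simp)
    rcases hu with rfl | rfl | rfl | rfl <;> rcases hv with rfl | rfl | rfl | rfl <;>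
      first
        | exact absurd rfl h3
        | (simp only [Sym2.mem_mk_left, Sym2.mem_mk_right, if_true]; omega)

theorem core [Fintype W] (h1 : MLXStmt) (hT : TriStmt) (hB : BadStmt) (hC : ClassStmt)
    (hO : OctaStmt) (hP : BipStmt) {E Δ μ : ℕ} (hML : ML S τ E)
    (hnd : ∀ i ∈ S, ¬ (τ i).IsDiag) (hK5 : NoK5 S τ) (hK33 : NoK33 S τ)
    (hst : ∀ u, star S τ u ≤ Δ) (hΔ : 20 * Δ ≤ 9 * S.card)
    (T : Finset (Sym2 W)) (hTc : T.card ≤ 2500) (hT' : ∀ i ∈ S, τ i ∈ T)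
    (hμ : ∀ i ∈ S, μ ≤ num S fun j => τ j = τ i) (hμ1 : 80 * μ ≤ S.card)
    (hμ2 : E + 320000 < 16 * μ) (hE : 60 * (E + 33) ≤ S.card) :
    4 * S.card ≤ 9 * Δ + 200 * (E + 33) := by
  classical
  have hst' : ∀ u, 20 * star S τ u ≤ 9 * S.card := fun u => by
    have := hst u
    omega
  have htri := hT W ι S τ E hML hnd hst' (by omega) (by omega)
  obtain ⟨sp, e2, e3⟩ := spread id id (fun _ => rfl) (fun _ _ _ _ => rfl) hnd T hTc hT' hst' htri
    (by omega) _ rfl
  have big : ∀ a b, (∃ k ∈ S, τ k = s(a, b)) → μ ≤ num S fun j => τ j = s(a, b) := by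
    rintro a b ⟨k, hk, h⟩
    rw [← h]
    exact hμ k hk
  have mem : ∀ i ∈ S, ∀ a ∈ τ i, ∃ b, ∃ k ∈ S, τ k = s(a, b) := fun i hi a ha =>
    ⟨Sym2.Mem.other ha, i, hi, (Sym2.other_spec ha).symm⟩
  have cl := hC W (fun a b => ∃ k ∈ S, τ k = s(a, b)) ?_ ?_ ?_ ?_ hK5 hK33 ?_ ?_
  · rcases cl with ⟨η, hη, h01, hc⟩ | ⟨η, hη, hadj, hc⟩
    · refine hP W ι S τ E Δ η hML hη hnd ?_ (fun i hi h => h01 ⟨i, hi, h⟩) hst hΔ hE
      intro i hi a ha
      obtain ⟨b, hb⟩ := mem i hi a ha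
      exact hc a b hb
    · exfalso
      obtain ⟨sp', e2', e3'⟩ := spread (Function.invFun η) η (Function.leftInverse_invFun hη)
        (fun i hi a ha => by
          obtain ⟨b, hb⟩ := mem i hi a ha
          obtain ⟨k, rfl⟩ := hc a b hb
          rw [Function.leftInverse_invFun hη k]) hnd T hTc hT' hst' htri (by omega) _ rfl
      have := hO _ _ E μ (h1 W (Fin 6) ι S τ E (Function.invFun η) hML) sp' ?_ ?_ (by omega)
      · omega
      · intro i
        rw [e3']
        by_contra h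
        exact ((hadj i (i + 3)).1 (num_pos.1 (Nat.pos_of_ne_zero h))).2 rfl
      · intro i j hij hij'
        rw [e3']
        exact big _ _ ((hadj i j).2 ⟨hij, hij'⟩)
  · rintro a b ⟨k, hk, h⟩
    exact ⟨k, hk, h.trans Sym2.eq_swap⟩
  · rintro a ⟨k, hk, h⟩
    exact hnd k hk (by simp [h])
  · obtain ⟨i, hi⟩ : S.Nonempty := card_pos.1 (by omega)
    obtain ⟨a, b, h⟩ : ∃ a b, τ i = s(a, b) := by
      generalize τ i = e
      induction e using Sym2.ind with
      | _ a b => exact ⟨a, b, rfl⟩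
    exact ⟨a, b, i, hi, h⟩
  · intro a b c d hac had hbc hbd hab hcd
    have := hB W _ _ E μ (h1 W W ι S τ E id hML) sp (by omega) (by omega) a b c d hac had hbc hbd
      (by rw [e3]; exact big _ _ hab) (by rw [e3]; exact big _ _ hcd)
    rw [e3, e3] at this
    exact this.imp num_pos.1 num_pos.1
  · intro a b
    by_contra hcon
    push Not at hcon
    have h3 : S.card ≤ star S τ a + star S τ b := by
      refine le_trans ?_ (num_or_le S _ _)
      have h4 := num_add_not S fun i => a ∈ τ i ∨ b ∈ τ i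
      suffices num S (fun i => ¬ (a ∈ τ i ∨ b ∈ τ i)) = 0 by omega
      by_contra h5
      obtain ⟨i, hi, h5⟩ := num_pos.1 (Nat.pos_of_ne_zero h5)
      obtain ⟨u, v, h⟩ : ∃ u v, τ i = s(u, v) := by
        generalize τ i = e
        induction e using Sym2.ind with
        | _ a b => exact ⟨a, b, rfl⟩
      rw [h] at h5
      simp only [Sym2.mem_iff, not_or] at h5
      exact h5.2.2 (hcon u v ⟨i, hi, h⟩ (Ne.symm h5.1.1) (Ne.symm h5.2.1) (Ne.symm h5.1.2)).symm
    have := hst a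
    have := hst b
    omega
  · intro a b c d
    by_contra hcon
    push Not at hcon
    have h3 := four hnd a b c d fun i hi u hu => by
      obtain ⟨v, hv⟩ := mem i hi u hu
      by_contra h
      simp only [not_or] at h
      exact h.2.2.2 (hcon u v hv h.1 h.2.1 h.2.2.1)
    have := hst a
    have := hst b
    have := hst c
    have := hst d
    omega

theorem arith {q N N1 E k r2 μ : ℕ} (hq : 1000000 ≤ q) (hk : k ≤ 2500) (hN : q ^ 2504 ≤ N)
    (hE : E * q ^ 2504 ≤ N) (h1 : N ≤ N1 + 40 * E) (h1' : N1 ≤ N)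
    (h2 : q ^ (k + 2) * r2 ≤ 2500 * N1) (hμ : μ = N1 / q ^ (k + 1)) :
    q * μ ≤ N ∧ q * r2 ≤ 2500 * (μ + 1) ∧ q * q * r2 ≤ 2500 * N ∧ q * q * E ≤ μ + 1 ∧
      q * q ≤ μ + 1 := by
  have hq0 : 0 < q := by omega
  have hp : 0 < q ^ (k + 1) := pow_pos hq0 _
  have a1 : μ * q ^ (k + 1) ≤ N1 := hμ ▸ Nat.div_mul_le_self _ _
  have a2 : N1 < (μ + 1) * q ^ (k + 1) := by
    rw [hμ, mul_comm]
    exact Nat.lt_mul_div_succ _ hp
  have a3 : q ≤ q ^ (k + 1) := Nat.le_self_pow (by omega) q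
  have a4 : q ^ (k + 1) ≤ q ^ 2501 := Nat.pow_le_pow_right hq0 (by omega)
  have a5 : q ^ 2504 = q * q * q * q ^ 2501 := by ring
  have a6 : q ^ (k + 2) = q * q ^ (k + 1) := by ring
  have a7 : 80 * E ≤ N := by
    refine le_trans ?_ hE
    rw [mul_comm E]
    exact Nat.mul_le_mul_right _ (le_trans (by omega) (Nat.le_self_pow (by omega) q))
  generalize q ^ (k + 1) = P at *
  generalize q ^ 2501 = Q at *
  have a8 : N ≤ 2 * ((μ + 1) * Q) := by
    have := Nat.mul_le_mul_left (μ + 1) a4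
    omega
  have hQ : 0 < Q := by omega
  refine ⟨?_, ?_, ?_, ?_, ?_⟩
  · have := Nat.mul_le_mul_left μ a3
    rw [mul_comm]
    omega
  · apply Nat.le_of_mul_le_mul_right _ hp
    rw [a6] at h2
    nlinarith
  · rw [a6] at h2
    have := Nat.mul_le_mul_right r2 (Nat.mul_le_mul_left q a3)
    omega
  · apply Nat.le_of_mul_le_mul_right _ hQ
    rw [a5] at hE
    have : 2 * (q * q * E * Q) ≤ E * (q * q * q * Q) := by
      have := Nat.mul_le_mul_right (q * q * E * Q) (show 2 ≤ q by omega)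
      nlinarith
    omega
  · apply Nat.le_of_mul_le_mul_right _ hQ
    rw [a5] at hN
    have : 2 * (q * q * Q) ≤ q * q * q * Q := by
      have := Nat.mul_le_mul_right (q * q * Q) (show 2 ≤ q by omega)
      nlinarith
    omega

end AM

theorem am (h1 : MLXStmt) (hS : ShrinkStmt) (hT : TriStmt) (hF : FewStmt) (hG : GapStmt)
    (hB : BadStmt) (hC : ClassStmt) (hO : OctaStmt) (hP : BipStmt) : AMStmt := by
  intro W ι _ S τ E Δ q hML hnd hK5 hK33 hst hq hN hE
  classical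
  by_cases hΔ : 4 * S.card ≤ 9 * Δ
  · have := Nat.mul_le_mul_left q hΔ
    nlinarith
  have hq1 : q ≤ q ^ 2504 := Nat.le_self_pow (by omega) q
  have hE1 : E * q ≤ S.card := le_trans (Nat.mul_le_mul_left _ hq1) hE
  have hE2 : E * 1000000 ≤ S.card := le_trans (Nat.mul_le_mul_left _ hq) hE1
  obtain ⟨L, hL, hL'⟩ := hF W ι S τ E hML (fun u => by have := hst u; omega) (by omega) (by omega)
  obtain ⟨S1, hS1⟩ : ∃ S1, S1 = S.filter fun i => ¬ ∃ a ∈ τ i, a ∉ L := ⟨_, rfl⟩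
  have c1 : S.card ≤ S1.card + 40 * E := by
    have := num_add_not S fun i => ∃ a ∈ τ i, a ∉ L
    rw [num_eq S fun i => ¬ ∃ a ∈ τ i, a ∉ L, ← hS1] at this
    omega
  have sub1 : S1 ⊆ S := hS1 ▸ filter_subset _ _
  obtain ⟨T, hTc, hT'⟩ : ∃ T : Finset (Sym2 W), T.card ≤ 2500 ∧ ∀ i ∈ S1, τ i ∈ T := by
    refine ⟨(L ×ˢ L).image fun p => s(p.1, p.2), card_image_le.trans ?_, fun i hi => ?_⟩
    · rw [card_product]
      exact Nat.mul_le_mul hL hL
    · rw [hS1, mem_filter] at hi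
      have h := hi.2
      push Not at h
      generalize τ i = e at h
      induction e using Sym2.ind with
      | _ a b => exact mem_image.2 ⟨(a, b), mem_product.2 ⟨h a (by simp), h b (by simp)⟩, rfl⟩
  obtain ⟨x, hx⟩ : ∃ x : Sym2 W → ℕ, ∀ lam, x lam = num S1 fun j => τ j = lam := ⟨_, fun _ => rfl⟩
  obtain ⟨k, hk, hgap⟩ := hG _ T x q S1.card (by omega) hTc
  obtain ⟨S2, hS2⟩ : ∃ S2, S2 = S1.filter fun i => S1.card ≤ q ^ (k + 1) * x (τ i) := ⟨_, rfl⟩
  have sub2 : S2 ⊆ S1 := hS2 ▸ filter_subset _ _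
  obtain ⟨r2, hr2⟩ : ∃ r2, r2 = num S1 fun i => ¬ S1.card ≤ q ^ (k + 1) * x (τ i) := ⟨_, rfl⟩
  have c2 : S2.card + r2 = S1.card := by
    have := num_add_not S1 fun i => S1.card ≤ q ^ (k + 1) * x (τ i)
    rw [num_eq S1 fun i => S1.card ≤ q ^ (k + 1) * x (τ i), ← hS2, ← hr2] at this
    exact this
  have c3 : q ^ (k + 2) * r2 ≤ 2500 * S1.card := by
    rw [hr2, num_fiber S1 τ fun lam => ¬ S1.card ≤ q ^ (k + 1) * x lam, mul_sum]
    simp only [← hx]
    rw [← sum_subset (subset_univ T)]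
    · refine le_trans (sum_le_card_nsmul _ _ S1.card fun lam hl => ?_) ?_
      · split_ifs with h
        · simp
        · exact ((hgap lam hl).resolve_left h).le
      · exact Nat.mul_le_mul_right _ hTc
    · intro lam _ hl
      have : x lam = 0 := by
        by_contra h
        rw [hx] at h
        obtain ⟨i, hi, h⟩ := num_pos.1 (Nat.pos_of_ne_zero h)
        exact hl (h ▸ hT' i hi)
      simp [this]
  obtain ⟨μ, hμ⟩ : ∃ μ, μ = S1.card / q ^ (k + 1) := ⟨_, rfl⟩
  obtain ⟨b1, b2, b3, b4, b5⟩ := AM.arith hq hk hN hE c1 (card_le_card sub1) c3 hμ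
  have c4 := card_le_card sub1
  have d1 : 1000000 * μ ≤ S.card := le_trans (Nat.mul_le_mul_right _ hq) b1
  have d2 : 1000000 * r2 ≤ 2500 * (μ + 1) := le_trans (Nat.mul_le_mul_right _ hq) b2
  have d3 : 1000000 * 1000000 * E ≤ μ + 1 :=
    le_trans (Nat.mul_le_mul_right _ (Nat.mul_le_mul hq hq)) b4
  have d4 : 1000000 * 1000000 ≤ μ + 1 := le_trans (Nat.mul_le_mul hq hq) b5
  have hML2 := hS W ι S S2 τ E (sub2.trans sub1) hML
  have fin := AM.core (μ := μ) (Δ := Δ) h1 hT hB hC hO hP hML2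
    (fun i hi => hnd i (sub1 (sub2 hi))) ?_ ?_ ?_ (by omega) T hTc (fun i hi => hT' i (sub2 hi))
    ?_ (by omega) (by omega) (by omega)
  · have d5 : 4 * S.card ≤ 9 * Δ + 500 * μ := by omega
    have := Nat.mul_le_mul_left q d5
    nlinarith
  · rintro ⟨f, hf⟩
    refine hK5 ⟨f, fun i j hij => ?_⟩
    obtain ⟨a, ha, h⟩ := hf i j hij
    exact ⟨a, sub1 (sub2 ha), h⟩
  · rintro ⟨f, g, hf, hg, hfg⟩
    refine hK33 ⟨f, g, hf, hg, fun i j => ?_⟩
    obtain ⟨a, ha, h⟩ := hfg i j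
    exact ⟨a, sub1 (sub2 ha), h⟩
  · exact fun u => le_trans (num_mono fun i hi h => ⟨sub1 (sub2 hi), h⟩) (hst u)
  · intro i hi
    have hi' := hi
    rw [hS2, mem_filter] at hi'
    refine le_trans (?_ : μ ≤ x (τ i)) ?_
    · rw [hμ]
      exact Nat.div_le_of_le_mul hi'.2
    · rw [hx]
      refine num_mono fun j hj h => ⟨?_, h⟩
      rw [hS2, mem_filter, h]
      exact ⟨hj, hi'.2⟩

end Pool.Agent.Lib.MP_453ac3_co.LB
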