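import Pool.Agent.Lib.MP_453ac3_co.LB.St

/-!
An end of a big type sees every disjoint big type; classification of the graph of big types.
-/

namespace Pool.Agent.Lib.MP_453ac3_co.LB

open Finset

theorem bad (h : BaseStmt) : BadStmt := by
  intro W _ _ x T E μ hM hS h40 hE a b c d hac had hbc hbd hab hcd
  by_contra hcon
  have h1 : x s(b, c) = 0 := by omega
  have h2 : x s(b, d) = 0 := by omega
  have hab' : a ≠ b := by
    rintro rfl
    have := hS.nd a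
    omega
  have hne : s(a, b) ≠ s(c, d) := by
    intro e
    rcases Sym2.eq_iff.1 e with e | e
    · exact hac e.1
    · exact had e.1
  obtain ⟨z, hz1, hz2, hz3⟩ := h W x
    (fun lam => (if s(a, b) = lam then μ else 0) + if s(c, d) = lam then μ else 0) hS
    (fun lam => by
      split_ifs with e1 e2 e2
      · exact absurd (e1.trans e2.symm) hne
      · subst e1
        omega
      · subst e2
        omega
      · omega)
    (by
      rw [sum_add_distrib, sum_ite_eq, sum_ite_eq]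
      simp only [mem_univ, if_true]
      omega)
  rw [sum_add_distrib, sum_ite_eq, sum_ite_eq] at hz3
  simp only [mem_univ, if_true] at hz3
  set ρ : W → W → ℕ := fun u v => if u = v then 0 else if 0 < x s(u, v) then 2 else 4 with hρ
  have hρ2 : ∀ u v, u ≠ v → 2 ≤ ρ u v := fun u v e => by
    simp only [hρ, if_neg e]
    split_ifs <;> omega
  have hρ4 : ∀ u v, ρ u v ≤ 4 := fun u v => by
    simp only [hρ]
    split_ifs <;> omega
  have hρx : ∀ u v, 0 < x s(u, v) → ρ u v ≤ 2 := fun u v e => by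
    simp only [hρ, if_pos e]
    split_ifs <;> omega
  have hρ0 : ∀ u, ρ u u = 0 := fun u => by simp [hρ]
  have hmet : Met ρ := by
    refine ⟨hρ0, fun u v w => ?_, fun u v => (hρ4 u v).trans (by norm_num)⟩
    by_cases e1 : u = v
    · subst e1
      omega
    · by_cases e2 : v = w
      · subst e2
        omega
      · have := hρ2 u v e1
        have := hρ2 v w e2
        have := hρ4 u w
        omega
  have hadm : ∀ lam, 0 < x lam → Adm ρ lam (fun _ => 1) 2 := fun lam hl =>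
    ⟨fun _ => by norm_num, fun u v e => ⟨hρx u v (e ▸ hl), le_rfl⟩⟩
  have key := hM ρ hmet (fun _ => 2) (fun lam hl => ⟨_, hadm lam hl⟩) (Option (Sym2 W × Sym2 W))
    (fun j => j.elim s(a, b) Prod.fst) (fun j => j.elim s(c, d) Prod.snd)
    (fun j => j.elim μ fun p => z p.1 p.2) (fun j => j.elim 5 fun _ => 4) (fun _ => 0) ?_
    (fun _ h0 => absurd h0 (lt_irrefl _)) ?_
  · rw [Fintype.sum_option, Fintype.sum_prod_type] at key
    simp only [Option.elim_none, Option.elim_some, sum_const_zero, ← sum_mul] at key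
    omega
  · rintro (_ | ⟨lam, mu⟩) hj
    · refine ⟨fun u => if u = a then 2 else 0, fun _ => 1, ⟨fun u => ?_, fun u v e => ?_⟩,
        hadm s(c, d) (by omega), fun u hu v hv => ?_⟩
      · dsimp only
        split_ifs <;> omega
      · have e1 := hρx u v (by
          change s(a, b) = s(u, v) at e
          rw [← e]
          omega)
        rcases Sym2.eq_iff.1 e with ⟨rfl, rfl⟩ | ⟨rfl, rfl⟩
        · simp only [if_true, if_neg hab'.symm]
          omega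
        · simp only [if_true, if_neg hab'.symm]
          omega
      · simp only [Option.elim_none, Sym2.mem_iff] at hu hv ⊢
        rcases hu with rfl | rfl
        · have : 2 ≤ ρ u v := hρ2 u v (by rcases hv with rfl | rfl <;> assumption)
          simp only [if_true]
          omega
        · have : ρ u v = 4 := by
            rcases hv with rfl | rfl
            · simp [hρ, hbc, h1]
            · simp [hρ, hbd, h2]
          omega
    · change 0 < z lam mu at hj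
      have e1 : z lam mu ≤ ∑ mu, z lam mu :=
        single_le_sum (f := fun mu => z lam mu) (fun _ _ => Nat.zero_le _) (mem_univ mu)
      have e2 : z lam mu ≤ ∑ lam, z lam mu :=
        single_le_sum (f := fun lam => z lam mu) (fun _ _ => Nat.zero_le _) (mem_univ lam)
      have e3 := hz1 lam
      have e4 := hz1 mu
      refine ⟨fun _ => 1, fun _ => 1, hadm lam (by omega), hadm mu (by omega), fun u hu v hv => ?_⟩
      have : 2 ≤ ρ u v := hρ2 u v fun e => hz2 lam mu hj u hu (e ▸ hv)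
      simp only [Option.elim_some]
      omega
  · intro lam
    have e3 := hz1 lam
    rw [Fintype.sum_option, Fintype.sum_option, Fintype.sum_prod_type, Fintype.sum_prod_type_right]
    simp only [Option.elim_none, Option.elim_some]
    have e1 : (∑ l₁ : Sym2 W, ∑ l₂ : Sym2 W, if l₁ = lam then z l₁ l₂ else 0) = ∑ mu, z lam mu := by
      rw [sum_comm]
      simp
    have e2 : (∑ l₂ : Sym2 W, ∑ l₁ : Sym2 W, if l₂ = lam then z l₁ l₂ else 0) = ∑ mu, z mu lam := by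
      rw [sum_comm]
      simp
    rw [e1, e2]
    omega

namespace Bad

variable {W : Type} {adj : W → W → Prop}

theorem k33 (h : ¬ ∃ f g : Fin 3 → W, Function.Injective f ∧ Function.Injective g ∧
      ∀ i j, adj (f i) (g j)) {p q s u v w : W} (h1 : p ≠ q) (h2 : p ≠ s) (h3 : q ≠ s) (h4 : u ≠ v)
    (h5 : u ≠ w) (h6 : v ≠ w) (hu : adj p u ∧ adj q u ∧ adj s u) (hv : adj p v ∧ adj q v ∧ adj s v)
    (hw : adj p w ∧ adj q w ∧ adj s w) : False := by
  refine h ⟨![p, q, s], ![u, v, w], fun i j e => ?_, fun i j e => ?_, fun i j => ?_⟩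
  · fin_cases i <;> fin_cases j <;> simp_all
  · fin_cases i <;> fin_cases j <;> simp_all
  · fin_cases i <;> fin_cases j <;> simp [hu, hv, hw]

/-- the octahedron from six vertices -/
theorem octa (hs : ∀ a b, adj a b → adj b a) (hi : ∀ a, ¬ adj a a) (N : W → Prop)
    (hN : ∀ u v, adj u v → N u)
    (h3 : ∀ p q s, N p → N q → N s → q ≠ p → s ≠ p → ¬ adj p q → ¬ adj p s → q = s)
    (hK : ¬ ∃ f g : Fin 3 → W, Function.Injective f ∧ Function.Injective g ∧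
      ∀ i j, adj (f i) (g j)) {a a' : W} (ha : N a) (ha' : N a') (e0 : a ≠ a') (n0 : ¬ adj a a')
    {r₁ r₂ r₃ r₄ : W} (h₁ : N r₁ ∧ r₁ ≠ a ∧ r₁ ≠ a') (h₂ : N r₂ ∧ r₂ ≠ a ∧ r₂ ≠ a')
    (h₃ : N r₃ ∧ r₃ ≠ a ∧ r₃ ≠ a') (h₄ : N r₄ ∧ r₄ ≠ a ∧ r₄ ≠ a') (e12 : r₁ ≠ r₂) (e13 : r₁ ≠ r₃)
    (e14 : r₁ ≠ r₄) (e23 : r₂ ≠ r₃) (e24 : r₂ ≠ r₄) (e34 : r₃ ≠ r₄) (n12 : ¬ adj r₁ r₂) :
    ∃ η : Fin 6 → W, Function.Injective η ∧ (∀ i j, adj (η i) (η j) ↔ j ≠ i ∧ j ≠ i + 3) ∧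
      ∀ u v, adj u v → ∃ i, u = η i := by
  have un : ∀ p q, N p → N q → p ≠ q → ¬ adj p q → ∀ r, N r → r ≠ p → r ≠ q →
      adj p r ∧ adj q r := by
    intro p q hp hq e n r hr e1 e2
    constructor
    · by_contra n1
      exact e2 (h3 p r q hp hr hq e1 e.symm n1 n)
    · by_contra n1
      exact e1 (h3 q r p hq hr hp e2 e n1 fun h => n (hs _ _ h))
  have ar : ∀ r, N r ∧ r ≠ a ∧ r ≠ a' → adj a r ∧ adj a' r := fun r hr =>
    un a a' ha ha' e0 n0 r hr.1 hr.2.1 hr.2.2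
  obtain ⟨a1, b1⟩ := ar r₁ h₁
  obtain ⟨a2, b2⟩ := ar r₂ h₂
  obtain ⟨a3, b3⟩ := ar r₃ h₃
  obtain ⟨a4, b4⟩ := ar r₄ h₄
  obtain ⟨c13, c23⟩ := un r₁ r₂ h₁.1 h₂.1 e12 n12 r₃ h₃.1 e13.symm e23.symm
  obtain ⟨c14, c24⟩ := un r₁ r₂ h₁.1 h₂.1 e12 n12 r₄ h₄.1 e14.symm e24.symm
  have n34 : ¬ adj r₃ r₄ := fun c34 => k33 hK e0 h₃.2.1.symm h₃.2.2.symm e12 e14 e24
    ⟨a1, b1, hs _ _ c13⟩ ⟨a2, b2, hs _ _ c23⟩ ⟨a4, b4, c34⟩
  have n0' : ¬ adj a' a := fun h => n0 (hs _ _ h)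
  have n21 : ¬ adj r₂ r₁ := fun h => n12 (hs _ _ h)
  have n43 : ¬ adj r₄ r₃ := fun h => n34 (hs _ _ h)
  have hadj : ∀ i j : Fin 6, adj (![a, r₁, r₃, a', r₂, r₄] i) (![a, r₁, r₃, a', r₂, r₄] j) ↔
      j ≠ i ∧ j ≠ i + 3 := by
    have := hs _ _ a1
    have := hs _ _ a2
    have := hs _ _ a3
    have := hs _ _ a4
    have := hs _ _ b1
    have := hs _ _ b2
    have := hs _ _ b3
    have := hs _ _ b4
    have := hs _ _ c13
    have := hs _ _ c23
    have := hs _ _ c14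
    have := hs _ _ c24
    intro i j
    fin_cases i <;> fin_cases j <;> simp [*]
  refine ⟨![a, r₁, r₃, a', r₂, r₄], fun i j e => ?_, hadj, fun u v huv => ?_⟩
  · obtain ⟨-, f1, g1⟩ := h₁
    obtain ⟨-, f2, g2⟩ := h₂
    obtain ⟨-, f3, g3⟩ := h₃
    obtain ⟨-, f4, g4⟩ := h₄
    clear hadj un ar h3 hK hN hs hi
    fin_cases i <;> fin_cases j <;> first | rfl | (exfalso; simp at e; simp_all)
  · by_contra hcon
    push Not at hcon
    have u0 : u ≠ a := hcon 0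
    have u1 : u ≠ r₁ := hcon 1
    have u2 : u ≠ r₃ := hcon 2
    have u3 : u ≠ a' := hcon 3
    have u4 : u ≠ r₂ := hcon 4
    have u5 : u ≠ r₄ := hcon 5
    obtain ⟨au, bu⟩ := ar u ⟨hN u v huv, u0, u3⟩
    obtain ⟨cu, -⟩ := un r₁ r₂ h₁.1 h₂.1 e12 n12 u (hN u v huv) u1 u4
    exact k33 hK e0 h₁.2.1.symm h₁.2.2.symm e34 u2.symm u5.symm ⟨a3, b3, c13⟩ ⟨a4, b4, c14⟩
      ⟨au, bu, cu⟩

end Bad

theorem cls : ClassStmt := by
  intro W adj hs hi hex h4 hK5 hK h7 h8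
  set N : W → Prop := fun u => ∃ v, adj u v with hNd
  have P1 : ∀ b c d, N b → adj c d → b ≠ c → b ≠ d → adj b c ∨ adj b d := by
    rintro b c d ⟨a, ha⟩ hcd e1 e2
    by_cases e3 : a = c
    · exact Or.inl (e3 ▸ ha)
    · by_cases e4 : a = d
      · exact Or.inr (e4 ▸ ha)
      · exact h4 a b c d e3 e4 e1 e2 (hs _ _ ha) hcd
  have h3 : ∀ p q s, N p → N q → N s → q ≠ p → s ≠ p → ¬ adj p q → ¬ adj p s → q = s := by
    intro p q s hp hq hs' e1 e2 n1 n2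
    by_contra e3
    have prop : ∀ t, N t → t ≠ p → ¬ adj p t → ∀ v, adj p v → adj t v := fun t ht f n v hv =>
      (P1 t p v ht hv f fun e => n (e ▸ hv)).resolve_left fun h => n (hs _ _ h)
    have all : ∀ u v, adj u v → (adj p u ∧ adj q u ∧ adj s u) ∨ (adj p v ∧ adj q v ∧ adj s v) := by
      intro u v huv
      have : adj p u ∨ adj p v := by
        by_cases f1 : p = u
        · exact Or.inr (f1 ▸ huv)
        · by_cases f2 : p = v
          · exact Or.inl (f2 ▸ hs _ _ huv)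
          · exact P1 p u v hp huv f1 f2
      exact this.imp (fun h => ⟨h, prop q hq e1 n1 u h, prop s hs' e2 n2 u h⟩)
        fun h => ⟨h, prop q hq e1 n1 v h, prop s hs' e2 n2 v h⟩
    have pick : ∀ a b, ∃ w, w ≠ a ∧ w ≠ b ∧ adj p w ∧ adj q w ∧ adj s w := by
      intro a b
      obtain ⟨u, v, huv, f1, f2, f3, f4⟩ := h7 a b
      exact (all u v huv).elim (fun h => ⟨u, f1, f2, h⟩) fun h => ⟨v, f3, f4, h⟩
    obtain ⟨w₁, -, -, g1⟩ := pick p p
    obtain ⟨w₂, f1, -, g2⟩ := pick w₁ w₁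
    obtain ⟨w₃, f2, f3, g3⟩ := pick w₁ w₂
    exact Bad.k33 hK e1.symm e2.symm e3 f1.symm f2.symm f3.symm g1 g2 g3
  obtain ⟨v₀, w₀, g0⟩ := hex
  obtain ⟨v₁, w₁, g1, e10, -⟩ := h8 v₀ v₀ v₀ v₀
  obtain ⟨v₂, w₂, g2, e20, e21, -⟩ := h8 v₀ v₁ v₀ v₀
  obtain ⟨v₃, w₃, g3, e30, e31, e32, -⟩ := h8 v₀ v₁ v₂ v₀
  obtain ⟨v₄, w₄, g4, e40, e41, e42, e43⟩ := h8 v₀ v₁ v₂ v₃
  have finj : Function.Injective ![v₀, v₁, v₂, v₃, v₄] := by
    intro i j e
    clear h3 P1 h4 hK5 hK h7 h8 hs hi hNd g0 g1 g2 g3 g4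
    fin_cases i <;> fin_cases j <;> first | rfl | (exfalso; simp at e; simp_all)
  have fN : ∀ i, N (![v₀, v₁, v₂, v₃, v₄] i) := by
    intro i
    fin_cases i
    exacts [⟨_, g0⟩, ⟨_, g1⟩, ⟨_, g2⟩, ⟨_, g3⟩, ⟨_, g4⟩]
  generalize ![v₀, v₁, v₂, v₃, v₄] = f at finj fN
  obtain ⟨i, j, hij, nij⟩ : ∃ i j, i ≠ j ∧ ¬ adj (f i) (f j) := by
    by_contra hcon
    push Not at hcon
    exact hK5 ⟨f, hcon⟩
  obtain ⟨σ, s0, s1⟩ : ∃ σ : Equiv.Perm (Fin 5), σ 0 = i ∧ σ 1 = j := by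
    refine ⟨Equiv.swap 0 i * Equiv.swap 1 (Equiv.swap 0 i j), ?_⟩
    clear nij
    revert i j
    decide
  have ginj : Function.Injective (f ∘ σ) := finj.comp σ.injective
  have gN : ∀ i, N ((f ∘ σ) i) := fun i => fN _
  have n01 : ¬ adj ((f ∘ σ) 0) ((f ∘ σ) 1) := by simpa [s0, s1] using nij
  generalize f ∘ σ = η at ginj gN n01
  by_cases hc : ∀ u v, adj u v → ∃ i, u = η i
  · exact Or.inl ⟨η, ginj, n01, hc⟩
  right
  push Not at hc
  obtain ⟨u, v, huv, hu⟩ := hc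
  have ne : ∀ i j, i ≠ j → η i ≠ η j := fun i j e => ginj.ne e
  have h₁ : N (η 2) ∧ η 2 ≠ η 0 ∧ η 2 ≠ η 1 := ⟨gN _, ne _ _ (by decide), ne _ _ (by decide)⟩
  have h₂ : N (η 3) ∧ η 3 ≠ η 0 ∧ η 3 ≠ η 1 := ⟨gN _, ne _ _ (by decide), ne _ _ (by decide)⟩
  have h₃ : N (η 4) ∧ η 4 ≠ η 0 ∧ η 4 ≠ η 1 := ⟨gN _, ne _ _ (by decide), ne _ _ (by decide)⟩
  have h₄ : N u ∧ u ≠ η 0 ∧ u ≠ η 1 := ⟨⟨v, huv⟩, hu _, hu _⟩
  have e01 := ne 0 1 (by decide)
  have e23 := ne 2 3 (by decide)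
  have e24 := ne 2 4 (by decide)
  have e34 := ne 3 4 (by decide)
  have hN : ∀ u v, adj u v → N u := fun u v h => ⟨v, h⟩
  by_cases c1 : adj (η 2) (η 3)
  · by_cases c2 : adj (η 2) (η 4)
    · by_cases c3 : adj (η 2) u
      · exfalso
        have ar : ∀ r, N r ∧ r ≠ η 0 ∧ r ≠ η 1 → adj (η 0) r ∧ adj (η 1) r := by
          intro r hr
          constructor
          · by_contra n1
            exact hr.2.2 (h3 _ r _ (gN 0) hr.1 (gN 1) hr.2.1 e01.symm n1 n01)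
          · by_contra n1
            exact hr.2.1 (h3 _ r _ (gN 1) hr.1 (gN 0) hr.2.2 e01 n1 fun h => n01 (hs _ _ h))
        exact Bad.k33 hK e01 h₁.2.1.symm h₁.2.2.symm e34 (hu 3).symm (hu 4).symm
          ⟨(ar _ h₂).1, (ar _ h₂).2, c1⟩ ⟨(ar _ h₃).1, (ar _ h₃).2, c2⟩ ⟨(ar _ h₄).1, (ar _ h₄).2, c3⟩
      · exact Bad.octa hs hi N hN h3 hK (gN 0) (gN 1) e01 n01 h₁ h₄ h₂ h₃ (hu 2).symm e23 e24
          (hu 3) (hu 4) e34 c3
    · exact Bad.octa hs hi N hN h3 hK (gN 0) (gN 1) e01 n01 h₁ h₃ h₂ h₄ e24 e23 (hu 2).symm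
        e34.symm (hu 4).symm (hu 3).symm c2
  · exact Bad.octa hs hi N hN h3 hK (gN 0) (gN 1) e01 n01 h₁ h₂ h₃ h₄ e23 e24 (hu 2).symm
      e34 (hu 3).symm (hu 4).symm c1

end Pool.Agent.Lib.MP_453ac3_co.LB
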