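import Pool.Agent.Lib.MP_453ac3_co.LB.St

namespace Pool.Agent.Lib.MP_453ac3_co.LB

open Finset

theorem num_fiber {ι Λ : Type} [Fintype Λ] (S : Finset ι) (g : ι → Λ) (P : Λ → Prop)
    [DecidablePred P] :
    num S (fun i => P (g i)) = ∑ lam, if P lam then num S (fun i => g i = lam) else 0 := by
  classical
  simp only [num_eq_sum]
  have : ∀ lam, (if P lam then ∑ a ∈ S, if g a = lam then 1 else 0 else 0) =
      ∑ a ∈ S, if g a = lam then (if P lam then 1 else 0) else 0 := by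
    intro lam
    split_ifs <;> simp
  simp only [this]
  rw [sum_comm]
  refine sum_congr rfl fun i _ => ?_
  simp

namespace Bip

theorem sum5 (F : Sym2 (Fin 5) → ℕ) : ∑ mu, F mu = F s(0, 0) + F s(0, 1) + F s(0, 2) + F s(0, 3) +
    F s(0, 4) + F s(1, 1) + F s(1, 2) + F s(1, 3) + F s(1, 4) + F s(2, 2) + F s(2, 3) + F s(2, 4) +
    F s(3, 3) + F s(3, 4) + F s(4, 4) := by
  have : (univ : Finset (Sym2 (Fin 5))) = {s(0, 0), s(0, 1), s(0, 2), s(0, 3), s(0, 4), s(1, 1),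
      s(1, 2), s(1, 3), s(1, 4), s(2, 2), s(2, 3), s(2, 4), s(3, 3), s(3, 4), s(4, 4)} := by
    decide
  rw [this]
  repeat rw [sum_insert (by decide)]
  rw [sum_singleton]
  omega

variable {W ι : Type} {S : Finset ι} {τ : ι → Sym2 W} {η : Fin 5 → W}

theorem back (hη : Function.Injective η) (hc : ∀ i ∈ S, ∀ a ∈ τ i, ∃ k, a = η k) {i : ι}
    (hi : i ∈ S) : ((τ i).map (Function.invFun η)).map η = τ i := by
  have h := hc i hi
  generalize τ i = e at h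
  induction e using Sym2.ind with
  | _ a b =>
    obtain ⟨k, rfl⟩ := h a (by simp)
    obtain ⟨k', rfl⟩ := h b (by simp)
    simp [Function.leftInverse_invFun hη k, Function.leftInverse_invFun hη k']

theorem x5 (hη : Function.Injective η) (hc : ∀ i ∈ S, ∀ a ∈ τ i, ∃ k, a = η k) (a b : Fin 5) :
    num S (fun i => (τ i).map (Function.invFun η) = s(a, b)) =
      num S fun i => τ i = s(η a, η b) := by
  refine num_congr fun i hi => ⟨fun h => ?_, fun h => ?_⟩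
  · rw [← back hη hc hi, h]
    simp
  · rw [h]
    simp [Function.leftInverse_invFun hη a, Function.leftInverse_invFun hη b]

theorem diag (hnd : ∀ i ∈ S, ¬ (τ i).IsDiag) (a : W) : num S (fun i => τ i = s(a, a)) = 0 := by
  by_contra h
  obtain ⟨i, hi, h⟩ := num_pos.1 (Nat.pos_of_ne_zero h)
  exact hnd i hi (by simp [h])

theorem zero01 (h01 : ∀ i ∈ S, τ i ≠ s(η 0, η 1)) : num S (fun i => τ i = s(η 0, η 1)) = 0 := by
  by_contra h
  obtain ⟨i, hi, h⟩ := num_pos.1 (Nat.pos_of_ne_zero h)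
  exact h01 i hi h

theorem expand (hη : Function.Injective η) (hc : ∀ i ∈ S, ∀ a ∈ τ i, ∃ k, a = η k)
    (hnd : ∀ i ∈ S, ¬ (τ i).IsDiag) (h01 : ∀ i ∈ S, τ i ≠ s(η 0, η 1))
    (P : Sym2 (Fin 5) → Prop) [DecidablePred P] :
    num S (fun i => P ((τ i).map (Function.invFun η))) =
      (if P s(0, 2) then num S fun i => τ i = s(η 0, η 2) else 0) +
      (if P s(0, 3) then num S fun i => τ i = s(η 0, η 3) else 0) +
      (if P s(0, 4) then num S fun i => τ i = s(η 0, η 4) else 0) +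
      (if P s(1, 2) then num S fun i => τ i = s(η 1, η 2) else 0) +
      (if P s(1, 3) then num S fun i => τ i = s(η 1, η 3) else 0) +
      (if P s(1, 4) then num S fun i => τ i = s(η 1, η 4) else 0) +
      (if P s(2, 3) then num S fun i => τ i = s(η 2, η 3) else 0) +
      (if P s(2, 4) then num S fun i => τ i = s(η 2, η 4) else 0) +
      (if P s(3, 4) then num S fun i => τ i = s(η 3, η 4) else 0) := by
  rw [num_fiber S (fun i => (τ i).map (Function.invFun η)) P, sum5]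
  simp only [x5 hη hc, diag hnd, zero01 h01, ite_self]
  omega

theorem star_eq (hη : Function.Injective η) (hc : ∀ i ∈ S, ∀ a ∈ τ i, ∃ k, a = η k) (k : Fin 5) :
    star S τ (η k) = num S fun i => k ∈ (τ i).map (Function.invFun η) := by
  refine num_congr fun i hi => ⟨fun h => ?_, fun h => ?_⟩
  · exact Sym2.mem_map.2 ⟨_, h, Function.leftInverse_invFun hη k⟩
  · rw [← back hη hc hi]
    exact Sym2.mem_map.2 ⟨_, h, rfl⟩

theorem sums (hη : Function.Injective η) (hc : ∀ i ∈ S, ∀ a ∈ τ i, ∃ k, a = η k)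
    (hnd : ∀ i ∈ S, ¬ (τ i).IsDiag) (h01 : ∀ i ∈ S, τ i ≠ s(η 0, η 1))
    (X : Fin 5 → Fin 5 → ℕ) (hX : ∀ a b, X a b = num S fun i => τ i = s(η a, η b)) :
    S.card = X 0 2 + X 0 3 + X 0 4 + X 1 2 + X 1 3 + X 1 4 + X 2 3 + X 2 4 + X 3 4 ∧
    star S τ (η 0) = X 0 2 + X 0 3 + X 0 4 ∧ star S τ (η 1) = X 1 2 + X 1 3 + X 1 4 ∧
    star S τ (η 2) = X 0 2 + X 1 2 + X 2 3 + X 2 4 ∧
    star S τ (η 3) = X 0 3 + X 1 3 + X 2 3 + X 3 4 ∧
    star S τ (η 4) = X 0 4 + X 1 4 + X 2 4 + X 3 4 := by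
  simp only [star_eq hη hc, hX]
  refine ⟨?_, ?_, ?_, ?_, ?_, ?_⟩
  · have := expand hη hc hnd h01 fun _ => True
    rw [num_eq] at this
    simpa using this
  · rw [expand hη hc hnd h01 fun e => (0 : Fin 5) ∈ e]
    simp
  · rw [expand hη hc hnd h01 fun e => (1 : Fin 5) ∈ e]
    simp
  · rw [expand hη hc hnd h01 fun e => (2 : Fin 5) ∈ e]
    simp
  · rw [expand hη hc hnd h01 fun e => (3 : Fin 5) ∈ e]
    simp
  · rw [expand hη hc hnd h01 fun e => (4 : Fin 5) ∈ e]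
    simp

theorem lpq (n2 n3 n4 m2 m3 m4 t2 t3 t4 N D K : ℚ) (p1 : 0 ≤ n2) (p2 : 0 ≤ n3) (p3 : 0 ≤ n4)
    (p4 : 0 ≤ m2) (p5 : 0 ≤ m3) (p6 : 0 ≤ m4) (_p7 : 0 ≤ t2) (p8 : 0 ≤ t3) (p9 : 0 ≤ t4) (pK : 0 ≤ K)
    (e0 : N = n2 + n3 + n4 + m2 + m3 + m4 + t4 + t3 + t2)
    (s0 : n2 + n3 + n4 ≤ D) (s1 : m2 + m3 + m4 ≤ D) (s2 : n2 + m2 + t4 + t3 ≤ D)
    (s3 : n3 + m3 + t4 + t2 ≤ D) (s4 : n4 + m4 + t3 + t2 ≤ D)
    (a : (n2 ≤ t2 + 12 * K ∧ m2 ≤ t2 + 12 * K) ∨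
      (m2 ≤ n2 ∧ N ≤ 2 * (n3 + t4 + m2 + t2) + 12 * K) ∨
      (m2 ≤ n2 ∧ N ≤ 2 * (n4 + t3 + m2 + t2) + 12 * K) ∨
      (n2 ≤ m2 ∧ N ≤ 2 * (m3 + t4 + n2 + t2) + 12 * K) ∨
      (n2 ≤ m2 ∧ N ≤ 2 * (m4 + t3 + n2 + t2) + 12 * K))
    (b : (n3 ≤ t3 + 12 * K ∧ m3 ≤ t3 + 12 * K) ∨
      (m3 ≤ n3 ∧ N ≤ 2 * (n2 + t4 + m3 + t3) + 12 * K) ∨
      (m3 ≤ n3 ∧ N ≤ 2 * (n4 + t2 + m3 + t3) + 12 * K) ∨
      (n3 ≤ m3 ∧ N ≤ 2 * (m2 + t4 + n3 + t3) + 12 * K) ∨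
      (n3 ≤ m3 ∧ N ≤ 2 * (m4 + t2 + n3 + t3) + 12 * K))
    (c : (n4 ≤ t4 + 12 * K ∧ m4 ≤ t4 + 12 * K) ∨
      (m4 ≤ n4 ∧ N ≤ 2 * (n2 + t3 + m4 + t4) + 12 * K) ∨
      (m4 ≤ n4 ∧ N ≤ 2 * (n3 + t2 + m4 + t4) + 12 * K) ∨
      (n4 ≤ m4 ∧ N ≤ 2 * (m2 + t3 + n4 + t4) + 12 * K) ∨
      (n4 ≤ m4 ∧ N ≤ 2 * (m3 + t2 + n4 + t4) + 12 * K)) : 4 * N ≤ 9 * D + 200 * K := by
  rcases a with ⟨a, a'⟩ | ⟨a, a'⟩ | ⟨a, a'⟩ | ⟨a, a'⟩ | ⟨a, a'⟩ <;>
    rcases b with ⟨b, b'⟩ | ⟨b, b'⟩ | ⟨b, b'⟩ | ⟨b, b'⟩ | ⟨b, b'⟩ <;>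
    rcases c with ⟨c, c'⟩ | ⟨c, c'⟩ | ⟨c, c'⟩ | ⟨c, c'⟩ | ⟨c, c'⟩ <;> linarith

def tbl : Fin 5 → Fin 4 := ![0, 3, 0, 1, 2]

theorem step (h1 : MLXStmt) (h2 : PlanStmt) {E Δ : ℕ} (hML : ML S τ E)
    (hη : Function.Injective η) (hc : ∀ i ∈ S, ∀ a ∈ τ i, ∃ k, a = η k)
    (hnd : ∀ i ∈ S, ¬ (τ i).IsDiag) (h01 : ∀ i ∈ S, τ i ≠ s(η 0, η 1))
    (hst : ∀ u, star S τ u ≤ Δ) (hΔ : 20 * Δ ≤ 9 * S.card) (hE : 60 * (E + 33) ≤ S.card)
    (X : Fin 5 → Fin 5 → ℕ) (hX : ∀ a b, X a b = num S fun i => τ i = s(η a, η b)) :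
    X 0 2 < X 1 2 ∨ X 0 2 < X 3 4 + 12 * (E + 33) ∨
      S.card < 2 * (X 0 3 + X 2 3 + X 1 2 + X 3 4) + 12 * (E + 33) ∨
      S.card < 2 * (X 0 4 + X 2 4 + X 1 2 + X 3 4) + 12 * (E + 33) := by
  obtain ⟨e0, e1, e2, e3, e4, e5⟩ := sums hη hc hnd h01 X hX
  have s0 := hst (η 0)
  have s1 := hst (η 1)
  have s2 := hst (η 2)
  have s3 := hst (η 3)
  have s4 := hst (η 4)
  have hM := h1 W (Fin 4) ι S τ E (tbl ∘ Function.invFun η) hML
  obtain ⟨x, hx⟩ : ∃ x : Sym2 (Fin 4) → ℕ,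
      x = fun lam => num S fun i => (τ i).map (tbl ∘ Function.invFun η) = lam := ⟨_, rfl⟩
  rw [← hx] at hM
  have key : ∀ lam, num S (fun i => ((τ i).map (Function.invFun η)).map tbl = lam) = x lam := by
    intro lam
    simp only [Sym2.map_map, hx]
  have ex := fun lam => expand hη hc hnd h01 fun e => e.map tbl = lam
  simp only [key, ← hX] at ex
  have x00 := ex s(0, 0)
  have x01 := ex s(0, 1)
  have x02 := ex s(0, 2)
  have x03 := ex s(0, 3)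
  have x11 := ex s(1, 1)
  have x12 := ex s(1, 2)
  have x13 := ex s(1, 3)
  have x22 := ex s(2, 2)
  have x23 := ex s(2, 3)
  have x33 := ex s(3, 3)
  simp (config := { decide := true }) only [if_true, if_false, add_zero, zero_add] at x00 x01 x02 x03 x11 x12 x13 x22 x23 x33
  have hT : ∀ i ∈ S, (τ i).map (tbl ∘ Function.invFun η) = s(0, 3) → τ i = s(η 1, η 2) := by
    intro i hi h
    have hb := back hη hc hi
    have h0 := h01 i hi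
    have h' : ((τ i).map (Function.invFun η)).map tbl = s(0, 3) := by
      rw [Sym2.map_map]
      exact h
    have : ∀ e : Sym2 (Fin 5), e.map tbl = s(0, 3) → e = s(0, 1) ∨ e = s(1, 2) := by decide
    rcases this _ h' with h3 | h3 <;> rw [h3] at hb
    · exact absurd (by simpa using hb.symm) h0
    · simpa using hb.symm
  obtain ⟨K, hK⟩ : ∃ K, K = E + 33 := ⟨_, rfl⟩
  rw [← hK] at hE ⊢
  by_contra hcon
  simp only [not_or, not_lt] at hcon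
  have := h2 _ _ E K S.card hM
    (fun i hi i' hi' h h' => (hT i hi h).trans (hT i' hi' h').symm) x11 x22 x33
    (by omega) (by omega) (by omega) (by omega) (by omega) (by omega) (by omega) (by omega)
    (by omega) (by omega) (by omega)
  omega

end Bip

theorem bip (h1 : MLXStmt) (h2 : PlanStmt) : BipStmt := by
  intro W ι S τ E Δ η hML hη hnd hc h01 hst hΔ hE
  obtain ⟨X, hX⟩ : ∃ X : Fin 5 → Fin 5 → ℕ, ∀ a b, X a b = num S fun i => τ i = s(η a, η b) :=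
    ⟨_, fun _ _ => rfl⟩
  have hs : ∀ a b, X a b = X b a := by
    intro a b
    rw [hX, hX, Sym2.eq_swap]
  obtain ⟨e0, e1, e2, e3, e4, e5⟩ := Bip.sums hη hc hnd h01 X hX
  have s0 := hst (η 0)
  have s1 := hst (η 1)
  have s2 := hst (η 2)
  have s3 := hst (η 3)
  have s4 := hst (η 4)
  have main : ∀ e : Fin 5 → Fin 5, Function.Bijective e → s(e 0, e 1) = s(0, 1) →
      X (e 0) (e 2) < X (e 1) (e 2) ∨ X (e 0) (e 2) < X (e 3) (e 4) + 12 * (E + 33) ∨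
      S.card < 2 * (X (e 0) (e 3) + X (e 2) (e 3) + X (e 1) (e 2) + X (e 3) (e 4)) +
        12 * (E + 33) ∨
      S.card < 2 * (X (e 0) (e 4) + X (e 2) (e 4) + X (e 1) (e 2) + X (e 3) (e 4)) +
        12 * (E + 33) := by
    intro e he he'
    refine Bip.step (η := η ∘ e) h1 h2 hML (hη.comp he.1) ?_ hnd ?_ hst hΔ hE
      (fun a b => X (e a) (e b)) fun a b => hX _ _
    · intro i hi a ha
      obtain ⟨k, hk⟩ := hc i hi a ha
      obtain ⟨k', rfl⟩ := he.2 k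
      exact ⟨k', hk⟩
    · intro i hi h
      apply h01 i hi
      have := congrArg (Sym2.map η) he'
      simp only [Sym2.map_mk] at this
      rw [← this]
      exact h
  have a1 := main ![0, 1, 2, 3, 4] (by decide) (by decide)
  have a2 := main ![1, 0, 2, 3, 4] (by decide) (by decide)
  have b1 := main ![0, 1, 3, 2, 4] (by decide) (by decide)
  have b2 := main ![1, 0, 3, 2, 4] (by decide) (by decide)
  have c1 := main ![0, 1, 4, 2, 3] (by decide) (by decide)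
  have c2 := main ![1, 0, 4, 2, 3] (by decide) (by decide)
  simp only [Matrix.cons_val_zero, Matrix.cons_val_one, Matrix.cons_val] at a1 a2 b1 b2 c1 c2
  rw [hs 3 2] at b1 b2
  rw [hs 4 2, hs 4 3] at c1 c2
  generalize E + 33 = K at *
  generalize S.card = N at *
  generalize X 0 2 = n2 at *
  generalize X 0 3 = n3 at *
  generalize X 0 4 = n4 at *
  generalize X 1 2 = m2 at *
  generalize X 1 3 = m3 at *
  generalize X 1 4 = m4 at *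
  generalize X 2 3 = t4 at *
  generalize X 2 4 = t3 at *
  generalize X 3 4 = t2 at *
  rw [e1] at s0
  rw [e2] at s1
  rw [e3] at s2
  rw [e4] at s3
  rw [e5] at s4
  clear e1 e2 e3 e4 e5 main hs hX hst
  have a : (n2 ≤ t2 + 12 * K ∧ m2 ≤ t2 + 12 * K) ∨
      (m2 ≤ n2 ∧ N ≤ 2 * (n3 + t4 + m2 + t2) + 12 * K) ∨
      (m2 ≤ n2 ∧ N ≤ 2 * (n4 + t3 + m2 + t2) + 12 * K) ∨
      (n2 ≤ m2 ∧ N ≤ 2 * (m3 + t4 + n2 + t2) + 12 * K) ∨
      (n2 ≤ m2 ∧ N ≤ 2 * (m4 + t3 + n2 + t2) + 12 * K) := by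
    clear b1 b2 c1 c2 s0 s1 s2 s3 s4 e0 hE hΔ
    omega
  have b : (n3 ≤ t3 + 12 * K ∧ m3 ≤ t3 + 12 * K) ∨
      (m3 ≤ n3 ∧ N ≤ 2 * (n2 + t4 + m3 + t3) + 12 * K) ∨
      (m3 ≤ n3 ∧ N ≤ 2 * (n4 + t2 + m3 + t3) + 12 * K) ∨
      (n3 ≤ m3 ∧ N ≤ 2 * (m2 + t4 + n3 + t3) + 12 * K) ∨
      (n3 ≤ m3 ∧ N ≤ 2 * (m4 + t2 + n3 + t3) + 12 * K) := by
    clear a a1 a2 c1 c2 s0 s1 s2 s3 s4 e0 hE hΔ
    omega
  have c : (n4 ≤ t4 + 12 * K ∧ m4 ≤ t4 + 12 * K) ∨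
      (m4 ≤ n4 ∧ N ≤ 2 * (n2 + t3 + m4 + t4) + 12 * K) ∨
      (m4 ≤ n4 ∧ N ≤ 2 * (n3 + t2 + m4 + t4) + 12 * K) ∨
      (n4 ≤ m4 ∧ N ≤ 2 * (m2 + t3 + n4 + t4) + 12 * K) ∨
      (n4 ≤ m4 ∧ N ≤ 2 * (m3 + t2 + n4 + t4) + 12 * K) := by
    clear a b a1 a2 b1 b2 s0 s1 s2 s3 s4 e0 hE hΔ
    omega
  have := Bip.lpq n2 n3 n4 m2 m3 m4 t2 t3 t4 N Δ K (by positivity) (by positivity) (by positivity)
    (by positivity) (by positivity) (by positivity) (by positivity) (by positivity)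
    (by positivity) (by positivity) (by exact_mod_cast e0) (by exact_mod_cast s0)
    (by exact_mod_cast s1) (by exact_mod_cast s2) (by exact_mod_cast s3) (by exact_mod_cast s4)
    (by exact_mod_cast a) (by exact_mod_cast b) (by exact_mod_cast c)
  exact_mod_cast this

end Pool.Agent.Lib.MP_453ac3_co.LB
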