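import Pool.Agent.Lib.MP_453ac3_co.LB.St

namespace Pool.Agent.Lib.MP_453ac3_co.LB

open Finset

namespace Cluster

variable {V : Type}

theorem sum_dg (h1 : SparseStmt) [Fintype V] {G : SimpleGraph V} (hG : IsPlanar G) :
    ∑ v, dg G v ≤ 8 * Fintype.card V := by
  rw [← cnt_left G univ]
  exact (cnt_mono fun u v _ _ => ⟨mem_univ u, mem_univ v⟩).trans (h1 V G hG univ)

theorem cnt_le (h1 : SparseStmt) [Fintype V] {G : SimpleGraph V} (hG : IsPlanar G)
    (P : V → V → Prop) : cnt G P ≤ 8 * Fintype.card V :=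
  (cnt_mono fun u v _ _ => ⟨mem_univ u, mem_univ v⟩).trans (h1 V G hG univ)

theorem vol_le (h1 : SparseStmt) [Fintype V] {G : SimpleGraph V} (hG : IsPlanar G)
    (R : Finset V) : ∑ v ∈ R, (dg G v + 1) ≤ 9 * Fintype.card V := by
  have h := sum_dg h1 hG
  refine (sum_le_sum_of_subset (subset_univ R)).trans ?_
  rw [sum_add_distrib, sum_const, card_univ, smul_eq_mul, mul_one]
  omega

theorem conn_single (G : SimpleGraph V) {S : Set V} {v : V} (h : S = {v}) :
    (G.induce S).Connected := by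
  subst h
  have : Nonempty ({v} : Set V) := ⟨⟨v, rfl⟩⟩
  exact ⟨SimpleGraph.Preconnected.of_subsingleton⟩

/-- the thresholds for the degrees -/
def gg (b : ℕ) : ℕ → ℕ
  | 0 => 1
  | k + 1 => b * gg b k ^ 3

theorem gg_pos {b : ℕ} (hb : 0 < b) : ∀ k, 0 < gg b k
  | 0 => one_pos
  | k + 1 => Nat.mul_pos hb (pow_pos (gg_pos hb k) 3)

theorem gg_mono {b : ℕ} (hb : 0 < b) : Monotone (gg b) :=
  monotone_nat_of_le_succ fun _ =>
    (Nat.le_self_pow three_ne_zero _).trans (Nat.le_mul_of_pos_left _ hb)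

/-- some scale of degrees carries few edges -/
theorem scale [Fintype V] (G : SimpleGraph V) {g : ℕ → ℕ} (hg : Monotone g) {e n : ℕ}
    (he : 0 < e) (h : ∑ v, dg G v ≤ 8 * n) :
    ∃ k < 8 * e, e * ∑ v with g k * dg G v ≤ n ∧ n < g (k + 1) * dg G v, dg G v ≤ n := by
  classical
  by_contra hc
  push Not at hc
  have h1 := sum_lt_sum_of_nonempty (s := range (8 * e)) ⟨0, mem_range.2 (by omega)⟩
    fun k hk => hc k (mem_range.1 hk)
  have key : ∀ k k' v, k < k' → n < g (k + 1) * dg G v → ¬ g k' * dg G v ≤ n :=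
    fun k k' v hk h2 h3 => by
      have := Nat.mul_le_mul_right (dg G v) (hg (Nat.succ_le_of_lt hk))
      exact absurd (h2.trans_le (this.trans h3)) (lt_irrefl _)
  rw [← mul_sum, ← sum_biUnion, sum_const, card_range, smul_eq_mul] at h1
  · have h2 := Nat.mul_le_mul_left e ((sum_le_sum_of_subset (subset_univ ((range (8 * e)).biUnion
      fun k => {v | g k * dg G v ≤ n ∧ n < g (k + 1) * dg G v}))).trans h)
    have h3 : e * (8 * n) = 8 * e * n := by ring
    omega
  · intro k _ k' _ hk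
    refine disjoint_left.2 fun v hv hv' => ?_
    rw [mem_filter] at hv hv'
    rcases lt_or_gt_of_ne hk with h2 | h2
    · exact key k k' v h2 hv.2.2 hv'.2.1
    · exact key k' k v h2 hv'.2.2 hv.2.1

theorem card_high [Fintype V] (G : SimpleGraph V) {g n : ℕ} (hn : 0 < n)
    (h : ∑ v, dg G v ≤ 8 * n) : (univ.filter fun v => n < g * dg G v).card ≤ 8 * g := by
  have h1 : (univ.filter fun v => n < g * dg G v).card * n ≤
      ∑ v with n < g * dg G v, g * dg G v := by
    rw [← smul_eq_mul, ← sum_const]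
    exact sum_le_sum fun v hv => (mem_filter.1 hv).2.le
  have h2 : ∑ v with n < g * dg G v, g * dg G v ≤ g * (8 * n) := by
    rw [← mul_sum]
    exact Nat.mul_le_mul_left g ((sum_le_sum_of_subset (filter_subset _ _)).trans h)
  refine Nat.le_of_mul_le_mul_right (h1.trans (h2.trans (le_of_eq ?_))) hn
  ring

/-- the cluster with label `a` has a neighbour `h` -/
def Nb (G : SimpleGraph V) (R : Finset V) (c : V → V) (a h : V) : Prop :=
  ∃ w ∈ R, c w = a ∧ G.Adj w h

/-- at most two clusters see three given hubs -/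
theorem two_clusters [Fintype V] {G : SimpleGraph V} (hG : IsPlanar G) {R : Finset V} {c : V → V}
    (hc : ∀ v ∈ R, (G.induce {w | w ∈ R ∧ c w = c v}).Connected) {x y z : V} (hx : x ∉ R)
    (hy : y ∉ R) (hz : z ∉ R) (hxy : x ≠ y) (hxz : x ≠ z) (hyz : y ≠ z) :
    num univ (fun a => Nb G R c a x ∧ Nb G R c a y ∧ Nb G R c a z) ≤ 2 := by
  classical
  by_contra hlt
  rw [num_eq, not_le] at hlt
  obtain ⟨a₀, a₁, a₂, h0, h1, h2, h01, h02, h12⟩ := two_lt_card_iff.1 hlt
  have ha : ∀ i j : Fin 3, Nb G R c (![a₀, a₁, a₂] i) (![x, y, z] j) := by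
    rw [mem_filter] at h0 h1 h2
    intro i j
    fin_cases i <;> fin_cases j
    exacts [h0.2.1, h0.2.2.1, h0.2.2.2, h1.2.1, h1.2.2.1, h1.2.2.2, h2.2.1, h2.2.2.1, h2.2.2.2]
  have ia : Function.Injective ![a₀, a₁, a₂] := by
    intro i j
    fin_cases i <;> fin_cases j <;> simp [h01, h02, h12, h01.symm, h02.symm, h12.symm]
  have ih : Function.Injective ![x, y, z] := by
    intro i j
    fin_cases i <;> fin_cases j <;> simp [hxy, hxz, hyz, hxy.symm, hxz.symm, hyz.symm]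
  have hR : ∀ j : Fin 3, ![x, y, z] j ∉ R := by
    intro j
    fin_cases j
    exacts [hx, hy, hz]
  refine hG.2 ⟨Sum.elim (fun i => {w | w ∈ R ∧ c w = ![a₀, a₁, a₂] i})
    (fun j => {![x, y, z] j}), ?_, ?_, fun i j => ?_⟩
  · rintro (i | j)
    · obtain ⟨w, hw, he, -⟩ := ha i 0
      have := hc w hw
      rwa [he] at this
    · exact conn_single G rfl
  · rintro (i | i) (j | j) hij
    · refine Set.disjoint_left.2 fun w hw hw' => hij ?_
      rw [ia (hw.2.symm.trans hw'.2)]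
    · refine Set.disjoint_left.2 fun w hw hw' => hR j ?_
      rw [← show w = ![x, y, z] j from hw']
      exact hw.1
    · refine Set.disjoint_left.2 fun w hw hw' => hR i ?_
      rw [← show w = ![x, y, z] i from hw]
      exact hw'.1
    · refine Set.disjoint_left.2 fun w hw hw' => hij ?_
      rw [ih ((show w = ![x, y, z] i from hw).symm.trans hw')]
  · obtain ⟨w, hw, he, hadj⟩ := ha i j
    exact ⟨w, ⟨hw, he⟩, _, rfl, hadj⟩

/-- the bad labels and the types of the other labels -/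
theorem types [Fintype V] {G : SimpleGraph V} (hG : IsPlanar G) {R H : Finset V} {c : V → V}
    (hc : ∀ v ∈ R, (G.induce {w | w ∈ R ∧ c w = c v}).Connected) (hH : ∀ h ∈ H, h ∉ R)
    (h2 : 2 ≤ H.card) : ∃ (Bad : Finset V) (t : V → Sym2 V), Bad.card ≤ 2 * H.card ^ 3 ∧
      ∀ a ∉ Bad, ¬ (t a).IsDiag ∧ (∀ h ∈ t a, h ∈ H) ∧ ∀ h ∈ H, Nb G R c a h → h ∈ t a := by
  classical
  let T : Finset (V × V × V) := {p ∈ H ×ˢ H ×ˢ H | p.1 ≠ p.2.1 ∧ p.1 ≠ p.2.2 ∧ p.2.1 ≠ p.2.2}
  let Bad : Finset V := T.biUnion fun p =>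
    {a | Nb G R c a p.1 ∧ Nb G R c a p.2.1 ∧ Nb G R c a p.2.2}
  have hB : Bad.card ≤ 2 * H.card ^ 3 := by
    refine (card_biUnion_le_card_mul T _ 2 fun p hp => ?_).trans ?_
    · obtain ⟨hp, k1, k2, k3⟩ := mem_filter.1 hp
      simp only [mem_product] at hp
      rw [← num_eq]
      exact two_clusters hG hc (hH _ hp.1) (hH _ hp.2.1) (hH _ hp.2.2) k1 k2 k3
    · have : T.card ≤ H.card ^ 3 := (card_filter_le _ _).trans (le_of_eq (by
        simp only [card_product]
        ring))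
      omega
  obtain ⟨v₀, -⟩ : H.Nonempty := card_pos.1 (by omega)
  have ht : ∀ a, ∃ e : Sym2 V, a ∉ Bad →
      ¬ e.IsDiag ∧ (∀ h ∈ e, h ∈ H) ∧ ∀ h ∈ H, Nb G R c a h → h ∈ e := by
    intro a
    by_cases ha : a ∈ Bad
    · exact ⟨s(v₀, v₀), fun h => absurd ha h⟩
    have hN : (H.filter fun h => Nb G R c a h).card ≤ 2 := by
      by_contra hlt
      obtain ⟨x, y, z, hx, hy, hz, hxy, hxz, hyz⟩ := two_lt_card_iff.1 (not_le.1 hlt)
      rw [mem_filter] at hx hy hz
      refine ha (mem_biUnion.2 ⟨(x, y, z), mem_filter.2 ⟨?_, hxy, hxz, hyz⟩,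
        mem_filter.2 ⟨mem_univ _, hx.2, hy.2, hz.2⟩⟩)
      simp only [mem_product]
      exact ⟨hx.1, hy.1, hz.1⟩
    obtain ⟨P, hP1, hP2, hP3⟩ := exists_subsuperset_card_eq (filter_subset _ H) hN h2
    obtain ⟨x, y, hxy, rfl⟩ := card_eq_two.1 hP3
    refine ⟨s(x, y), fun _ => ⟨by simpa using hxy, fun h hh => hP2 (by simpa using hh),
      fun h hh hn => ?_⟩⟩
    simpa using hP1 (mem_filter.2 ⟨hh, hn⟩)
  choose t ht using ht
  exact ⟨Bad, t, hB, ht⟩

theorem cnt_both [Fintype V] (G : SimpleGraph V) (H : Finset V) :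
    cnt G (fun u v => u ∈ H ∧ v ∈ H) ≤ H.card ^ 2 := by
  refine (num_mono (S' := H ×ˢ H) (Q := fun _ => True)
    fun p _ hp => ⟨mem_product.2 hp.2, trivial⟩).trans ((num_le_card _ _).trans ?_)
  rw [card_product, sq]

end Cluster

theorem cluster (h1 : SparseStmt) (h2 : RoundStmt) : ClusterStmt := by
  intro d
  refine ⟨(252 * d + 1) ^ (448 * d), fun V _ _ G hG R B hB => ?_⟩
  have key : ∀ k : ℕ, ∃ c : V → V,
      (∀ v ∈ R, (G.induce {w | w ∈ R ∧ c w = c v}).Connected) ∧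
      (∀ a, ∑ v ∈ R with c v = a, (dg G v + 1) ≤ (252 * d + 1) ^ k * B) ∧
      (d * cnt G (fun u v => u ∈ R ∧ v ∈ R ∧ c u ≠ c v) ≤ Fintype.card V ∨
        56 * (d * cnt G (fun u v => u ∈ R ∧ v ∈ R ∧ c u ≠ c v)) + k * Fintype.card V ≤
          448 * d * Fintype.card V) := by
    intro k
    induction k with
    | zero =>
      refine ⟨id, fun v hv => Cluster.conn_single G (v := v) ?_, fun a => ?_, Or.inr ?_⟩
      · ext w
        exact ⟨fun h => h.2, fun h => ⟨h ▸ hv, h⟩⟩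
      · simp only [id, filter_eq', pow_zero, one_mul]
        split_ifs with ha
        · simpa using hB a ha
        · simp
      · have := Nat.mul_le_mul_left d
          (Cluster.cnt_le h1 hG fun u v => u ∈ R ∧ v ∈ R ∧ id u ≠ id v)
        nlinarith
    | succ k ih =>
      obtain ⟨c, hc1, hc2, hc3⟩ := ih
      by_cases hd : d * cnt G (fun u v => u ∈ R ∧ v ∈ R ∧ c u ≠ c v) ≤ Fintype.card V
      · refine ⟨c, hc1, fun a => (hc2 a).trans ?_, Or.inl hd⟩
        exact Nat.mul_le_mul_right B (Nat.pow_le_pow_right (by omega) (by omega))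
      obtain ⟨c', k1, k2, k3⟩ := h2 V G hG R (252 * d) _ c hc1 hc2
      refine ⟨c', k1, fun a => (k2 a).trans (le_of_eq (by ring)), Or.inr ?_⟩
      have hv := Cluster.vol_le h1 hG R
      have h3 := hc3.resolve_left hd
      generalize cnt G (fun u v => u ∈ R ∧ v ∈ R ∧ c' u ≠ c' v) = X' at *
      generalize cnt G (fun u v => u ∈ R ∧ v ∈ R ∧ c u ≠ c v) = X at *
      have e1 : 28 * (252 * d) * X' = 7056 * (d * X') := by ring
      have e2 : 28 * (252 * d) * X = 7056 * (d * X) := by ring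
      have e3 : 252 * d * X = 252 * (d * X) := by ring
      have e4 : (k + 1) * Fintype.card V = k * Fintype.card V + Fintype.card V := by ring
      omega
  obtain ⟨c, hc1, hc2, hc3⟩ := key (448 * d)
  exact ⟨c, hc1, hc2, by omega⟩

theorem cs (h1 : SparseStmt) (h2 : ClusterStmt) : CSStmt := by
  intro d
  obtain ⟨C, hC⟩ := h2 (8 * (d + 1))
  obtain ⟨b, hb⟩ : ∃ b, b = 64000 * (d + 1) * (C + 1) := ⟨_, rfl⟩
  have hb0 : 0 < b := by
    rw [hb]
    positivity
  obtain ⟨L, hL⟩ : ∃ L, L = Cluster.gg b (8 * (16 * (d + 1))) := ⟨_, rfl⟩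
  refine ⟨10 * L, 16 * (d + 1) * (10 * L) ^ 2 + L + 2, fun V _ G hG hn => ?_⟩
  classical
  have hs := Cluster.sum_dg h1 hG
  obtain ⟨k, hk, hf⟩ := Cluster.scale G (Cluster.gg_mono hb0) (e := 16 * (d + 1)) (by omega) hs
  obtain ⟨v₀, v₁, hv⟩ := Fintype.exists_pair_of_one_lt_card (α := V) (by omega)
  have g1 : Cluster.gg b (k + 1) ≤ L :=
    (Cluster.gg_mono hb0 (Nat.succ_le_of_lt hk)).trans hL.ge
  have g2 : Cluster.gg b k ≤ L := (Cluster.gg_mono hb0 k.le_succ).trans g1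
  have g3 := Cluster.gg_pos hb0 k
  have g4 : Cluster.gg b (k + 1) = b * Cluster.gg b k ^ 3 := rfl
  have hH0 := Cluster.card_high G (g := Cluster.gg b k) (by omega) hs
  generalize Cluster.gg b (k + 1) = g' at *
  generalize Cluster.gg b k = g at *
  set n := Fintype.card V with hn'
  set S : Finset V := {v | g * dg G v ≤ n ∧ n < g' * dg G v} with hS
  set H : Finset V := (univ.filter fun v => n < g * dg G v) ∪ {v₀, v₁} with hH
  set R : Finset V := {v | v ∉ H ∧ v ∉ S} with hR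
  have hH1 : H.card ≤ 10 * g := by
    have k1 := card_union_le (univ.filter fun v => n < g * dg G v) {v₀, v₁}
    have k2 : ({v₀, v₁} : Finset V).card = 2 := card_pair hv
    rw [← hH] at k1
    omega
  have hH2 : 2 ≤ H.card := (card_pair hv).ge.trans (card_le_card subset_union_right)
  have hg' : 0 < g' := (Nat.mul_pos hb0 (pow_pos g3 3)).trans_eq g4.symm
  obtain ⟨c, hc1, hc2, hc3⟩ := hC V G hG R (n / g' + 1) fun v hv => by
    obtain ⟨-, k1, k2⟩ := mem_filter.1 hv
    have k3 : ¬ n < g * dg G v := fun h => k1 (mem_union_left _ (mem_filter.2 ⟨mem_univ _, h⟩))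
    have k4 : ¬ n < g' * dg G v := fun h => k2 (mem_filter.2 ⟨mem_univ _, not_lt.1 k3, h⟩)
    exact Nat.succ_le_succ ((Nat.le_div_iff_mul_le hg').2 (by rw [mul_comm]; exact not_lt.1 k4))
  obtain ⟨Bad, t, hBad, ht⟩ := Cluster.types hG hc1 (H := H)
    (fun h hh hr => (mem_filter.1 hr).2.1 hh) hH2
  have hB : g' * (n / g' + 1) ≤ 2 * n := by
    have := Nat.mul_div_le n g'
    rw [mul_add]
    omega
  generalize n / g' + 1 = B at *
  have hvol : 16 * (d + 1) * ∑ v ∈ R with c v ∈ Bad, (dg G v + 1) ≤ n := by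
    have k1 : ∑ v ∈ R with c v ∈ Bad, (dg G v + 1) ≤ Bad.card * (C * B) := by
      rw [← sum_fiberwise_eq_sum_filter, ← smul_eq_mul]
      exact sum_le_card_nsmul _ _ _ fun a _ => hc2 a
    have k2 : Bad.card ≤ 2 * (10 * g) ^ 3 := hBad.trans (by gcongr)
    have k3 : 2 * (16 * (d + 1) * ∑ v ∈ R with c v ∈ Bad, (dg G v + 1)) ≤ g' * B := by
      calc 2 * (16 * (d + 1) * ∑ v ∈ R with c v ∈ Bad, (dg G v + 1))
          ≤ 2 * (16 * (d + 1) * (2 * (10 * g) ^ 3 * ((C + 1) * B))) := by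
            gcongr
            exact k1.trans (by gcongr; omega)
        _ = g' * B := by
            rw [g4, hb]
            ring
    omega
  have hsm : (d + 1) * (C * B) ≤ n := by
    have k1 : 64000 * ((d + 1) * (C * B)) ≤ g' * B := by
      calc 64000 * ((d + 1) * (C * B)) = 64000 * (d + 1) * C * 1 * B := by ring
        _ ≤ 64000 * (d + 1) * (C + 1) * g ^ 3 * B := by
            gcongr
            · omega
            · exact Nat.one_le_pow _ _ g3
        _ = g' * B := by rw [g4, hb]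
    omega
  have hHH : 16 * (d + 1) * H.card ^ 2 ≤ n := by
    have k1 : 16 * (d + 1) * H.card ^ 2 ≤ 16 * (d + 1) * (10 * L) ^ 2 := by
      gcongr
      omega
    omega
  have hX : ∀ e, (d + 1) * e ≤ n → e ≤ n / (d + 1) := fun e he =>
    (Nat.le_div_iff_mul_le (by omega)).2 (by rwa [mul_comm])
  set BV : Finset V := {v ∈ R | c v ∈ Bad} with hBV
  set Y : Finset V := {v ∈ R | c v ∉ Bad} with hY
  have hcase : ∀ v, v ∈ S ∪ BV ∨ v ∈ H ∨ v ∈ Y := fun v => by
    by_cases k1 : v ∈ H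
    · exact Or.inr (Or.inl k1)
    by_cases k2 : v ∈ S
    · exact Or.inl (mem_union_left _ k2)
    have k3 : v ∈ R := mem_filter.2 ⟨mem_univ _, k1, k2⟩
    by_cases k4 : c v ∈ Bad
    · exact Or.inl (mem_union_right _ (mem_filter.2 ⟨k3, k4⟩))
    · exact Or.inr (Or.inr (mem_filter.2 ⟨k3, k4⟩))
  have hZ1 : (S ∪ BV).card ≤ ∑ v ∈ S, dg G v + ∑ v ∈ BV, (dg G v + 1) := by
    refine (card_union_le _ _).trans (add_le_add ?_ ?_)
    · rw [card_eq_sum_ones]
      refine sum_le_sum fun v hv => Nat.pos_of_ne_zero fun h0 => ?_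
      have := (mem_filter.1 hv).2.2
      rw [h0] at this
      omega
    · rw [card_eq_sum_ones]
      exact sum_le_sum fun v _ => by omega
  have hZ2 : ∑ v ∈ S ∪ BV, dg G v ≤ ∑ v ∈ S, dg G v + ∑ v ∈ BV, (dg G v + 1) := by
    have k1 := sum_union_inter (s₁ := S) (s₂ := BV) (f := dg G)
    have k2 : ∑ v ∈ BV, dg G v ≤ ∑ v ∈ BV, (dg G v + 1) := sum_le_sum fun v _ => by omega
    omega
  generalize ∑ v ∈ S, dg G v = f at *
  generalize ∑ v ∈ BV, (dg G v + 1) = vol at *
  refine ⟨H, Y, c, fun y => t (c y), n / (d + 1), ?_, by omega, ?_, ?_, ?_, ?_, ?_, ?_, ?_⟩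
  · exact (Nat.mul_le_mul_right _ d.le_succ).trans (Nat.mul_div_le n (d + 1))
  · exact fun y hy => (mem_filter.1 (mem_filter.1 hy).1).2.1
  · have k1 : n ≤ (S ∪ BV).card + H.card + Y.card := by
      refine le_trans (card_le_card (s := univ) (t := (S ∪ BV) ∪ H ∪ Y) fun v _ => ?_)
        ((card_union_le _ _).trans (Nat.add_le_add_right (card_union_le _ _) _))
      rcases hcase v with h | h | h
      · exact mem_union_left _ (mem_union_left _ h)
      · exact mem_union_left _ (mem_union_right _ h)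
      · exact mem_union_right _ h
    have k2 : H.card ≤ H.card ^ 2 := Nat.le_self_pow two_ne_zero _
    have k3 := hX (f + vol + H.card ^ 2) (by nlinarith)
    omega
  · exact fun y hy => (ht _ (mem_filter.1 hy).2).2.1
  · exact fun y hy => (ht _ (mem_filter.1 hy).2).1
  · exact fun u _ v _ h => by simp only [h]
  · intro a
    refine le_trans ?_ ((hc2 a).trans (hX _ hsm))
    rw [num_eq, card_eq_sum_ones]
    refine (sum_le_sum_of_subset (filter_subset_filter _ (filter_subset _ R))).trans ?_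
    exact sum_le_sum fun v _ => by omega
  · have k1 : cnt G (fun u v => ¬ ((u ∈ Y ∧ v ∈ Y ∧ c u = c v) ∨ (u ∈ Y ∧ v ∈ t (c u)) ∨
        (v ∈ Y ∧ u ∈ t (c v)))) ≤ cnt G fun u v => (u ∈ S ∪ BV ∨ v ∈ S ∪ BV) ∨
          ((u ∈ H ∧ v ∈ H) ∨ (u ∈ R ∧ v ∈ R ∧ c u ≠ c v)) := by
      refine cnt_mono fun u v huv hr => ?_
      rcases hcase u with hu | hu | hu
      · exact Or.inl (Or.inl hu)
      · rcases hcase v with hv | hv | hv
        · exact Or.inl (Or.inr hv)
        · exact Or.inr (Or.inl ⟨hu, hv⟩)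
        · exact absurd (Or.inr (Or.inr ⟨hv, (ht _ (mem_filter.1 hv).2).2.2 u hu
            ⟨v, (mem_filter.1 hv).1, rfl, huv.symm⟩⟩)) hr
      · rcases hcase v with hv | hv | hv
        · exact Or.inl (Or.inr hv)
        · exact absurd (Or.inr (Or.inl ⟨hu, (ht _ (mem_filter.1 hu).2).2.2 v hv
            ⟨u, (mem_filter.1 hu).1, rfl, huv⟩⟩)) hr
        · exact Or.inr (Or.inr ⟨(mem_filter.1 hu).1, (mem_filter.1 hv).1,
            fun h => hr (Or.inl ⟨hu, hv, h⟩)⟩)
    have k2 := cnt_or_le G (fun u v => u ∈ S ∪ BV ∨ v ∈ S ∪ BV)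
      fun u v => (u ∈ H ∧ v ∈ H) ∨ (u ∈ R ∧ v ∈ R ∧ c u ≠ c v)
    have k3 := cnt_or_le G (fun u _ => u ∈ S ∪ BV) fun _ v => v ∈ S ∪ BV
    have k4 := cnt_or_le G (fun u v => u ∈ H ∧ v ∈ H) fun u v => u ∈ R ∧ v ∈ R ∧ c u ≠ c v
    have k5 := cnt_left G (S ∪ BV)
    have k6 := cnt_swap G fun _ v => v ∈ S ∪ BV
    have k7 := Cluster.cnt_both G H
    generalize cnt G (fun u v => u ∈ R ∧ v ∈ R ∧ c u ≠ c v) = X at *
    have k8 := hX (2 * (f + vol) + H.card ^ 2 + X) (by nlinarith)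
    omega

end Pool.Agent.Lib.MP_453ac3_co.LB
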