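import Pool.Agent.Lib.MP_453ac3_co.Defs

namespace Pool.Agent.Lib.MP_453ac3_co.LB

open Finset

open Classical in
/-- number of elements of `S` with property `P` -/
noncomputable def num {α : Type} (S : Finset α) (P : α → Prop) : ℕ := (S.filter P).card

/-- number of ordered adjacent pairs with property `P` -/
noncomputable def cnt {V : Type} [Fintype V] (G : SimpleGraph V) (P : V → V → Prop) : ℕ :=
  num univ fun p : V × V => G.Adj p.1 p.2 ∧ P p.1 p.2

/-- degree -/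
noncomputable def dg {V : Type} [Fintype V] (G : SimpleGraph V) (v : V) : ℕ :=
  num univ fun w => G.Adj v w

def Touch {V : Type} (G : SimpleGraph V) (A B : Set V) : Prop := ∃ a ∈ A, ∃ b ∈ B, G.Adj a b

/-- cluster structure: hubs `H`, good vertices `Y`, cluster labels `c`, types `τ`, error `X` -/
structure CS {V : Type} [Fintype V] (G : SimpleGraph V) (H Y : Finset V) (c : V → V)
    (τ : V → Sym2 V) (X : ℕ) : Prop where
  disj : ∀ y ∈ Y, y ∉ H
  cover : Fintype.card V ≤ Y.card + X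
  hubs : ∀ y ∈ Y, ∀ a ∈ τ y, a ∈ H
  nd : ∀ y ∈ Y, ¬ (τ y).IsDiag
  same : ∀ u ∈ Y, ∀ v ∈ Y, c u = c v → τ u = τ v
  small : ∀ a, num Y (fun y => c y = a) ≤ X
  exc : cnt G (fun u v => ¬ ((u ∈ Y ∧ v ∈ Y ∧ c u = c v) ∨ (u ∈ Y ∧ v ∈ τ u) ∨
    (v ∈ Y ∧ u ∈ τ v))) ≤ X

/-- `u` is a vertex of an atom and `v` is one of its two hubs or the next vertex of the atom -/
def Reg {V ι : Type} (S : Finset ι) (m : ℕ) (A : ι → ℕ → V) (τ : ι → Sym2 V) (u v : V) : Prop :=
  ∃ i ∈ S, ∃ p < m, u = A i p ∧ (v ∈ τ i ∨ (p + 1 < m ∧ v = A i (p + 1)))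

/-- atom model: atoms `i ∈ S` with vertices `A i p`, `p < m`, types `τ i`, error `X` -/
structure MOD {V ι : Type} [Fintype V] (G : SimpleGraph V) (S : Finset ι) (m : ℕ)
    (A : ι → ℕ → V) (τ : ι → Sym2 V) (X : ℕ) : Prop where
  inj : ∀ i ∈ S, ∀ j ∈ S, ∀ p < m, ∀ q < m, A i p = A j q → i = j ∧ p = q
  nothub : ∀ i ∈ S, ∀ j ∈ S, ∀ p < m, A i p ∉ τ j
  nd : ∀ i ∈ S, ¬ (τ i).IsDiag
  adj : ∀ i ∈ S, ∀ p < m, ∀ a ∈ τ i, G.Adj (A i p) a
  cover : Fintype.card V ≤ S.card * m + X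
  exc : cnt G (fun u v => ¬ (Reg S m A τ u v ∨ Reg S m A τ v u)) ≤ X

open Classical in
/-- edge weights of the atom model for hub lengths `l` -/
noncomputable def wt {V ι : Type} [Fintype V] (S : Finset ι) (m : ℕ) (A : ι → ℕ → V)
    (τ : ι → Sym2 V) (l : ι → V → ℕ) (e : Sym2 V) : ℕ :=
  (if ∃ u v, e = s(u, v) ∧ ¬ (Reg S m A τ u v ∨ Reg S m A τ v u) then 24 else 0) +
    ∑ i ∈ S, ∑ p ∈ range m, ∑ a : V, if a ∈ τ i ∧ e = s(A i p, a) then l i a else 0

/-- bounded pseudo distance -/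
structure Met {W : Type} (ρ : W → W → ℕ) : Prop where
  refl : ∀ a, ρ a a = 0
  tri : ∀ a b c, ρ a c ≤ ρ a b + ρ b c
  bd : ∀ a b, ρ a b ≤ 8

/-- admissible lengths `l` for the type `lam`, of total at most `σ` -/
def Adm {W : Type} (ρ : W → W → ℕ) (lam : Sym2 W) (l : W → ℕ) (σ : ℕ) : Prop :=
  (∀ a, l a ≤ 8) ∧ ∀ a b, lam = s(a, b) → ρ a b ≤ l a + l b ∧ l a + l b ≤ σ

/-- the length inequality for pairs `(s j, t j)` and triples `u k` of atoms -/
def ML {W ι : Type} (S : Finset ι) (τ : ι → Sym2 W) (E : ℕ) : Prop :=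
  ∀ ρ : W → W → ℕ, Met ρ → ∀ (l : ι → W → ℕ) (σ : ι → ℕ), (∀ i ∈ S, Adm ρ (τ i) (l i) (σ i)) →
  ∀ (J K : Type) [Fintype J] [Fintype K] (f g : J → ι) (u : K × Fin 3 → ι) (cost : J → ℕ),
    Function.Injective (Sum.elim (Sum.elim f g) u) →
    (∀ j, f j ∈ S) → (∀ j, g j ∈ S) → (∀ k, u k ∈ S) →
    (∀ j, ∀ a ∈ τ (f j), ∀ b ∈ τ (g j), cost j ≤ l (f j) a + ρ a b + l (g j) b) →
    (∀ k r, τ (u (k, r)) = τ (u (k, 0)) ∧ (∀ a ∈ τ (u (k, r)), l (u (k, r)) a = 1) ∧
      ∀ a b, τ (u (k, r)) = s(a, b) → 2 ≤ ρ a b) →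
    32 * ∑ j, cost j + 97 * Fintype.card K ≤ 32 * ∑ i ∈ S, σ i + E

/-- the length inequality on the level of types: `x lam` atoms of type `lam`,
`z j` pairs of types `(f j, g j)`, `y lam` triples of type `lam` (allowed only if `T lam`) -/
def MLX {W : Type} [Fintype W] [DecidableEq W] (x : Sym2 W → ℕ) (T : Sym2 W → Prop) (E : ℕ) :
    Prop :=
  ∀ ρ : W → W → ℕ, Met ρ → ∀ σ : Sym2 W → ℕ, (∀ lam, 0 < x lam → ∃ l, Adm ρ lam l (σ lam)) →
  ∀ (J : Type) [Fintype J] (f g : J → Sym2 W) (z cost : J → ℕ) (y : Sym2 W → ℕ),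
    (∀ j, 0 < z j → ∃ l l', Adm ρ (f j) l (σ (f j)) ∧ Adm ρ (g j) l' (σ (g j)) ∧
      ∀ a ∈ f j, ∀ b ∈ g j, cost j ≤ l a + ρ a b + l' b) →
    (∀ lam, 0 < y lam → T lam ∧ 2 ≤ σ lam ∧ ∀ a b, lam = s(a, b) → ρ a b = 2) →
    (∀ lam, (∑ j, if f j = lam then z j else 0) + (∑ j, if g j = lam then z j else 0) +
      3 * y lam ≤ x lam) →
    32 * ∑ j, z j * cost j + 97 * ∑ lam, y lam ≤ 32 * ∑ lam, x lam * σ lam + E

/-- number of atoms whose type contains `u` -/
noncomputable def star {W ι : Type} (S : Finset ι) (τ : ι → Sym2 W) (u : W) : ℕ :=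
  num S fun i => u ∈ τ i

def NoK5 {W ι : Type} (S : Finset ι) (τ : ι → Sym2 W) : Prop :=
  ¬ ∃ f : Fin 5 → W, ∀ i j, i ≠ j → ∃ k ∈ S, τ k = s(f i, f j)

def NoK33 {W ι : Type} (S : Finset ι) (τ : ι → Sym2 W) : Prop :=
  ¬ ∃ f g : Fin 3 → W, Function.Injective f ∧ Function.Injective g ∧
    ∀ i j, ∃ k ∈ S, τ k = s(f i, g j)

/-- no diagonal types, at most 2500 types, stars and triangles at most `0.45 N`, `N` large -/
structure Spread {W : Type} [Fintype W] [DecidableEq W] (x : Sym2 W → ℕ) : Prop where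
  nd : ∀ a, x s(a, a) = 0
  few : num univ (fun lam => 0 < x lam) ≤ 2500
  star : ∀ u, 20 * (∑ lam, if u ∈ lam then x lam else 0) ≤ 9 * ∑ lam, x lam
  tri : ∀ a b c, a ≠ b → a ≠ c → b ≠ c →
    20 * (x s(a, b) + x s(a, c) + x s(b, c)) ≤ 9 * ∑ lam, x lam
  big : 100000 ≤ ∑ lam, x lam

theorem num_eq {α : Type} (S : Finset α) (P : α → Prop) [DecidablePred P] :
    num S P = (S.filter P).card := by
  unfold num
  congr 1
  ext a
  simp

theorem num_eq_sum {α : Type} (S : Finset α) (P : α → Prop) [DecidablePred P] :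
    num S P = ∑ a ∈ S, if P a then 1 else 0 := by
  rw [num_eq, Finset.card_filter]

theorem num_le_card {α : Type} (S : Finset α) (P : α → Prop) : num S P ≤ S.card := by
  classical
  rw [num_eq]
  exact card_filter_le _ _

theorem num_mono {α : Type} {S S' : Finset α} {P Q : α → Prop}
    (h : ∀ a ∈ S, P a → a ∈ S' ∧ Q a) : num S P ≤ num S' Q := by
  classical
  rw [num_eq, num_eq]
  apply card_le_card
  intro a ha
  rw [mem_filter] at ha ⊢
  exact h a ha.1 ha.2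

theorem num_congr {α : Type} {S : Finset α} {P Q : α → Prop} (h : ∀ a ∈ S, P a ↔ Q a) :
    num S P = num S Q :=
  le_antisymm (num_mono fun a ha hp => ⟨ha, (h a ha).1 hp⟩)
    (num_mono fun a ha hp => ⟨ha, (h a ha).2 hp⟩)

theorem num_or_le {α : Type} (S : Finset α) (P Q : α → Prop) :
    num S (fun a => P a ∨ Q a) ≤ num S P + num S Q := by
  classical
  rw [num_eq, num_eq, num_eq, filter_or]
  exact card_union_le _ _

theorem num_add_not {α : Type} (S : Finset α) (P : α → Prop) :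
    num S P + num S (fun a => ¬ P a) = S.card := by
  classical
  rw [num_eq, num_eq]
  exact card_filter_add_card_filter_not _

theorem num_split {α : Type} (S : Finset α) (P Q : α → Prop) :
    num S P = num S (fun a => P a ∧ Q a) + num S (fun a => P a ∧ ¬ Q a) := by
  classical
  rw [num_eq, num_eq, num_eq, ← filter_filter, ← filter_filter]
  exact (card_filter_add_card_filter_not _).symm

theorem num_le_of_injOn {α β : Type} {S : Finset α} {S' : Finset β} {P : α → Prop} {Q : β → Prop}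
    (f : α → β) (h : ∀ a ∈ S, P a → f a ∈ S' ∧ Q (f a))
    (hf : ∀ a ∈ S, P a → ∀ b ∈ S, P b → f a = f b → a = b) : num S P ≤ num S' Q := by
  classical
  rw [num_eq, num_eq]
  apply card_le_card_of_injOn f
  · intro a ha
    rw [mem_coe, mem_filter] at ha
    rw [mem_coe, mem_filter]
    exact h a ha.1 ha.2
  · intro a ha b hb hab
    rw [mem_coe, mem_filter] at ha hb
    exact hf a ha.1 ha.2 b hb.1 hb.2 hab

theorem num_pos {α : Type} {S : Finset α} {P : α → Prop} : 0 < num S P ↔ ∃ a ∈ S, P a := by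
  classical
  rw [num_eq, card_pos]
  constructor
  · rintro ⟨a, ha⟩
    exact ⟨a, (mem_filter.1 ha).1, (mem_filter.1 ha).2⟩
  · rintro ⟨a, ha, hp⟩
    exact ⟨a, mem_filter.2 ⟨ha, hp⟩⟩

theorem cnt_eq_sum {V : Type} [Fintype V] (G : SimpleGraph V) (P : V → V → Prop) :
    cnt G P = ∑ u, num univ fun v => G.Adj u v ∧ P u v := by
  classical
  unfold cnt
  rw [num_eq_sum, Fintype.sum_prod_type]
  exact sum_congr rfl fun u _ => (num_eq_sum _ _).symm

theorem cnt_swap {V : Type} [Fintype V] (G : SimpleGraph V) (P : V → V → Prop) :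
    cnt G P = cnt G fun u v => P v u := by
  apply le_antisymm <;>
  · apply num_le_of_injOn Prod.swap
    · intro a _ ha
      exact ⟨mem_univ _, ha.1.symm, ha.2⟩
    · intro a _ _ b _ _ h
      exact Prod.swap_injective h

theorem cnt_mono {V : Type} [Fintype V] {G : SimpleGraph V} {P Q : V → V → Prop}
    (h : ∀ u v, G.Adj u v → P u v → Q u v) : cnt G P ≤ cnt G Q :=
  num_mono fun a ha hp => ⟨ha, hp.1, h _ _ hp.1 hp.2⟩

theorem cnt_or_le {V : Type} [Fintype V] (G : SimpleGraph V) (P Q : V → V → Prop) :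
    cnt G (fun u v => P u v ∨ Q u v) ≤ cnt G P + cnt G Q := by
  refine le_trans (num_mono ?_) (num_or_le univ _ _)
  intro a ha hp
  exact ⟨ha, hp.2.imp (fun h => ⟨hp.1, h⟩) fun h => ⟨hp.1, h⟩⟩

theorem cnt_left {V : Type} [Fintype V] (G : SimpleGraph V) (Z : Finset V) :
    cnt G (fun u _ => u ∈ Z) = ∑ u ∈ Z, dg G u := by
  classical
  rw [cnt_eq_sum, ← sum_subset (subset_univ Z)]
  · exact sum_congr rfl fun u hu => num_congr fun v _ => by simp [hu]
  · intro u _ hu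
    rw [num_eq]
    simp [hu]

theorem dg_eq_ncard {V : Type} [Fintype V] (G : SimpleGraph V) (v : V) :
    dg G v = (G.neighborSet v).ncard := by
  classical
  unfold dg
  rw [num_eq, ← Set.ncard_coe_finset]
  congr 1
  ext w
  simp

end Pool.Agent.Lib.MP_453ac3_co.LB
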