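import Pool.Agent.Lib.MP_453ac3_co.LB.St

/-!
Few hubs carry almost all atoms; a gap in the class sizes; pairing different groups.
-/

namespace Pool.Agent.Lib.MP_453ac3_co.LB

open Finset

namespace Few

theorem sum_star {W ι : Type} (S : Finset ι) (A : Finset W) (τ : ι → Sym2 W) :
    ∑ u ∈ A, star S τ u ≤ 2 * S.card := by
  classical
  unfold star
  simp only [num_eq_sum]
  rw [sum_comm, mul_comm, ← smul_eq_mul, ← sum_const]
  refine sum_le_sum fun y _ => ?_
  rw [← card_filter]
  induction τ y using Sym2.ind with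
  | _ a b =>
    refine le_trans (card_le_card (t := {a, b}) fun u hu => ?_) card_le_two
    simpa using (mem_filter.1 hu).2

theorem card_meet {W ι : Type} (S : Finset ι) (A : Finset W) (τ : ι → Sym2 W) :
    num S (fun y => ∃ u ∈ A, u ∈ τ y) ≤ ∑ u ∈ A, star S τ u := by
  classical
  induction A using Finset.induction_on with
  | empty =>
    rw [num_eq]
    simp
  | insert a T ha ih =>
    rw [sum_insert ha]
    refine le_trans (num_mono (S' := S) (Q := fun y => a ∈ τ y ∨ ∃ u ∈ T, u ∈ τ y) ?_)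
      ((num_or_le _ _ _).trans (Nat.add_le_add_left ih _))
    intro y hy h
    exact ⟨hy, by simpa using h⟩

theorem small (h1 : ACutStmt) {W ι : Type} {S : Finset ι} {τ : ι → Sym2 W} {E : ℕ}
    (hM : ML S τ E) (hE : 10 * E ≤ S.card) (hN : 1000 ≤ S.card) (A B : Finset W)
    (hA : ∑ u ∈ A, star S τ u ≤ 9 * S.card / 20) (hB : ∑ u ∈ B, star S τ u ≤ S.card / 25) :
    num S (fun i => ∃ a ∈ A, ∃ b ∈ B, τ i = s(a, b)) ≤ E / 32 := by
  have a1 := h1 W ι S τ E (fun u => u ∈ A ∨ u ∈ B) hM
  have a2 : num S (fun i => ∃ a ∈ A, ∃ b ∈ B, τ i = s(a, b)) ≤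
      num S fun i => ∀ a ∈ τ i, a ∈ A ∨ a ∈ B := by
    refine num_mono ?_
    rintro i hi ⟨a, ha, b, hb, e⟩
    refine ⟨hi, fun c hc => ?_⟩
    rw [e, Sym2.mem_iff] at hc
    rcases hc with rfl | rfl
    exacts [Or.inl ha, Or.inr hb]
  have a3 := num_add_not S fun i => ∀ a ∈ τ i, ¬ (a ∈ A ∨ a ∈ B)
  have a4 : num S (fun i => ¬ ∀ a ∈ τ i, ¬ (a ∈ A ∨ a ∈ B)) ≤
      num S (fun i => ∃ u ∈ A, u ∈ τ i) + num S fun i => ∃ u ∈ B, u ∈ τ i := by
    refine le_trans (num_mono fun i hi h => ⟨hi, ?_⟩) (num_or_le _ _ _)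
    by_contra hc
    rw [not_or] at hc
    exact h fun a ha hab => hab.elim (fun h => hc.1 ⟨a, h, ha⟩) fun h => hc.2 ⟨a, h, ha⟩
  have a5 := card_meet S A τ
  have a6 := card_meet S B τ
  omega

end Few

theorem few (h1 : ACutStmt) (h2 : GroupStmt) : FewStmt := by
  classical
  intro W ι _ S τ E hM hs hE hN
  set L := univ.filter fun u => S.card / 25 < star S τ u with hL
  refine ⟨L, ?_, ?_⟩
  · have a1 := Few.sum_star S L τ
    have a2 : L.card * (S.card / 25 + 1) ≤ ∑ u ∈ L, star S τ u :=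
      card_nsmul_le_sum L (star S τ) (S.card / 25 + 1) fun u hu => (mem_filter.1 hu).2
    by_contra hc
    have a3 : 51 * (S.card / 25 + 1) ≤ L.card * (S.card / 25 + 1) :=
      Nat.mul_le_mul_right _ (by omega)
    omega
  have b1 : ∀ B : Finset W, ∑ u ∈ B, star S τ u ≤ S.card / 25 →
      num S (fun i => ∃ a ∈ (univ : Finset W), ∃ b ∈ B, τ i = s(a, b)) ≤ 10 * (E / 32) := by
    intro B hB
    have c1 := h2 W (star S τ) (fun A => num S fun i => ∃ a ∈ A, ∃ b ∈ B, τ i = s(a, b))
      (9 * S.card / 20) (E / 32) univ (fun u _ => by have := hs u; omega)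
      (fun A A' => le_trans (num_mono fun y hy h => ⟨hy, by
        obtain ⟨u, hu, h⟩ := h
        exact (mem_union.1 hu).imp (fun hu => ⟨u, hu, h⟩) fun hu => ⟨u, hu, h⟩⟩) (num_or_le _ _ _))
      fun A _ hA => Few.small h1 hM hE hN A B hA hB
    have c2 := Few.sum_star S univ τ
    have c3 : (2 * ∑ u ∈ univ, star S τ u + 9 * S.card / 20) * (E / 32) ≤
        9 * S.card / 20 * (10 * (E / 32)) := by
      rw [← mul_assoc]
      exact Nat.mul_le_mul_right _ (by omega)
    exact Nat.le_of_mul_le_mul_left (c1.trans c3) (by omega)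
  have b2 := h2 W (star S τ)
    (fun B => num S fun i => ∃ a ∈ (univ : Finset W), ∃ b ∈ B, τ i = s(a, b))
    (S.card / 25) (10 * (E / 32)) Lᶜ
    (fun u hu => by
      by_contra hc
      exact mem_compl.1 hu (mem_filter.2 ⟨mem_univ _, by omega⟩))
    (fun A A' => le_trans (num_mono fun y hy h => ⟨hy, by
      obtain ⟨a, ha, u, hu, h⟩ := h
      exact (mem_union.1 hu).imp (fun hu => ⟨a, ha, u, hu, h⟩) fun hu => ⟨a, ha, u, hu, h⟩⟩)
      (num_or_le _ _ _))
    fun B _ hB => b1 B hB
  have b3 := Few.sum_star S Lᶜ τ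
  have b4 : (2 * ∑ u ∈ Lᶜ, star S τ u + S.card / 25) * (10 * (E / 32)) ≤
      S.card / 25 * (105 * (10 * (E / 32))) := by
    rw [← mul_assoc (S.card / 25)]
    exact Nat.mul_le_mul_right _ (by omega)
  have b5 := Nat.le_of_mul_le_mul_left (b2.trans b4) (by omega)
  refine le_trans (le_trans (num_mono ?_) b5) (by omega)
  rintro i hi ⟨a, ha, haL⟩
  exact ⟨hi, Sym2.Mem.other ha, mem_univ _, a, mem_compl.2 haL, by
    rw [Sym2.eq_swap, Sym2.other_spec ha]⟩

theorem gap : GapStmt := by
  intro α T x q N hq hT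
  by_contra hc
  have h : ∀ k : Fin 2501, ∃ a ∈ T, q ^ (k.1 + 1) * x a < N ∧ N ≤ q ^ (k.1 + 2) * x a := by
    intro k
    by_contra hk
    refine hc ⟨k, by omega, fun a ha => ?_⟩
    by_contra h'
    exact hk ⟨a, ha, by omega, by omega⟩
  choose f hf h1 h2 using h
  have lt : ∀ k k' : Fin 2501, f k = f k' → ¬ k < k' := by
    intro k k' e hk
    have a1 := h1 k'
    have a2 := h2 k
    rw [e] at a2
    have a3 : q ^ (k.1 + 2) * x (f k') ≤ q ^ (k'.1 + 1) * x (f k') :=
      Nat.mul_le_mul_right _ (Nat.pow_le_pow_right hq (by omega))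
    omega
  have := card_le_card_of_injOn (s := univ) (t := T) f (fun k _ => hf k) fun k _ k' _ e =>
    le_antisymm (not_lt.1 (lt k' k e.symm)) (not_lt.1 (lt k k' e))
  rw [card_univ, Fintype.card_fin] at this
  omega

theorem multi : MultiStmt := by
  classical
  intro Λ _ r hr
  induction hn : ∑ a, r a using Nat.strong_induction_on generalizing r with
  | _ n ih =>
    by_cases h1 : n ≤ 1
    · exact ⟨fun _ _ => 0, fun a => by simp, fun _ => rfl, by omega⟩
    obtain ⟨a, -, ha⟩ : ∃ a ∈ (univ : Finset Λ), r a ≠ 0 :=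
      exists_ne_zero_of_sum_ne_zero (by omega)
    have e1 := add_sum_erase univ r (mem_univ a)
    have hra := hr a
    obtain ⟨b₀, hb₀, hb₀'⟩ : ∃ b ∈ univ.erase a, r b ≠ 0 :=
      exists_ne_zero_of_sum_ne_zero (by omega)
    obtain ⟨b, hb, hmax⟩ := exists_max_image (univ.erase a) r ⟨b₀, hb₀⟩
    have hb1 := hmax b₀ hb₀
    have hab : b ≠ a := ne_of_mem_erase hb
    set r' : Λ → ℕ := fun c => r c - ((if c = a then 1 else 0) + if c = b then 1 else 0) with hr'
    have e2 : ∀ c, r' c + ((if c = a then 1 else 0) + if c = b then 1 else 0) = r c := by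
      intro c
      refine Nat.sub_add_cancel ?_
      split_ifs with h h' h'
      · exact absurd (h'.symm.trans h) hab
      · subst h
        omega
      · subst h'
        omega
      · omega
    have e3 : ∑ c, r' c + 2 = n := by
      rw [← hn, ← sum_congr rfl fun c _ => e2 c, sum_add_distrib, sum_add_distrib]
      simp
    obtain ⟨z, z1, z2, z3⟩ := ih _ (by omega) r' (fun c => by
      have c1 := e2 c
      have c2 := hr c
      by_cases h : c = a
      · rw [if_pos h] at c1
        omega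
      by_cases h' : c = b
      · rw [if_pos h'] at c1
        omega
      have c3 := hmax c (mem_erase.2 ⟨h, mem_univ _⟩)
      have c4 := add_sum_erase _ r hb
      have c5 := single_le_sum (f := r) (fun _ _ => Nat.zero_le _)
        (mem_erase.2 ⟨h', mem_erase.2 ⟨h, mem_univ c⟩⟩)
      omega) rfl
    refine ⟨fun u v => z u v + if u = a ∧ v = b then 1 else 0, fun c => ?_, fun c => ?_, ?_⟩
    · have c1 := z1 c
      have c2 := e2 c
      have c3 : ∑ v, (if c = a ∧ v = b then 1 else 0) = if c = a then 1 else 0 := by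
        by_cases h : c = a <;> simp [h]
      have c4 : ∑ u, (if u = a ∧ c = b then 1 else 0) = if c = b then 1 else 0 := by
        by_cases h : c = b <;> simp [h]
      rw [sum_add_distrib, sum_add_distrib, c3, c4]
      omega
    · beta_reduce
      rw [z2, if_neg fun h => hab (h.2.symm.trans h.1)]
    · have c3 : ∑ u, ∑ v, (if u = a ∧ v = b then 1 else 0) = 1 := by
        simp [ite_and]
      simp only [sum_add_distrib, c3]
      omega

end Pool.Agent.Lib.MP_453ac3_co.LB
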