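import Pool.Agent.Lib.MP_453ac3_co.LB.St

namespace Pool.Agent.Lib.MP_453ac3_co.LB

open Finset

namespace Fin0

theorem arith {n N X K Q q m' X' E : ℕ} (hq : 1000000 ≤ q) (hQ : q ≤ Q) (hm : m' = 200 * Q)
    (hX : 2100000 * Q * X ≤ n) (hn : 4 * (32 * m') * (51200 * K ^ 2 * Q + 4 * Q) ≤ n)
    (hX' : X' = X + 16 * (10 * X + K ^ 2 * (32 * m')) + 2 * N) (hc : n ≤ N * (32 * m') + X')
    (hE : E = 25 * X' / m' + 1) :
    25 * X' ≤ m' * E ∧ Q ≤ N ∧ E * Q ≤ N ∧ q * n ≤ (q + 1) * (N * (32 * m')) + 2 * n := by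
  have hm0 : 0 < m' := by omega
  have a1 : 25 * X' ≤ m' * E := hE ▸ (Nat.lt_mul_div_succ _ hm0).le
  have a2 : m' * E ≤ 25 * X' + m' := by
    rw [hE, mul_add, mul_one]
    exact Nat.add_le_add_right (Nat.mul_div_le _ _) _
  generalize K ^ 2 = K2 at *
  have b1 : X ≤ Q * X := Nat.le_mul_of_pos_left _ (by omega)
  have b2 : K2 * m' ≤ K2 * m' * Q := Nat.le_mul_of_pos_right _ (by omega)
  have b3 : N ≤ N * m' := Nat.le_mul_of_pos_right _ hm0
  have b4 : n ≤ 128 * (N * m') := by nlinarith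
  have b5 : 51200 * K2 * Q + 4 * Q ≤ N := by
    apply Nat.le_of_mul_le_mul_left _ (show 0 < 128 * m' by omega)
    nlinarith
  refine ⟨a1, by omega, ?_, ?_⟩
  · apply Nat.le_of_mul_le_mul_left _ hm0
    have c1 := Nat.mul_le_mul_right Q a2
    have c2 := Nat.mul_le_mul_left m' b5
    have c3 : m' * N = 200 * (Q * N) := by rw [hm]; ring
    nlinarith
  · have c1 := Nat.mul_le_mul_left q hc
    have c2 := Nat.mul_le_mul_right X hQ
    have c3 := Nat.mul_le_mul_left (K2 * m') hQ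
    have c4 := Nat.mul_le_mul_left N (show q ≤ m' by omega)
    nlinarith

theorem real {n P D q δ : ℝ} (hq : 1000000 ≤ q) (hδ : 2000 ≤ δ * q) (hn : 0 ≤ n)
    (h1 : 4 * q * P ≤ 9 * q * D + 10000 * P) (h2 : q * n ≤ (q + 1) * P + 2 * n) :
    (4 / 9 - δ) * n ≤ D := by
  have a1 := mul_le_mul_of_nonneg_left h1 (show 0 ≤ q + 1 by linarith)
  have a2 := mul_le_mul_of_nonneg_left h2 (show 0 ≤ 4 * q - 10000 by linarith)
  have a3 := mul_le_mul_of_nonneg_right hδ (show 0 ≤ (q + 1) * n by positivity)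
  have a4 : 0 ≤ q * n := by positivity
  apply le_of_mul_le_mul_left _ (show 0 < 9 * q * (q + 1) by positivity)
  nlinarith

end Fin0

theorem lb (hCS : CSStmt) (hL : LightStmt) (hH : HeavyStmt) (hM : ModStmt) (hML : MLStmt)
    (hG : GammaStmt) (hA : AMStmt) : LBStmt := by
  intro δ hδ
  obtain ⟨q, hq, hqδ⟩ : ∃ q : ℕ, 1000000 ≤ q ∧ 2000 ≤ δ * q := by
    obtain ⟨k, hk⟩ := exists_nat_ge (2000 / δ)
    refine ⟨k + 1000000, by omega, ?_⟩
    rw [div_le_iff₀ hδ] at hk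
    push_cast
    nlinarith
  have hA' := fun W ι (_ : Fintype W) S τ E Δ => hA W ι S τ E Δ q
  have hQ : q ≤ q ^ 2504 := Nat.le_self_pow (by omega) q
  generalize q ^ 2504 = Q at hA' hQ
  obtain ⟨m', hm⟩ : ∃ m', m' = 200 * Q := ⟨_, rfl⟩
  obtain ⟨K, n0, h0⟩ := hCS (2100000 * Q)
  refine ⟨n0 + 1000 + 4 * (32 * m') * (51200 * K ^ 2 * Q + 4 * Q), fun V _ G hn hp hpp => ?_⟩
  classical
  have : Nonempty V := Fintype.card_pos_iff.1 (by omega)
  obtain ⟨v, -, hv⟩ := exists_max_image univ (dg G) univ_nonempty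
  refine ⟨v, ?_⟩
  rw [← dg_eq_ncard]
  by_cases hD : 4 * Fintype.card V ≤ 9 * dg G v
  · have h1 : (4 : ℝ) * Fintype.card V ≤ 9 * dg G v := by exact_mod_cast hD
    have h2 : (0 : ℝ) ≤ δ * Fintype.card V := by positivity
    linarith
  obtain ⟨H, Y, c, τ, X, hX, hK, hcs⟩ := h0 V G hp (by omega)
  have hX1 : 1000 * X ≤ Fintype.card V :=
    le_trans (Nat.mul_le_mul_right _ (by omega)) hX
  have hl := hL V G H Y c τ X hpp hcs hX1 (by omega)
  have hh := hH V G H Y c τ X hpp hcs hX1 (by omega) fun w => by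
    have := hv w (mem_univ _)
    omega
  have hdef : num Y (fun y => ∃ v ∈ τ y, ¬ G.Adj y v) ≤ 10 * X := by
    refine le_trans (num_mono fun y hy h => ⟨hy, ?_⟩) hl
    obtain ⟨w, hw, h⟩ := h
    exact ⟨Sym2.Mem.other hw, w, (Sym2.other_spec hw).symm.trans Sym2.eq_swap, h, hh _⟩
  obtain ⟨S, A, hmod⟩ := hM V G H Y c τ X (10 * X) K (32 * m') hp hcs hK hdef (by omega)
  obtain ⟨b1, b2, b3, b4⟩ := Fin0.arith hq hQ hm hX (by omega) rfl hmod.cover rfl
  obtain ⟨g1, g2, g3⟩ := hG V _ G S _ A _ _ hp hmod (by omega)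
  have h3 := hA' V _ inferInstance S Prod.fst _ (dg G v / (32 * m'))
    (hML V _ G S m' A _ _ _ hpp hmod (by omega) b1) hmod.nd g1 g2
    (fun u => (Nat.le_div_iff_mul_le (by omega)).2
      (by rw [mul_comm]; exact (g3 u).trans (hv u (mem_univ _)))) hq b2 b3
  have h4 : 4 * q * (S.card * (32 * m')) ≤ 9 * q * dg G v + 10000 * (S.card * (32 * m')) := by
    have e1 := Nat.mul_le_mul_right (32 * m') h3
    have e2 := Nat.mul_le_mul_left (9 * q) (Nat.div_mul_le_self (dg G v) (32 * m'))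
    generalize dg G v / (32 * m') = t at e1 e2
    nlinarith
  generalize S.card * (32 * m') = P at h4 b4
  exact Fin0.real (P := P) (q := q) (by exact_mod_cast hq) hqδ (by positivity)
    (by exact_mod_cast h4) (by exact_mod_cast b4)

end Pool.Agent.Lib.MP_453ac3_co.LB
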