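import Pool.Agent.Lib.MP_453ac3_co.LB.St

/-!
Pairing of disjoint types by the marriage theorem.
-/

namespace Pool.Agent.Lib.MP_453ac3_co.LB

open Finset

namespace Hall

variable {W : Type} [Fintype W] [DecidableEq W]

omit [DecidableEq W] in
theorem card_type (h : Sym2 W → ℕ) (P : Sym2 W → Prop) [DecidablePred P] :
    (univ.filter fun i : (Σ lam, Fin (h lam)) => P i.1).card =
      ∑ lam, if P lam then h lam else 0 := by
  rw [card_filter, Fintype.sum_sigma]
  refine sum_congr rfl fun lam _ => ?_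
  split_ifs <;> simp

theorem card_eq (h : Sym2 W → ℕ) (mu : Sym2 W) :
    (univ.filter fun i : (Σ lam, Fin (h lam)) => i.1 = mu).card = h mu := by
  rw [card_type h fun lam => lam = mu]
  simp

omit [Fintype W] [DecidableEq W] in
theorem eq_of_mem {lam : Sym2 W} {a b : W} (hab : a ≠ b) (ha : a ∈ lam) (hb : b ∈ lam) :
    lam = s(a, b) := (Sym2.mem_and_mem_iff hab).1 ⟨ha, hb⟩

omit [Fintype W] [DecidableEq W] in
theorem meet_iff {a b : W} {mu : Sym2 W} : (¬∀ u ∈ s(a, b), u ∉ mu) ↔ a ∈ mu ∨ b ∈ mu := by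
  simp only [Sym2.mem_iff, forall_eq_or_imp, forall_eq]
  tauto

/-- an intersecting family has many disjoint partners -/
theorem inter (h : Sym2 W → ℕ) (h0 : ∀ a, h s(a, a) = 0)
    (hs : ∀ u, 2 * (∑ lam, if u ∈ lam then h lam else 0) ≤ ∑ lam, h lam)
    (ht : ∀ a b c, a ≠ b → a ≠ c → b ≠ c →
      2 * (h s(a, b) + h s(a, c) + h s(b, c)) ≤ ∑ lam, h lam)
    (I J : Finset (Σ lam, Fin (h lam))) (hIJ : I ⊆ J) (hI : I.Nonempty)
    (hJ : ∀ j ∈ J, ∀ i ∈ I, ¬∀ u ∈ i.1, u ∉ j.1) : I.card + J.card ≤ ∑ lam, h lam := by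
  have nd : ∀ (i : Σ lam, Fin (h lam)) (a b : W), i.1 = s(a, b) → a ≠ b := by
    rintro ⟨lam, k⟩ a b (rfl : lam = _) rfl
    exact Nat.not_lt_zero _ (lt_of_lt_of_eq k.2 (h0 a))
  have st : ∀ u, 2 * (univ.filter fun i : (Σ lam, Fin (h lam)) => u ∈ i.1).card ≤
      ∑ lam, h lam := fun u => by
    rw [card_type h fun lam => u ∈ lam]
    exact hs u
  have hle := card_le_card hIJ
  obtain ⟨i₀, hi₀⟩ := hI
  by_cases h1 : ∀ i ∈ I, i.1 = i₀.1
  · obtain ⟨a, b, hab⟩ : ∃ a b, i₀.1 = s(a, b) := Sym2.ind (fun a b => ⟨a, b, rfl⟩) i₀.1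
    have e := card_union_add_card_inter (univ.filter fun i : (Σ lam, Fin (h lam)) => a ∈ i.1)
      (univ.filter fun i : (Σ lam, Fin (h lam)) => b ∈ i.1)
    have e1 : J ⊆ (univ.filter fun i : (Σ lam, Fin (h lam)) => a ∈ i.1) ∪
        (univ.filter fun i : (Σ lam, Fin (h lam)) => b ∈ i.1) := by
      intro j hj
      have := hJ j hj i₀ hi₀
      rw [hab, meet_iff] at this
      simpa using this
    have e2 : I ⊆ (univ.filter fun i : (Σ lam, Fin (h lam)) => a ∈ i.1) ∩
        (univ.filter fun i : (Σ lam, Fin (h lam)) => b ∈ i.1) := by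
      intro i hi
      simp [h1 i hi, hab]
    have := card_le_card e1
    have := card_le_card e2
    have := st a
    have := st b
    omega
  · push Not at h1
    obtain ⟨i₁, hi₁, hne⟩ := h1
    have h2 := hJ i₁ (hIJ hi₁) i₀ hi₀
    push Not at h2
    obtain ⟨a, ha0, ha1⟩ := h2
    obtain ⟨b, hb⟩ := Sym2.mem_iff_exists.1 ha0
    obtain ⟨c, hc⟩ := Sym2.mem_iff_exists.1 ha1
    have hab := nd i₀ a b hb
    have hac := nd i₁ a c hc
    have hbc : b ≠ c := by
      rintro rfl
      exact hne (hc.trans hb.symm)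
    have h3 : ∀ j ∈ J, a ∈ j.1 ∨ j.1 = s(b, c) := by
      intro j hj
      have e1 := hJ j hj i₀ hi₀
      have e2 := hJ j hj i₁ hi₁
      rw [hb, meet_iff] at e1
      rw [hc, meet_iff] at e2
      by_cases e3 : a ∈ j.1
      · exact Or.inl e3
      · exact Or.inr (eq_of_mem hbc (e1.resolve_left e3) (e2.resolve_left e3))
    have t := ht a b c hab hac hbc
    rw [← card_eq h s(a, b), ← card_eq h s(a, c), ← card_eq h s(b, c)] at t
    have sa := st a
    by_cases h4 : ∃ i ∈ I, i.1 = s(b, c)
    · obtain ⟨i₂, hi₂, h4⟩ := h4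
      have e1 : J ⊆ ((univ.filter fun i : (Σ lam, Fin (h lam)) => i.1 = s(a, b)) ∪
          (univ.filter fun i : (Σ lam, Fin (h lam)) => i.1 = s(a, c))) ∪
          (univ.filter fun i : (Σ lam, Fin (h lam)) => i.1 = s(b, c)) := by
        intro j hj
        simp only [mem_union, mem_filter, mem_univ, true_and]
        rcases h3 j hj with e2 | e2
        · have e3 := hJ j hj i₂ hi₂
          rw [h4, meet_iff] at e3
          exact Or.inl (e3.imp (eq_of_mem hab e2) (eq_of_mem hac e2))
        · exact Or.inr e2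
      have := (card_le_card e1).trans ((card_union_le _ _).trans
        (Nat.add_le_add_right (card_union_le _ _) _))
      omega
    · push Not at h4
      by_cases h5 : ∀ i ∈ I, i.1 = s(a, b) ∨ i.1 = s(a, c)
      · have e1 : I ⊆ (univ.filter fun i : (Σ lam, Fin (h lam)) => i.1 = s(a, b)) ∪
            (univ.filter fun i : (Σ lam, Fin (h lam)) => i.1 = s(a, c)) := by
          intro i hi
          simpa using h5 i hi
        have e2 : J ⊆ (univ.filter fun i : (Σ lam, Fin (h lam)) => a ∈ i.1) ∪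
            (univ.filter fun i : (Σ lam, Fin (h lam)) => i.1 = s(b, c)) := by
          intro j hj
          simpa using h3 j hj
        have := (card_le_card e1).trans (card_union_le _ _)
        have := (card_le_card e2).trans (card_union_le _ _)
        omega
      · push Not at h5
        obtain ⟨i₂, hi₂, h5, h6⟩ := h5
        have h7 : a ∈ i₂.1 := (h3 i₂ (hIJ hi₂)).resolve_right (h4 i₂ hi₂)
        have e1 : J ⊆ univ.filter fun i : (Σ lam, Fin (h lam)) => a ∈ i.1 := by
          intro j hj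
          refine mem_filter.2 ⟨mem_univ _, (h3 j hj).resolve_right fun e2 => ?_⟩
          refine hJ j hj i₂ hi₂ fun u hu hu' => ?_
          rw [e2, Sym2.mem_iff] at hu'
          rcases hu' with rfl | rfl
          · exact h5 (eq_of_mem hab h7 hu)
          · exact h6 (eq_of_mem hac h7 hu)
        have := card_le_card e1
        omega

end Hall

theorem hall : HallStmt := by
  intro W _ _ h h0 hs ht
  classical
  have key : ∀ A : Finset (Σ lam, Fin (h lam)),
      A.card ≤ (univ.filter fun j : (Σ lam, Fin (h lam)) =>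
        ∃ i ∈ A, ∀ u ∈ i.1, u ∉ j.1).card := by
    intro A
    set N := univ.filter fun j : (Σ lam, Fin (h lam)) => ∃ i ∈ A, ∀ u ∈ i.1, u ∉ j.1 with hN
    set M := univ.filter fun j : (Σ lam, Fin (h lam)) => ∃ i ∈ A \ N, ∀ u ∈ i.1, u ∉ j.1 with hM
    have e1 : M ⊆ N \ A := by
      intro j hj
      obtain ⟨i, hi, hij⟩ := (mem_filter.1 hj).2
      refine mem_sdiff.2 ⟨mem_filter.2 ⟨mem_univ _, i, (mem_sdiff.1 hi).1, hij⟩, fun hjA => ?_⟩
      exact (mem_sdiff.1 hi).2 (mem_filter.2 ⟨mem_univ _, j, hjA, fun u hu hu' => hij u hu' hu⟩)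
    have e2 : (A \ N).card ≤ M.card := by
      rcases (A \ N).eq_empty_or_nonempty with e | e
      · rw [e, card_empty]
        exact Nat.zero_le _
      · have e3 := Hall.inter h h0 hs ht (A \ N) Mᶜ (fun i hi => mem_compl.2 fun hi' =>
          (mem_sdiff.1 (e1 hi')).2 (mem_sdiff.1 hi).1) e fun j hj i hi hij =>
            mem_compl.1 hj (mem_filter.2 ⟨mem_univ _, i, hi, hij⟩)
        have e4 := card_add_card_compl M
        rw [Fintype.card_sigma] at e4
        simp only [Fintype.card_fin] at e4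
        omega
    have e3 := card_le_card e1
    have e4 := card_sdiff_add_card_inter A N
    have e5 := card_sdiff_add_card_inter N A
    rw [inter_comm] at e5
    omega
  obtain ⟨f, hf, hr⟩ := (Fintype.all_card_le_filter_rel_iff_exists_injective
    fun i j : (Σ lam, Fin (h lam)) => ∀ u ∈ i.1, u ∉ j.1).1 key
  refine ⟨fun lam mu => (univ.filter fun i : (Σ lam, Fin (h lam)) =>
    i.1 = lam ∧ (f i).1 = mu).card, fun lam => ?_, fun mu => ?_, fun lam mu hz => ?_⟩
  · rw [← Hall.card_eq h lam, card_eq_sum_card_fiberwise (f := fun i => (f i).1) (t := univ)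
      fun _ _ => mem_coe.2 (mem_univ _)]
    simp only [filter_filter]
  · have e : (univ.filter fun i : (Σ lam, Fin (h lam)) => (f i).1 = mu).card = h mu := by
      rw [← Hall.card_eq h mu]
      exact card_bijective f (Finite.injective_iff_bijective.1 hf) fun i => by simp
    rw [← e, card_eq_sum_card_fiberwise (f := fun i => i.1) (t := univ)
      fun _ _ => mem_coe.2 (mem_univ _)]
    simp only [filter_filter, and_comm]
  · obtain ⟨i, hi⟩ := card_pos.1 hz
    obtain ⟨rfl, rfl⟩ := (mem_filter.1 hi).2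
    exact hr i

theorem base (h : HallStmt) : BaseStmt := by
  intro W _ _ x r hx hr hr'
  have e1 : ∀ lam, 2 * ((x lam - r lam) / 2) + r lam ≤ x lam := fun lam => by
    have := hr lam
    omega
  have e2 : ∑ lam, x lam ≤ 2 * ∑ lam, (x lam - r lam) / 2 + ∑ lam, r lam + 2500 := by
    refine le_trans ?_ (Nat.add_le_add_left hx.few _)
    rw [num_eq_sum, mul_sum, ← sum_add_distrib, ← sum_add_distrib]
    refine sum_le_sum fun lam _ => ?_
    have := hr lam
    split_ifs <;> omega
  have e3 := hx.big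
  obtain ⟨z, h1, h2, h3⟩ := h W (fun lam => (x lam - r lam) / 2)
    (fun a => by simp only [hx.nd a, Nat.zero_sub, Nat.zero_div])
    (fun u => by
      have e4 := hx.star u
      have e5 : 2 * (∑ lam, if u ∈ lam then (x lam - r lam) / 2 else 0) ≤
          ∑ lam, if u ∈ lam then x lam else 0 := by
        rw [mul_sum]
        refine sum_le_sum fun lam _ => ?_
        split_ifs <;> omega
      omega)
    (fun a b c hab hac hbc => by
      have e4 := hx.tri a b c hab hac hbc
      have := e1 s(a, b)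
      have := e1 s(a, c)
      have := e1 s(b, c)
      omega)
  refine ⟨z, fun lam => ?_, h3, ?_⟩
  · rw [h1, h2]
    have := e1 lam
    omega
  · simp only [h1]
    exact e2

end Pool.Agent.Lib.MP_453ac3_co.LB
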