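import Pool.Agent.Lib.MP_453ac3_co.LB.St

namespace Pool.Agent.Lib.MP_453ac3_co.LB

open Finset

namespace Heavy

variable {V : Type} [Fintype V] {G : SimpleGraph V} {H Y : Finset V} {c : V → V}
  {τ : V → Sym2 V} {X : ℕ}

omit [Fintype V] in
theorem third {a v w : V} {e : Sym2 V} (ha : a ∈ e) (hv : v ∈ e) (hw : w ∈ e) (h1 : v ≠ a)
    (h2 : w ≠ a) : v = w := by
  induction e using Sym2.ind with
  | _ p q =>
    rw [Sym2.mem_iff] at ha hv hw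
    rcases ha with rfl | rfl <;> rcases hv with rfl | rfl <;> rcases hw with rfl | rfl <;>
      first | rfl | exact absurd rfl h1 | exact absurd rfl h2

theorem cutA (h1 : CutStmt) (hP : PathPairable G) (M : CS G H Y c τ X) (a : V) (Z : Finset V)
    (ha : a ∈ H) (hZ : ∀ y ∈ Z, y ∈ Y ∧ a ∈ τ y) (hc : ∀ u ∈ Z, ∀ v ∈ Y, c u = c v → v ∈ Z)
    (ht : 2 * (Z.card + 1) ≤ Fintype.card V) :
    Z.card + num Z (fun y => G.Adj y a) ≤
      X + dg G a + num Z fun y => ∃ v ∈ τ y, v ≠ a ∧ G.Adj y v := by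
  classical
  have haZ : a ∉ Z := fun h => M.disj a (hZ a h).1 ha
  have k := h1 V G hP (insert a Z) (by rw [card_insert_of_notMem haZ]; exact ht)
  rw [card_insert_of_notMem haZ] at k
  have k1 : cnt G (fun u v => u ∈ insert a Z ∧ v ∉ insert a Z) ≤
      cnt G fun u v => (u = a ∧ v ∉ Z) ∨ (¬ ((u ∈ Y ∧ v ∈ Y ∧ c u = c v) ∨ (u ∈ Y ∧ v ∈ τ u) ∨
        (v ∈ Y ∧ u ∈ τ v)) ∨ (u ∈ Z ∧ v ∈ τ u ∧ v ≠ a)) := by
    refine cnt_mono fun u v _ h => ?_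
    obtain ⟨hu, hv⟩ := h
    rw [mem_insert] at hu
    rw [mem_insert, not_or] at hv
    rcases hu with hu | hu
    · exact Or.inl ⟨hu, hv.2⟩
    · refine Or.inr (or_iff_not_imp_left.2 fun h => ?_)
      rcases not_not.1 h with h | h | h
      · exact absurd (hc u hu v h.2.1 h.2.2) hv.2
      · exact ⟨hu, h.2, hv.1⟩
      · exact absurd (M.hubs v h.1 u h.2) (M.disj u (hZ u hu).1)
  have k2 := k1.trans ((cnt_or_le G _ _).trans (Nat.add_le_add_left (cnt_or_le G _ _) _))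
  have k3 : cnt G (fun u v => u = a ∧ v ∉ Z) ≤ num univ fun v => G.Adj a v ∧ ¬ v ∈ Z := by
    refine num_le_of_injOn Prod.snd ?_ ?_
    · rintro ⟨u, v⟩ _ ⟨h, e, h'⟩
      exact ⟨mem_univ _, e ▸ h, h'⟩
    · rintro ⟨u, v⟩ _ ⟨-, e, -⟩ ⟨u', v'⟩ _ ⟨-, e', -⟩ h
      exact Prod.ext (e.trans e'.symm) h
  have k4 : cnt G (fun u v => u ∈ Z ∧ v ∈ τ u ∧ v ≠ a) ≤
      num Z fun y => ∃ v ∈ τ y, v ≠ a ∧ G.Adj y v := by
    refine num_le_of_injOn Prod.fst ?_ ?_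
    · rintro ⟨u, v⟩ _ ⟨h, b1, b2, b3⟩
      exact ⟨b1, v, b2, b3, h⟩
    · rintro ⟨u, v⟩ _ ⟨-, b1, b2, b3⟩ ⟨u', v'⟩ _ ⟨-, -, b2', b3'⟩ h
      obtain rfl : u = u' := h
      exact Prod.ext rfl (third (hZ u b1).2 b2 b2' b3 b3')
  have k5 : dg G a = _ := num_split univ (fun v => G.Adj a v) fun v => v ∈ Z
  have k6 : num Z (fun y => G.Adj y a) ≤ num univ fun v => G.Adj a v ∧ v ∈ Z :=
    num_mono fun y hy h => ⟨mem_univ _, h.symm, hy⟩
  have k7 := M.exc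
  omega

theorem orient (M : CS G H Y c τ X) : ∃ P Q : V → V, (∀ y ∈ Y, τ y = s(P (c y), Q (c y))) ∧
    ∀ Z : Finset V, Z ⊆ Y → (∀ u ∈ Z, ∀ v ∈ Y, c u = c v → v ∈ Z) →
      num Z (fun y => G.Adj y (Q (c y))) ≤ num Z fun y => G.Adj y (P (c y)) := by
  classical
  have h : ∀ l, ∃ p q, (∀ y ∈ Y, c y = l → τ y = s(p, q)) ∧
      num Y (fun y => c y = l ∧ G.Adj y q) ≤ num Y fun y => c y = l ∧ G.Adj y p := by
    intro l
    by_cases hl : ∃ y ∈ Y, c y = l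
    · obtain ⟨y, hy, e⟩ := hl
      obtain ⟨p, q, hpq⟩ : ∃ p q, τ y = s(p, q) := by
        induction τ y using Sym2.ind with
        | _ p q => exact ⟨p, q, rfl⟩
      have k : ∀ y' ∈ Y, c y' = l → τ y' = s(p, q) := fun y' hy' e' =>
        (M.same y' hy' y hy (e'.trans e.symm)).trans hpq
      rcases le_total (num Y fun y => c y = l ∧ G.Adj y q) (num Y fun y => c y = l ∧ G.Adj y p)
        with h | h
      · exact ⟨p, q, k, h⟩
      · exact ⟨q, p, fun y' hy' e' => (k y' hy' e').trans Sym2.eq_swap, h⟩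
    · exact ⟨l, l, fun y hy e => absurd ⟨y, hy, e⟩ hl, le_rfl⟩
  choose P Q h1 h2 using h
  refine ⟨P, Q, fun y hy => h1 _ y hy rfl, fun Z hZ hc => ?_⟩
  have e : ∀ R : V → V, num Z (fun y => G.Adj y (R (c y))) =
      ∑ l ∈ Z.image c, num Y fun y => c y = l ∧ G.Adj y (R l) := by
    intro R
    rw [num_eq, card_eq_sum_card_fiberwise (f := c) (t := Z.image c)
      fun y hy => mem_image_of_mem c (mem_filter.1 hy).1]
    refine sum_congr rfl fun l hl => ?_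
    obtain ⟨z, hz, rfl⟩ := mem_image.1 hl
    rw [num_eq]
    congr 1
    ext y
    simp only [mem_filter]
    constructor
    · rintro ⟨⟨b1, b2⟩, b3⟩
      exact ⟨hZ b1, b3, b3 ▸ b2⟩
    · rintro ⟨b1, b2, b3⟩
      exact ⟨⟨hc z hz y b1 b2.symm, b2 ▸ b3⟩, b2⟩
  rw [e, e]
  exact sum_le_sum fun l _ => h2 l

omit [Fintype V] in
theorem sum_two [DecidableEq V] (F : Finset V) (f : V → ℕ) {p q : V} (hpq : p ≠ q)
    (h : ∀ a ∈ F, a ≠ p → a ≠ q → f a = 0) :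
    ∑ a ∈ F, f a = (if p ∈ F then f p else 0) + if q ∈ F then f q else 0 := by
  rw [← sum_ite_eq' F p f, ← sum_ite_eq' F q f, ← sum_add_distrib]
  refine sum_congr rfl fun a ha => ?_
  by_cases h1 : a = p
  · have : a ≠ q := h1 ▸ hpq
    simp [h1, hpq]
  · by_cases h2 : a = q
    · simp [h2, hpq.symm]
    · simp [h1, h2, h a ha h1 h2]

theorem point (a b a' b' p q L : Prop) [Decidable (a ∧ b ∧ q)] [Decidable (a' ∧ b' ∧ p)]
    [Decidable ((a ∧ b) ∧ ¬ (a' ∧ b'))] [Decidable p] [Decidable q] [Decidable (a ∧ b ∧ p)]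
    [Decidable (a' ∧ b' ∧ q)] [Decidable L] (h : a' ∧ b' → ¬ (a ∧ b) → ¬ q → L) :
    ((if a ∧ b ∧ q then 1 else 0) + if a' ∧ b' ∧ p then 1 else 0) +
      (if (a ∧ b) ∧ ¬ (a' ∧ b') then if p then 1 else 0 else 0) ≤
    ((if a ∧ b ∧ p then 1 else 0) + if a' ∧ b' ∧ q then 1 else 0) + (if L then 1 else 0) +
      (if (a ∧ b) ∧ ¬ (a' ∧ b') then if q then 1 else 0 else 0 : ℕ) := by
  by_cases s1 : a ∧ b <;> by_cases s2 : a' ∧ b' <;> by_cases s3 : p <;> by_cases s4 : q <;>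
    simp [← and_assoc, s1, s2, s3, s4]
  simp [h s2 s1 s4]

theorem total (M : CS G H Y c τ X) {P Q : V → V} (h1 : ∀ y ∈ Y, τ y = s(P (c y), Q (c y)))
    (h2 : ∀ Z : Finset V, Z ⊆ Y → (∀ u ∈ Z, ∀ v ∈ Y, c u = c v → v ∈ Z) →
      num Z (fun y => G.Adj y (Q (c y))) ≤ num Z fun y => G.Adj y (P (c y)))
    (Lt : V → Prop) (F : Finset V) (Z : V → Finset V)
    (hZ : ∀ a ∈ F, ∀ y ∈ Z a, y ∈ Y ∧ a ∈ τ y)
    (hc : ∀ a ∈ F, ∀ u ∈ Z a, ∀ v ∈ Y, c u = c v → v ∈ Z a)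
    (hq : ∀ a ∈ F, ∀ y ∈ Z a, Q (c y) = a → Lt (P (c y)) ∨ (P (c y) ∈ F ∧ y ∈ Z (P (c y)))) :
    ∑ a ∈ F, num (Z a) (fun y => ∃ v ∈ τ y, v ≠ a ∧ G.Adj y v) ≤
      ∑ a ∈ F, num (Z a) (fun y => G.Adj y a) +
        num Y fun y => ∃ u v, τ y = s(u, v) ∧ ¬ G.Adj y v ∧ Lt u := by
  classical
  have e : ∀ R : V → V → Prop, ∑ a ∈ F, num (Z a) (R a) =
      ∑ y ∈ Y, ((if P (c y) ∈ F ∧ y ∈ Z (P (c y)) ∧ R (P (c y)) y then 1 else 0) +
        if Q (c y) ∈ F ∧ y ∈ Z (Q (c y)) ∧ R (Q (c y)) y then 1 else 0) := by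
    intro R
    have e1 : ∀ a ∈ F, num (Z a) (R a) = ∑ y ∈ Y, if y ∈ Z a ∧ R a y then 1 else 0 := by
      intro a ha
      rw [← num_eq_sum]
      exact le_antisymm (num_mono fun y hy h => ⟨(hZ a ha y hy).1, hy, h⟩)
        (num_mono fun y _ h => h)
    rw [sum_congr rfl e1, sum_comm]
    refine sum_congr rfl fun y hy => ?_
    have hpq : P (c y) ≠ Q (c y) := by
      have := M.nd y hy
      rwa [h1 y hy, Sym2.mk_isDiag_iff] at this
    rw [sum_two F _ hpq]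
    · simp only [ite_and]
    · intro a ha b1 b2
      rw [if_neg]
      rintro ⟨b3, -⟩
      have := (hZ a ha y b3).2
      rw [h1 y hy, Sym2.mem_iff] at this
      tauto
  set W := Y.filter fun y => (P (c y) ∈ F ∧ y ∈ Z (P (c y))) ∧
    ¬ (Q (c y) ∈ F ∧ y ∈ Z (Q (c y))) with hW
  have k := h2 W (filter_subset _ _) (by
    intro u hu v hv h
    obtain ⟨b1, ⟨b2, b3⟩, b4⟩ := mem_filter.1 hu
    refine mem_filter.2 ⟨hv, ⟨h ▸ b2, h ▸ hc _ b2 u b3 v hv h⟩, fun b => b4 ?_⟩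
    exact ⟨h ▸ b.1, h ▸ hc _ b.1 v b.2 u b1 h.symm⟩)
  rw [num_eq_sum, num_eq_sum, hW, sum_filter, sum_filter] at k
  rw [e, e, num_eq_sum]
  refine Nat.le_of_add_le_add_right (le_trans ?_ (Nat.add_le_add_left k _))
  rw [← sum_add_distrib, ← sum_add_distrib, ← sum_add_distrib]
  refine sum_le_sum fun y hy => ?_
  have t1 := h1 y hy
  have hpq : P (c y) ≠ Q (c y) := by
    have := M.nd y hy
    rwa [t1, Sym2.mk_isDiag_iff] at this
  have r1 : (∃ v ∈ τ y, v ≠ P (c y) ∧ G.Adj y v) ↔ G.Adj y (Q (c y)) := by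
    simp [t1, hpq.symm]
  have r2 : (∃ v ∈ τ y, v ≠ Q (c y) ∧ G.Adj y v) ↔ G.Adj y (P (c y)) := by
    simp [t1, hpq]
  have r3 : Q (c y) ∈ F ∧ y ∈ Z (Q (c y)) → ¬ (P (c y) ∈ F ∧ y ∈ Z (P (c y))) →
      ¬ G.Adj y (Q (c y)) → ∃ u v, τ y = s(u, v) ∧ ¬ G.Adj y v ∧ Lt u := fun b1 b2 b3 =>
    ⟨_, _, t1, b3, (hq _ b1.1 y b1.2 rfl).resolve_right b2⟩
  simp only [r1, r2]
  exact point _ _ _ _ _ _ _ r3

end Heavy

theorem heavy (h1 : CutStmt) (h2 : FillStmt) (h3 : LightStmt) : HeavyStmt := by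
  classical
  intro V _ G H Y c τ X hP M hX hn hd u0
  by_contra hu0
  have hL := h3 V G H Y c τ X hP M hX hn
  obtain ⟨P, Q, o1, o2⟩ := Heavy.orient M
  set n := Fintype.card V with hn'
  set F := univ.filter fun a => ¬ 2 * (star Y τ a + X) ≤ n with hF
  have hF' : ∀ a, a ∈ F ↔ ¬ 2 * (star Y τ a + X) ≤ n := fun a => by simp [hF]
  have hex : ∀ a ∈ F, ∃ y ∈ Y, a ∈ τ y := by
    intro a ha
    rw [hF'] at ha
    exact num_pos.1 (show 0 < star Y τ a by omega)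
  have hX1 : 1 ≤ X := by
    obtain ⟨y, hy, -⟩ := hex u0 ((hF' _).2 hu0)
    exact le_trans (num_pos.2 ⟨y, hy, show c y = c y from rfl⟩) (M.small (c y))
  set t := n / 2 - X with ht
  have fin : ∀ (F' : Finset V) (Z : V → Finset V), F'.Nonempty → F' ⊆ F →
      (∀ a ∈ F', ∀ y ∈ Z a, y ∈ Y ∧ a ∈ τ y) →
      (∀ a ∈ F', ∀ u ∈ Z a, ∀ v ∈ Y, c u = c v → v ∈ Z a) →
      (∀ a ∈ F', ∀ y ∈ Z a, Q (c y) = a → 2 * (star Y τ (P (c y)) + X) ≤ n ∨
        (P (c y) ∈ F' ∧ y ∈ Z (P (c y)))) →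
      (∀ a ∈ F', (Z a).card ≤ t ∧ t ≤ (Z a).card + X) → False := by
    intro F' Z b0 b1 b2 b3 b4 b5
    have k := Heavy.total M o1 o2 (fun u => 2 * (star Y τ u + X) ≤ n) F' Z b2 b3 b4
    have k1 : ∀ a ∈ F', num (Z a) (fun y => G.Adj y a) + (10 * X + 1) ≤
        num (Z a) fun y => ∃ v ∈ τ y, v ≠ a ∧ G.Adj y v := by
      intro a ha
      obtain ⟨y, hy, hy'⟩ := hex a (b1 ha)
      have := b5 a ha
      have := Heavy.cutA h1 hP M a (Z a) (M.hubs y hy a hy') (b2 a ha) (b3 a ha) (by omega)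
      have := hd a
      omega
    have k2 := sum_le_sum k1
    rw [sum_add_distrib, sum_const, smul_eq_mul] at k2
    have k3 : 1 * (10 * X + 1) ≤ F'.card * (10 * X + 1) :=
      Nat.mul_le_mul_right _ (card_pos.2 b0)
    omega
  set B : V → Finset V := fun a => Y.filter fun y => a ∈ τ y with hB
  set Gd : V → Finset V := fun a => Y.filter fun y => P (c y) = a ∨
    (Q (c y) = a ∧ 2 * (star Y τ (P (c y)) + X) ≤ n) with hGd
  have g1 : ∀ a, Gd a ⊆ B a := by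
    intro a y hy
    obtain ⟨b1, b2⟩ := mem_filter.1 hy
    refine mem_filter.2 ⟨b1, ?_⟩
    rw [o1 y b1, Sym2.mem_iff]
    exact b2.imp Eq.symm fun h => h.1.symm
  have g2 : ∀ a, ∀ u ∈ Gd a, ∀ v ∈ Y, c u = c v → v ∈ Gd a := fun a u hu v hv h =>
    mem_filter.2 ⟨hv, h ▸ (mem_filter.1 hu).2⟩
  have g3 : ∀ a, ∀ u ∈ B a, ∀ v ∈ Y, c u = c v → v ∈ B a := fun a u hu v hv h =>
    mem_filter.2 ⟨hv, M.same u (mem_filter.1 hu).1 v hv h ▸ (mem_filter.1 hu).2⟩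
  have g4 : ∀ T : Finset V, T ⊆ Y → ∀ a, num T (fun y => c y = a) ≤ X := fun T hT a =>
    le_trans (num_mono fun y hy h => ⟨hT hy, h⟩) (M.small a)
  by_cases hc : ∃ a ∈ F, t ≤ (Gd a).card
  · obtain ⟨a, ha, hc⟩ := hc
    obtain ⟨C, -, c2, c3, c4⟩ := h2 V c ∅ (Gd a) X t (empty_subset _) (by simp)
      (g4 _ (filter_subset _ _)) (by simp) hc
    refine fin {a} (fun _ => C) (singleton_nonempty a) (singleton_subset_iff.2 ha) ?_ ?_ ?_ ?_
    · intro a' ha' y hy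
      rw [mem_singleton.1 ha']
      exact mem_filter.1 (g1 a (c2 hy))
    · exact fun _ _ u hu v hv h => c3 u hu v (g2 a u (c2 hu) v hv h) h
    · intro a' _ y hy _
      rcases (mem_filter.1 (c2 hy)).2 with h | h
      · exact Or.inr ⟨mem_singleton.2 h, hy⟩
      · exact Or.inl h.2
    · exact fun _ _ => c4
  · push Not at hc
    have hz : ∀ a, ∃ C : Finset V, a ∈ F → Gd a ⊆ C ∧ C ⊆ B a ∧
        (∀ u ∈ C, ∀ v ∈ B a, c u = c v → v ∈ C) ∧ C.card ≤ t ∧ t ≤ C.card + X := by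
      intro a
      by_cases ha : a ∈ F
      · have e : (B a).card = star Y τ a := (num_eq _ _).symm
        have := (hF' a).1 ha
        obtain ⟨C, hC⟩ := h2 V c (Gd a) (B a) X t (g1 a)
          (fun u hu v hv h => g2 a u hu v (mem_filter.1 hv).1 h) (g4 _ (filter_subset _ _))
          (hc a ha).le (by omega)
        exact ⟨C, fun _ => hC⟩
      · exact ⟨∅, fun h => absurd h ha⟩
    choose Z hZ using hz
    refine fin F Z ⟨u0, (hF' _).2 hu0⟩ Subset.rfl ?_ ?_ ?_ fun a ha => (hZ a ha).2.2.2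
    · exact fun a ha y hy => mem_filter.1 ((hZ a ha).2.1 hy)
    · exact fun a ha u hu v hv h =>
        (hZ a ha).2.2.1 u hu v (g3 a u ((hZ a ha).2.1 hu) v hv h) h
    · intro a ha y hy _
      refine or_iff_not_imp_left.2 fun h => ?_
      have hp := (hF' _).2 h
      exact ⟨hp, (hZ _ hp).1 (mem_filter.2 ⟨(mem_filter.1 ((hZ a ha).2.1 hy)).1, Or.inl rfl⟩)⟩

end Pool.Agent.Lib.MP_453ac3_co.LB
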