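import Pool.Agent.Lib.MP_453ac3_co.LB.St

namespace Pool.Agent.Lib.MP_453ac3_co.LB

open Finset

theorem cut : CutStmt := by
  classical
  intro V _ G hG Z hZ
  have hc : Z.card ≤ Zᶜ.card := by
    rw [card_compl]
    omega
  obtain ⟨Z', hZ', hk⟩ := exists_subset_card_eq hc
  let s : Fin Z.card → V := fun i => (Z.equivFin.symm i : V)
  let t : Fin Z.card → V := fun i => ((Z'.equivFinOfCardEq hk).symm i : V)
  have hs : ∀ i, s i ∈ Z := fun i => (Z.equivFin.symm i).2
  have ht : ∀ i, t i ∉ Z := fun i => mem_compl.1 (hZ' ((Z'.equivFinOfCardEq hk).symm i).2)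
  have hinj : Function.Injective (Sum.elim s t) := by
    refine Function.Injective.sumElim ?_ ?_ ?_
    · exact Subtype.val_injective.comp Z.equivFin.symm.injective
    · exact Subtype.val_injective.comp (Z'.equivFinOfCardEq hk).symm.injective
    · intro i j h
      exact ht j (h ▸ hs i)
  obtain ⟨P, -, hP⟩ := hG _ s t hinj
  have hd : ∀ i, ∃ d : G.Dart, d ∈ (P i).darts ∧ d.fst ∈ (Z : Set V) ∧ d.snd ∉ (Z : Set V) :=
    fun i => (P i).exists_boundary_dart (Z : Set V) (hs i) (ht i)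
  choose d hd1 hd2 hd3 using hd
  have e : Z.card = num (univ : Finset (Fin Z.card)) fun _ => True := by
    rw [num_eq]
    simp
  rw [e]
  refine num_le_of_injOn (fun i => (d i).toProd) (fun i _ _ => ⟨mem_univ _, (d i).adj, hd2 i, hd3 i⟩)
    fun i _ _ j _ _ h => ?_
  by_contra hij
  have h1 : d i = d j := SimpleGraph.Dart.ext _ _ h
  exact hP hij (List.mem_map_of_mem (f := SimpleGraph.Dart.edge) (hd1 i))
    (List.mem_map_of_mem (f := SimpleGraph.Dart.edge) (h1 ▸ hd1 j))

namespace Light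

theorem piece {W : Type} [DecidableEq W] (w : W → ℕ) (t : ℕ) (U : Finset W) :
    (∀ u ∈ U, w u ≤ t) → t ≤ 2 * ∑ u ∈ U, w u →
      ∃ A ⊆ U, ∑ u ∈ A, w u ≤ t ∧ t ≤ 2 * ∑ u ∈ A, w u := by
  induction U using Finset.induction_on with
  | empty => exact fun _ h => ⟨∅, Subset.rfl, by simp, h⟩
  | insert a S ha ih =>
    intro h1 h2
    by_cases c1 : t ≤ 2 * ∑ u ∈ S, w u
    · obtain ⟨A, hA, h⟩ := ih (fun u hu => h1 u (mem_insert_of_mem hu)) c1
      exact ⟨A, hA.trans (subset_insert _ _), h⟩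
    by_cases c2 : t ≤ 2 * w a
    · exact ⟨{a}, singleton_subset_iff.2 (mem_insert_self _ _),
        by simpa using h1 a (mem_insert_self _ _), by simpa using c2⟩
    refine ⟨insert a S, Subset.rfl, ?_, h2⟩
    rw [sum_insert ha]
    omega

theorem sum_star {V : Type} (Y U : Finset V) (τ : V → Sym2 V) :
    ∑ u ∈ U, star Y τ u ≤ 2 * Y.card := by
  classical
  unfold star
  simp only [num_eq_sum]
  rw [sum_comm, mul_comm, ← smul_eq_mul, ← sum_const]
  refine sum_le_sum fun y _ => ?_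
  rw [← card_filter]
  induction τ y using Sym2.ind with
  | _ a b =>
    refine le_trans (card_le_card (t := {a, b}) fun u hu => ?_) card_le_two
    simpa using (mem_filter.1 hu).2

theorem card_meet {V : Type} (Y A : Finset V) (τ : V → Sym2 V) :
    num Y (fun y => ∃ u ∈ A, u ∈ τ y) ≤ ∑ u ∈ A, star Y τ u := by
  classical
  induction A using Finset.induction_on with
  | empty =>
    rw [num_eq]
    simp
  | insert a S ha ih =>
    rw [sum_insert ha]
    refine le_trans (num_mono (S' := Y) (Q := fun y => a ∈ τ y ∨ ∃ u ∈ S, u ∈ τ y) ?_)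
      ((num_or_le _ _ _).trans (Nat.add_le_add_left ih _))
    intro y hy h
    exact ⟨hy, by simpa using h⟩

theorem other {V : Type} {e : Sym2 V} {a v v' : V} (ha : a ∈ e) (hv : v ∈ e) (hv' : v' ∈ e)
    (h : v ≠ a) (h' : v' ≠ a) : v = v' := by
  induction e using Sym2.ind with
  | _ x y =>
    simp only [Sym2.mem_iff] at ha hv hv'
    grind

theorem small (h1 : CutStmt) {V : Type} [Fintype V] {G : SimpleGraph V} {H Y : Finset V}
    {c : V → V} {τ : V → Sym2 V} {X : ℕ} (hG : PathPairable G) (hC : CS G H Y c τ X)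
    (hH : H.card ≤ X) (A : Finset V) (hA : A ⊆ H)
    (hw : 2 * (∑ u ∈ A, star Y τ u + X) ≤ Fintype.card V) :
    num Y (fun y => ∃ u ∈ A, ∃ v, τ y = s(u, v) ∧ ¬ G.Adj y v) ≤ X := by
  classical
  set YA := Y.filter fun y => ∃ u ∈ A, u ∈ τ y with hYA
  have m : ∀ y, y ∈ YA ↔ y ∈ Y ∧ ∃ u ∈ A, u ∈ τ y := fun y => mem_filter
  have c1 : YA.card ≤ ∑ u ∈ A, star Y τ u := by
    have := card_meet Y A τ
    rwa [num_eq] at this
  have c2 : A.card ≤ X := (card_le_card hA).trans hH
  have c3 := card_union_le A YA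
  have c4 : YA.card ≤ (A ∪ YA).card := card_le_card subset_union_right
  have c5 := h1 V G hG (A ∪ YA) (by omega)
  have c6 : cnt G (fun u v => u ∈ A ∪ YA ∧ v ∉ A ∪ YA) ≤
      X + cnt G fun u v => u ∈ YA ∧ v ∈ τ u ∧ v ∉ A := by
    refine le_trans (cnt_mono ?_) ((cnt_or_le G _ _).trans (Nat.add_le_add_right hC.exc _))
    rintro u v - ⟨hu, hv⟩
    rw [mem_union] at hu
    rw [mem_union, not_or] at hv
    refine or_iff_not_imp_left.2 fun hr => ?_
    rcases not_not.1 hr with ⟨a1, a2, a3⟩ | ⟨a1, a2⟩ | ⟨a1, a2⟩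
    · rcases hu with hu | hu
      · exact absurd (hA hu) (hC.disj u a1)
      · refine absurd ((m v).2 ⟨a2, ?_⟩) hv.2
        rw [← hC.same u a1 v a2 a3]
        exact ((m u).1 hu).2
    · rcases hu with hu | hu
      · exact absurd (hA hu) (hC.disj u a1)
      · exact ⟨hu, a2, hv.1⟩
    · rcases hu with hu | hu
      · exact absurd ((m v).2 ⟨a1, u, hu, a2⟩) hv.2
      · exact absurd (hC.hubs v a1 u a2) (hC.disj u ((m u).1 hu).1)
  have c7 : cnt G (fun u v => u ∈ YA ∧ v ∈ τ u ∧ v ∉ A) ≤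
      num YA fun y => ∃ v ∈ τ y, v ∉ A ∧ G.Adj y v := by
    refine num_le_of_injOn Prod.fst (fun p _ hp => ⟨hp.2.1, p.2, hp.2.2.1, hp.2.2.2, hp.1⟩) ?_
    rintro ⟨u, v⟩ - ⟨-, b1, b2, b3⟩ ⟨u', v'⟩ - ⟨-, -, d2, d3⟩ h
    simp only at h b1 b2 b3 d2 d3
    subst h
    obtain ⟨-, a, ha, ha'⟩ := (m u).1 b1
    rw [other ha' b2 d2 (fun h => b3 (h ▸ ha)) fun h => d3 (h ▸ ha)]
  have c8 := num_add_not YA fun y => ∃ v ∈ τ y, v ∉ A ∧ G.Adj y v
  have c9 : num Y (fun y => ∃ u ∈ A, ∃ v, τ y = s(u, v) ∧ ¬ G.Adj y v) ≤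
      num YA fun y => ¬ ∃ v ∈ τ y, v ∉ A ∧ G.Adj y v := by
    refine num_mono ?_
    rintro y hy ⟨u, hu, v, e, hv⟩
    refine ⟨(m y).2 ⟨hy, u, hu, e ▸ Sym2.mem_mk_left u v⟩, ?_⟩
    rintro ⟨v', b1, b2, b3⟩
    rw [e, Sym2.mem_iff] at b1
    rcases b1 with rfl | rfl
    exacts [b2 hu, hv b3]
  omega

end Light

theorem group : GroupStmt := by
  intro W _ w D t e U
  induction U using Finset.strongInduction with
  | H U ih =>
    intro h1 h2 h3
    rcases Nat.eq_zero_or_pos t with rfl | ht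
    · simp
    by_cases hU : ∑ u ∈ U, w u ≤ t
    · exact Nat.mul_le_mul (Nat.le_add_left _ _) (h3 U Subset.rfl hU)
    obtain ⟨A, hA, a1, a2⟩ := Light.piece w t U h1 (by omega)
    have hne : A.Nonempty := by
      rcases A.eq_empty_or_nonempty with rfl | h
      · simp only [sum_empty] at a2
        omega
      · exact h
    have b1 := ih (U \ A) (sdiff_ssubset hA hne) (fun u hu => h1 u (mem_sdiff.1 hu).1) h2
      fun B hB => h3 B (hB.trans sdiff_subset)
    have b2 := h2 A (U \ A)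
    rw [union_sdiff_of_subset hA] at b2
    have b3 := h3 A hA a1
    rw [← sum_sdiff hA]
    calc t * D U ≤ t * (e + D (U \ A)) := Nat.mul_le_mul_left _ (by omega)
      _ = t * e + t * D (U \ A) := by ring
      _ ≤ (2 * ∑ u ∈ A, w u) * e + (2 * ∑ u ∈ U \ A, w u + t) * e :=
        Nat.add_le_add (Nat.mul_le_mul_right _ a2) b1
      _ = _ := by ring

theorem fill : FillStmt := by
  classical
  intro V c A B X t hAB hcl hX hA hB
  induction hn : B.card - A.card using Nat.strong_induction_on generalizing A with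
  | _ n ih =>
    by_cases h : t ≤ A.card + X
    · exact ⟨A, Subset.rfl, hAB, hcl, hA, h⟩
    obtain ⟨v, hv, hvA⟩ : ∃ v ∈ B, v ∉ A := exists_mem_notMem_of_card_lt_card (by omega)
    have h1 := hX (c v)
    rw [num_eq] at h1
    have h2 := card_union_le A (B.filter fun y => c y = c v)
    have h3 : A ∪ B.filter (fun y => c y = c v) ⊆ B := union_subset hAB (filter_subset _ _)
    have h4 : A.card < (A ∪ B.filter fun y => c y = c v).card :=
      card_lt_card ((ssubset_iff_of_subset subset_union_left).2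
        ⟨v, mem_union_right _ (mem_filter.2 ⟨hv, rfl⟩), hvA⟩)
    have h5 := card_le_card h3
    obtain ⟨C, c1, c2⟩ := ih _ (by omega) (A ∪ B.filter fun y => c y = c v) h3
      (fun u hu w hw e => by
        rcases mem_union.1 hu with hu | hu
        · exact mem_union_left _ (hcl u hu w hw e)
        · exact mem_union_right _ (mem_filter.2 ⟨hw, e.symm.trans (mem_filter.1 hu).2⟩))
      (by omega) rfl
    exact ⟨C, subset_union_left.trans c1, c2⟩

theorem light (h1 : CutStmt) (h2 : GroupStmt) : LightStmt := by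
  classical
  intro V _ G H Y c τ X hG hC hX hn
  have hH : H.card ≤ X := by
    have a1 : Disjoint Y H := disjoint_left.2 hC.disj
    have a2 := card_le_univ (Y ∪ H)
    rw [card_union_of_disjoint a1] at a2
    have := hC.cover
    omega
  set U := H.filter fun u => 2 * (star Y τ u + X) ≤ Fintype.card V with hU
  have b1 := h2 V (star Y τ)
    (fun A => num Y fun y => ∃ u ∈ A, ∃ v, τ y = s(u, v) ∧ ¬ G.Adj y v)
    (Fintype.card V / 2 - X) X U (fun u hu => by have := (mem_filter.1 hu).2; omega)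
    (fun A B => le_trans (num_mono fun y hy h => ⟨hy, by
      obtain ⟨u, hu, h⟩ := h
      exact (mem_union.1 hu).imp (fun hu => ⟨u, hu, h⟩) fun hu => ⟨u, hu, h⟩⟩) (num_or_le _ _ _))
    fun A hA hw => Light.small h1 hG hC hH A (hA.trans (filter_subset _ _)) (by omega)
  have b2 := Light.sum_star Y U τ
  have b3 := card_le_univ Y
  have b4 : (2 * ∑ u ∈ U, star Y τ u + (Fintype.card V / 2 - X)) * X ≤
      (Fintype.card V / 2 - X) * (10 * X) := by
    rw [← mul_assoc]
    exact Nat.mul_le_mul_right _ (by omega)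
  refine le_trans (num_mono ?_) (Nat.le_of_mul_le_mul_left (b1.trans b4) (by omega))
  rintro y hy ⟨u, v, e, hv, hu⟩
  exact ⟨hy, u, mem_filter.2 ⟨hC.hubs y hy u (e ▸ Sym2.mem_mk_left u v), hu⟩, v, e, hv⟩

end Pool.Agent.Lib.MP_453ac3_co.LB
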