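import Pool.Agent.Lib.MP_453ac3_co.LB.St

/-!
The frustration gadget and the length inequality in the atom model.
-/

namespace Pool.Agent.Lib.MP_453ac3_co.LB

open Finset

namespace MLa

/-- the positions of the ends of the pairs in a window -/
def pos (r : Fin 3) (k : Fin 8) (e d : Bool) : Fin 32 :=
  Fin.ofNat 32 (4 * k.1 + if e then k.1 / 2 ^ r.1 % 2 + (if d then 1 else 0)
    else if d then 3 else if k.1 / 2 ^ r.1 % 2 = 0 then 2 else 0)

theorem pos_inj : ∀ (r : Fin 3) (x y : Fin 8 × Bool × Bool),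
    pos r x.1 x.2.1 x.2.2 = pos r y.1 y.2.1 y.2.2 → x = y := by
  decide +kernel

theorem pos_phase : ∀ c0 c1 c2 : Bool, ∃ k : Fin 8, ∀ r : Fin 3,
    (pos r k true true : ℕ) = pos r k true false + 1 ∧
      ((pos r k true false : ℕ) % 2 = 0 ↔ ![c0, c1, c2] r = true) := by
  decide +kernel

theorem alt_even {R : ℕ → Prop} (h : ∀ p, p + 1 < 32 → (R (p + 1) ↔ ¬ R p)) :
    ∀ p, p < 32 → (R p ↔ (p % 2 = 0 ↔ R 0)) := by
  intro p
  induction p with
  | zero => simp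
  | succ p ih =>
    intro hp
    rw [h p hp, ih (by omega)]
    have h1 : (p + 1) % 2 = 0 ↔ ¬ p % 2 = 0 := by omega
    rw [h1]
    tauto

variable {V ι : Type} [Fintype V] {G : SimpleGraph V} {S : Finset ι} {m : ℕ} {A : ι → ℕ → V}
  {τ : ι → Sym2 V} {X : ℕ}

/-- the neighbours of a clean vertex of an atom -/
theorem nbr (hM : MOD G S m A τ X) {i : ι} (hi : i ∈ S) {q : ℕ} (hq : q < m) {v : V}
    (h : Reg S m A τ (A i q) v ∨ Reg S m A τ v (A i q)) :
    v ∈ τ i ∨ (q + 1 < m ∧ v = A i (q + 1)) ∨ ∃ q', q = q' + 1 ∧ v = A i q' := by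
  rcases h with ⟨j, hj, p, hp, h1, h2⟩ | ⟨j, hj, p, hp, h1, h2 | ⟨h2, h3⟩⟩
  · obtain ⟨rfl, rfl⟩ := hM.inj i hi j hj q hq p hp h1
    exact h2.imp_right Or.inl
  · exact absurd h2 (hM.nothub i hi j hj q hq)
  · obtain ⟨rfl, rfl⟩ := hM.inj i hi j hj q hq _ h2 h3
    exact Or.inr (Or.inr ⟨p, rfl, h1⟩)

/-- exactly one of the two edges along the atom is used -/
theorem parity (hM : MOD G S m A τ X) {U : Finset (Sym2 V)} {i : ι} (hi : i ∈ S) {q : ℕ}
    (hq : q < m) {a b : V} (hab : τ i = s(a, b))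
    (hN : ∀ v, s(A i q, v) ∈ U →
      v ∈ τ i ∨ (q + 1 < m ∧ v = A i (q + 1)) ∨ ∃ q', q = q' + 1 ∧ v = A i q')
    (ha : s(A i q, a) ∈ U) (hb : s(A i q, b) ∈ U)
    (hodd : Odd (num univ fun w => s(A i q, w) ∈ U)) :
    (q + 1 < m ∧ s(A i q, A i (q + 1)) ∈ U) ↔ ¬ ∃ q', q = q' + 1 ∧ s(A i q, A i q') ∈ U := by
  classical
  rw [num_eq] at hodd
  have hne : a ≠ b := fun h => hM.nd i hi (by rw [hab, h]; exact Sym2.mk_isDiag_iff.2 rfl)
  have hA : ∀ p < m, a ≠ A i p ∧ b ≠ A i p := fun p hp => by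
    have h := hM.nothub i hi i hi p hp
    rw [hab, Sym2.mem_iff, not_or] at h
    exact ⟨Ne.symm h.1, Ne.symm h.2⟩
  rw [hab] at hN
  simp only [Sym2.mem_iff] at hN
  constructor
  · rintro ⟨h1, h2⟩ ⟨q', rfl, h3⟩
    have h4 : (univ.filter fun w => s(A i (q' + 1), w) ∈ U) =
        {a, b, A i (q' + 1 + 1), A i q'} := by
      ext w
      simp only [mem_filter, mem_univ, true_and, mem_insert, mem_singleton]
      constructor
      · intro hw
        rcases hN w hw with (h | h) | ⟨-, h⟩ | ⟨p, hp, h⟩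
        · exact Or.inl h
        · exact Or.inr (Or.inl h)
        · exact Or.inr (Or.inr (Or.inl h))
        · obtain rfl : q' = p := by omega
          exact Or.inr (Or.inr (Or.inr h))
      · rintro (rfl | rfl | rfl | rfl)
        exacts [ha, hb, h2, h3]
    have h5 : A i (q' + 1 + 1) ≠ A i q' := fun h => by
      have := (hM.inj i hi i hi _ h1 _ (by omega) h).2
      omega
    have h6 := hA _ h1
    have h7 := hA q' (by omega)
    rw [h4, card_insert_of_notMem (by simp [hne, h6.1, h7.1]),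
      card_insert_of_notMem (by simp [h6.2, h7.2]), card_pair h5] at hodd
    exact absurd hodd (by decide)
  · intro h1
    by_contra h2
    have h4 : (univ.filter fun w => s(A i q, w) ∈ U) = {a, b} := by
      ext w
      simp only [mem_filter, mem_univ, true_and, mem_insert, mem_singleton]
      constructor
      · intro hw
        rcases hN w hw with h | ⟨h3, h⟩ | ⟨p, hp, h⟩
        · exact h
        · exact absurd ⟨h3, h ▸ hw⟩ h2
        · exact absurd ⟨p, hp, h ▸ hw⟩ h1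
      · rintro (rfl | rfl)
        exacts [ha, hb]
    rw [h4, card_pair hne] at hodd
    exact absurd hodd (by decide)

/-- vertices of atoms with an exceptional edge are few -/
theorem unclean (hM : MOD G S m A τ X) :
    num (S ×ˢ range m) (fun x => ∃ v, G.Adj (A x.1 x.2) v ∧
      ¬ (Reg S m A τ (A x.1 x.2) v ∨ Reg S m A τ v (A x.1 x.2))) ≤ X := by
  have h : ∀ x : ι × ℕ, ∃ v : V, (∃ v, G.Adj (A x.1 x.2) v ∧
      ¬ (Reg S m A τ (A x.1 x.2) v ∨ Reg S m A τ v (A x.1 x.2))) → G.Adj (A x.1 x.2) v ∧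
      ¬ (Reg S m A τ (A x.1 x.2) v ∨ Reg S m A τ v (A x.1 x.2)) := fun x => by
    by_cases h : ∃ v, G.Adj (A x.1 x.2) v ∧
        ¬ (Reg S m A τ (A x.1 x.2) v ∨ Reg S m A τ v (A x.1 x.2))
    · obtain ⟨v, hv⟩ := h
      exact ⟨v, fun _ => hv⟩
    · exact ⟨A x.1 x.2, fun h' => absurd h' h⟩
  choose c hc using h
  refine le_trans (num_le_of_injOn (fun x => (A x.1 x.2, c x)) (fun x _ hx => ?_)
    fun x hx _ y hy _ e => ?_) hM.exc
  · exact ⟨mem_univ _, hc x hx⟩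
  · obtain ⟨h1, h2⟩ := mem_product.1 hx
    obtain ⟨h3, h4⟩ := mem_product.1 hy
    obtain ⟨h5, h6⟩ := hM.inj _ h1 _ h3 _ (mem_range.1 h2) _ (mem_range.1 h4) (Prod.mk.inj e).1
    exact Prod.ext h5 h6

/-- the index set of the pairs of vertices -/
abbrev JJ (J K : Type) (m' : ℕ) : Type :=
  (J × Fin (32 * m')) ⊕ ((K × Fin m') × (Fin 3 × Fin 8 × Bool))

section Ends

variable {J K : Type} {m' : ℕ} (ps : Fin 3 → Fin 8 → Bool → Bool → Fin 32)

/-- atom and position of the first end -/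
def fa (f : J → ι) (u : K × Fin 3 → ι) : JJ J K m' → ι × ℕ :=
  Sum.elim (fun x => (f x.1, x.2.1)) fun y =>
    (u (y.1.1, y.2.1), 32 * y.1.2.1 + (ps y.2.1 y.2.2.1 y.2.2.2 true).1)

/-- atom and position of the second end -/
def ga (g : J → ι) (u : K × Fin 3 → ι) : JJ J K m' → ι × ℕ :=
  Sum.elim (fun x => (g x.1, x.2.1)) fun y =>
    (u (y.1.1, y.2.1 + 1), 32 * y.1.2.1 + (ps (y.2.1 + 1) y.2.2.1 y.2.2.2 false).1)

theorem lt_win (w : Fin m') (p : Fin 32) : 32 * w.1 + p.1 < 32 * m' := by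
  have := w.2
  have := p.2
  omega

theorem ends_inj {ps : Fin 3 → Fin 8 → Bool → Bool → Fin 32}
    (hps : ∀ r, Function.Injective fun x : Fin 8 × Bool × Bool => ps r x.1 x.2.1 x.2.2)
    {f g : J → ι} {u : K × Fin 3 → ι} (h : Function.Injective (Sum.elim (Sum.elim f g) u)) :
    Function.Injective (Sum.elim (fa (m' := m') ps f u) (ga (m' := m') ps g u)) := by
  have hff : ∀ {j j'}, f j = f j' → j = j' := fun {j j'} e => by
    simpa using h (a₁ := .inl (.inl j)) (a₂ := .inl (.inl j')) e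
  have hgg : ∀ {j j'}, g j = g j' → j = j' := fun {j j'} e => by
    simpa using h (a₁ := .inl (.inr j)) (a₂ := .inl (.inr j')) e
  have huu : ∀ {k k'}, u k = u k' → k = k' := fun {k k'} e => by
    simpa using h (a₁ := .inr k) (a₂ := .inr k') e
  have hfg : ∀ j j', f j ≠ g j' := fun j j' e => by
    simpa using h (a₁ := .inl (.inl j)) (a₂ := .inl (.inr j')) e
  have hfu : ∀ j k, f j ≠ u k := fun j k e => by
    simpa using h (a₁ := .inl (.inl j)) (a₂ := .inr k) e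
  have hgu : ∀ j k, g j ≠ u k := fun j k e => by
    simpa using h (a₁ := .inl (.inr j)) (a₂ := .inr k) e
  have hw : ∀ {k k' : K} {r r' : Fin 3} {w w' : Fin m'} {s s' : Fin 8} {e e' d d' : Bool},
      (u (k, r), 32 * w.1 + (ps r s e d).1) = (u (k', r'), 32 * w'.1 + (ps r' s' e' d').1) →
      k = k' ∧ r = r' ∧ w = w' ∧ s = s' ∧ e = e' ∧ d = d' := by
    intro k k' r r' w w' s s' e e' d d' h1
    obtain ⟨h2, h3⟩ := Prod.mk.inj h1
    obtain ⟨rfl, rfl⟩ := Prod.mk.inj (huu h2)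
    have h4 := (ps r s e d).2
    have h5 := (ps r s' e' d').2
    have h6 : (s, e, d) = (s', e', d') := hps r (Fin.ext (by simp only; omega))
    simp only [Prod.mk.injEq] at h6
    exact ⟨rfl, rfl, Fin.ext (by omega), h6⟩
  rintro ((⟨j, p⟩ | ⟨⟨k, w⟩, r, s, e⟩) | (⟨j, p⟩ | ⟨⟨k, w⟩, r, s, e⟩))
    ((⟨j', p'⟩ | ⟨⟨k', w'⟩, r', s', e'⟩) | (⟨j', p'⟩ | ⟨⟨k', w'⟩, r', s', e'⟩)) h1
  · obtain ⟨h2, h3⟩ := Prod.mk.inj h1
    obtain rfl : j = j' := hff h2
    obtain rfl : p = p' := Fin.ext h3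
    rfl
  · exact absurd (Prod.mk.inj h1).1 (hfu _ _)
  · exact absurd (Prod.mk.inj h1).1 (hfg _ _)
  · exact absurd (Prod.mk.inj h1).1 (hfu _ _)
  · exact absurd (Prod.mk.inj h1).1.symm (hfu _ _)
  · obtain ⟨rfl, rfl, rfl, rfl, rfl, -⟩ := hw h1
    rfl
  · exact absurd (Prod.mk.inj h1).1.symm (hgu _ _)
  · exact absurd (hw h1).2.2.2.2.2 (by decide)
  · exact absurd (Prod.mk.inj h1).1.symm (hfg _ _)
  · exact absurd (Prod.mk.inj h1).1 (hgu _ _)
  · obtain ⟨h2, h3⟩ := Prod.mk.inj h1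
    obtain rfl : j = j' := hgg h2
    obtain rfl : p = p' := Fin.ext h3
    rfl
  · exact absurd (Prod.mk.inj h1).1 (hgu _ _)
  · exact absurd (Prod.mk.inj h1).1.symm (hfu _ _)
  · exact absurd (hw h1).2.2.2.2.2 (by decide)
  · exact absurd (Prod.mk.inj h1).1.symm (hgu _ _)
  · obtain ⟨rfl, h2, rfl, rfl, rfl, -⟩ := hw h1
    obtain rfl : r = r' := add_right_cancel h2
    rfl

end Ends

theorem sum_ge {W : Fin 3 × Fin 8 × Bool → ℕ} (h : ∀ t, 2 ≤ W t) :
    97 ≤ ∑ t, W t + if ∀ t, W t < 4 then 1 else 0 := by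
  split_ifs with h1
  · have h2 : ∑ _t : Fin 3 × Fin 8 × Bool, 2 ≤ ∑ t, W t := sum_le_sum fun t _ => h t
    simp only [sum_const, card_univ, Fintype.card_prod, Fintype.card_fin, Fintype.card_bool,
      smul_eq_mul] at h2
    omega
  · push Not at h1
    obtain ⟨t₀, h1⟩ := h1
    have h2 : ∑ t : Fin 3 × Fin 8 × Bool, (2 + if t = t₀ then 1 else 0) ≤ ∑ t, W t :=
      sum_le_sum fun t _ => by
        have := h t
        split_ifs with h3
        · rw [h3]
          omega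
        · omega
    simp only [sum_add_distrib, sum_const, card_univ, Fintype.card_prod, Fintype.card_fin,
      Fintype.card_bool, smul_eq_mul, sum_ite_eq', mem_univ, if_true] at h2
    omega

end MLa

open MLa

theorem gadget : GadgetStmt := by
  classical
  refine ⟨pos, fun r => ?_, fun right ex h => ?_⟩
  · exact (Fintype.bijective_iff_injective_and_card _).2 ⟨fun x y e => pos_inj r x y e, by simp⟩
  · obtain ⟨k, hk⟩ := pos_phase (decide (right 0 0)) (decide (right 1 0)) (decide (right 2 0))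
    have h1 : ∀ r, right r (pos r k true false) := fun r => by
      rw [alt_even (h r) _ (pos r k true false).2, (hk r).2]
      fin_cases r <;> simp
    by_cases h01 : ex 0 k true ↔ ex 1 k true
    · exact ⟨0, k, true, (hk _).1, h1 _, h01⟩
    by_cases h12 : ex 1 k true ↔ ex 2 k true
    · exact ⟨1, k, true, (hk _).1, h1 _, h12⟩
    · refine ⟨2, k, true, (hk _).1, h1 _, ?_⟩
      change ex 2 k true ↔ ex 0 k true
      tauto

theorem ml (h1 : PathSysStmt) (h2 : WalkStmt) (h3 : TotalStmt) (h4 : GadgetStmt) : MLStmt := by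
  intro V ι _ G S m' A τ X E hPP hM hm' hE ρ hρ l σ hAdm J K _ _ f g u cost hinj hf hg hu hcost
    htri
  classical
  obtain ⟨ps, hbij, hgad⟩ := h4
  have hends := ends_inj (m' := m') (fun r => (hbij r).1) hinj
  have hfa : ∀ j : JJ J K m', (fa ps f u j).1 ∈ S ∧ (fa ps f u j).2 < 32 * m' := by
    rintro (x | y)
    · exact ⟨hf _, x.2.2⟩
    · exact ⟨hu _, lt_win _ _⟩
  have hga : ∀ j : JJ J K m', (ga ps g u j).1 ∈ S ∧ (ga ps g u j).2 < 32 * m' := by
    rintro (x | y)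
    · exact ⟨hg _, x.2.2⟩
    · exact ⟨hu _, lt_win _ _⟩
  have hel : ∀ z : JJ J K m' ⊕ JJ J K m', (Sum.elim (fa ps f u) (ga ps g u) z).1 ∈ S ∧
      (Sum.elim (fa ps f u) (ga ps g u) z).2 < 32 * m' := by
    rintro (j | j)
    exacts [hfa j, hga j]
  obtain ⟨P, U, hU, hsum, hodd, htwo⟩ := h1 V (JJ J K m') G
    (fun j => A (fa ps f u j).1 (fa ps f u j).2) (fun j => A (ga ps g u j).1 (ga ps g u j).2) hPP
    (fun z z' e => hends (by
      have e' : A (Sum.elim (fa ps f u) (ga ps g u) z).1 (Sum.elim (fa ps f u) (ga ps g u) z).2 =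
          A (Sum.elim (fa ps f u) (ga ps g u) z').1 (Sum.elim (fa ps f u) (ga ps g u) z').2 := by
        rcases z with j | j <;> rcases z' with j' | j' <;> exact e
      obtain ⟨e1, e2⟩ := hM.inj _ (hel z).1 _ (hel z').1 _ (hel z).2 _ (hel z').2 e'
      exact Prod.ext e1 e2))
  have hUG : ∀ e ∈ U, e ∈ G.edgeSet := fun e he => by
    obtain ⟨j, hj⟩ := (hU e).1 he
    exact (P j).edges_subset_edgeSet hj
  have htot := h3 V ι G S (32 * m') A τ X ρ l σ hM hAdm U hUG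
  rw [← hsum] at htot
  set W : JJ J K m' → ℕ := fun j => ((P j).edges.map (wt S (32 * m') A τ l)).sum with hW
  have hne : ∀ j : JJ J K m', (fa ps f u j).1 ≠ (ga ps g u j).1 := by
    rintro (x | y) e
    · simpa using hinj (a₁ := .inl (.inl x.1)) (a₂ := .inl (.inr x.1)) e
    · have e' : (y.1.1, y.2.1) = (y.1.1, y.2.1 + 1) := by
        simpa using hinj (a₁ := .inr (y.1.1, y.2.1)) (a₂ := .inr (y.1.1, y.2.1 + 1)) e
      have h5 : ∀ r : Fin 3, r ≠ r + 1 := by decide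
      exact h5 _ (Prod.mk.inj e').2
  have hwalk := fun j : JJ J K m' => h2 V ι G S (32 * m') A τ X ρ l σ hM hρ hAdm _ (hfa j).1 _
    (hga j).1 (hne j) _ (hfa j).2 _ (hga j).2 (P j)
  have hW1 : ∀ x : J × Fin (32 * m'), cost x.1 ≤ W (.inl x) := fun x =>
    (hwalk (.inl x)).1 _ (hcost x.1)
  have hW2 : ∀ y : (K × Fin m') × (Fin 3 × Fin 8 × Bool), 2 ≤ W (.inr y) := fun y =>
    (hwalk (.inr y)).1 2 fun a ha b hb => by
      have e1 := (htri y.1.1 y.2.1).2.1 a ha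
      have e2 := (htri y.1.1 (y.2.1 + 1)).2.1 b hb
      change 2 ≤ l (u (y.1.1, y.2.1)) a + ρ a b + l (u (y.1.1, y.2.1 + 1)) b
      omega
  have hW3 : ∀ (y : (K × Fin m') × (Fin 3 × Fin 8 × Bool)) (a b : V),
      τ (u (y.1.1, 0)) = s(a, b) → a ∈ (P (.inr y)).support → b ∈ (P (.inr y)).support →
      4 ≤ W (.inr y) := fun y a b hab ha hb => by
    have e1 : τ (u (y.1.1, y.2.1)) = s(a, b) := (htri _ _).1.trans hab
    have e2 : τ (u (y.1.1, y.2.1 + 1)) = s(a, b) := (htri _ _).1.trans hab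
    refine (hwalk (.inr y)).2 a b e1 e2 ?_ ?_ ?_ ?_ ((htri _ _).2.2 a b e1)
      ((htri _ _).2.2 b a (e1.trans Sym2.eq_swap)) ha hb
    · exact (htri _ _).2.1 a (e1 ▸ Sym2.mem_mk_left a b)
    · exact (htri _ _).2.1 b (e1 ▸ Sym2.mem_mk_right a b)
    · exact (htri _ _).2.1 a (e2 ▸ Sym2.mem_mk_left a b)
    · exact (htri _ _).2.1 b (e2 ▸ Sym2.mem_mk_right a b)
  set D : ι × ℕ → Prop := fun x => (∃ v, G.Adj (A x.1 x.2) v ∧
      ¬ (Reg S (32 * m') A τ (A x.1 x.2) v ∨ Reg S (32 * m') A τ v (A x.1 x.2))) ∨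
    ∃ a ∈ τ x.1, 1 ≤ l x.1 a ∧ s(A x.1 x.2, a) ∉ U with hD
  have hwin : ∀ x : K × Fin m', (∀ t, W (.inr (x, t)) < 4) →
      ∃ (r : Fin 3) (p : Fin 32), D (u (x.1, r), 32 * x.2.1 + p.1) := by
    rintro ⟨k, w⟩ hx
    by_contra hc
    push Not at hc
    obtain ⟨a, b, hab⟩ : ∃ a b, τ (u (k, 0)) = s(a, b) := by
      induction τ (u (k, 0)) using Sym2.ind with
      | _ a b => exact ⟨a, b, rfl⟩
    have hτ : ∀ r, τ (u (k, r)) = s(a, b) := fun r => (htri k r).1.trans hab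
    have hN : ∀ (r : Fin 3) (p : Fin 32) (v : V), s(A (u (k, r)) (32 * w.1 + p.1), v) ∈ U →
        v ∈ τ (u (k, r)) ∨ (32 * w.1 + p.1 + 1 < 32 * m' ∧ v = A (u (k, r)) (32 * w.1 + p.1 + 1)) ∨
          ∃ q', 32 * w.1 + p.1 = q' + 1 ∧ v = A (u (k, r)) q' := fun r p v hv => by
      refine nbr hM (hu _) (lt_win w p) ?_
      by_contra h5
      exact hc r p (Or.inl ⟨v, hUG _ hv, h5⟩)
    have hub : ∀ (r : Fin 3) (p : Fin 32), ∀ c ∈ τ (u (k, r)),
        s(A (u (k, r)) (32 * w.1 + p.1), c) ∈ U := fun r p c h5 => by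
      by_contra h6
      exact hc r p (Or.inr ⟨c, h5, ((htri k r).2.1 c h5).ge, h6⟩)
    have ha : ∀ r, a ∈ τ (u (k, r)) := fun r => hτ r ▸ Sym2.mem_mk_left a b
    have hb : ∀ r, b ∈ τ (u (k, r)) := fun r => hτ r ▸ Sym2.mem_mk_right a b
    have hpar : ∀ (r : Fin 3) (p : Fin 32), (32 * w.1 + p.1 + 1 < 32 * m' ∧
        s(A (u (k, r)) (32 * w.1 + p.1), A (u (k, r)) (32 * w.1 + p.1 + 1)) ∈ U) ↔
        ¬ ∃ q', 32 * w.1 + p.1 = q' + 1 ∧
          s(A (u (k, r)) (32 * w.1 + p.1), A (u (k, r)) q') ∈ U := fun r p => by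
      refine parity hM (hu _) (lt_win w p) (hτ r) (hN r p) (hub r p a (ha r)) (hub r p b (hb r)) ?_
      obtain ⟨⟨s, e, d⟩, rfl⟩ := (hbij r).2 p
      cases d
      · obtain ⟨r', rfl⟩ : ∃ r', r = r' + 1 := ⟨r - 1, (sub_add_cancel r 1).symm⟩
        exact hodd (.inr ((k, w), r', s, e)) _ (Or.inr rfl)
      · exact hodd (.inr ((k, w), r, s, e)) _ (Or.inl rfl)
    obtain ⟨r, s, e, g1, ⟨g2, g3⟩, g4⟩ := hgad
      (fun r p => 32 * w.1 + p + 1 < 32 * m' ∧
        s(A (u (k, r)) (32 * w.1 + p), A (u (k, r)) (32 * w.1 + p + 1)) ∈ U)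
      (fun r s e => a ∈ (P (.inr ((k, w), r, s, e))).support) (fun r p hp => by
        refine (hpar r ⟨p + 1, hp⟩).trans (not_congr ⟨?_, fun h5 => ⟨32 * w.1 + p, rfl, ?_⟩⟩)
        · rintro ⟨q', h5, h6⟩
          obtain rfl : q' = 32 * w.1 + p := by
            simp only at h5
            omega
          exact ⟨lt_win w ⟨p + 1, hp⟩, Sym2.eq_swap ▸ h6⟩
        · exact Sym2.eq_swap ▸ h5.2)
    have hjj : (Sum.inr ((k, w), r, s, e) : JJ J K m') ≠ .inr ((k, w), r + 1, s, e) := fun h5 => by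
      have h6 : ∀ r : Fin 3, r ≠ r + 1 := by decide
      simp only [Sum.inr.injEq, Prod.mk.injEq, true_and, and_true] at h5
      exact h6 r h5
    have hp1 : 32 * w.1 + (ps (r + 1) s e true).1 = 32 * w.1 + (ps (r + 1) s e false).1 + 1 := by
      omega
    have hv : ∀ v, s(A (u (k, r + 1)) (32 * w.1 + (ps (r + 1) s e false).1), v) ∈ U →
        (v = a ∨ v = b) ∨ v = A (u (k, r + 1)) (32 * w.1 + (ps (r + 1) s e true).1) := by
      intro v h5
      rcases hN _ _ v h5 with h6 | ⟨-, h6⟩ | ⟨q', h6, h7⟩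
      · exact Or.inl (by simpa [hτ] using h6)
      · exact Or.inr (hp1 ▸ h6)
      · exact absurd ⟨q', h6, h7 ▸ h5⟩ ((hpar _ _).1 ⟨g2, g3⟩)
    have hv' : ∀ v, s(A (u (k, r + 1)) (32 * w.1 + (ps (r + 1) s e true).1), v) ∈ U →
        (v = a ∨ v = b) ∨ v = A (u (k, r + 1)) (32 * w.1 + (ps (r + 1) s e false).1) := by
      intro v h5
      rcases hN _ _ v h5 with h6 | ⟨h6, h7⟩ | ⟨q', h6, h7⟩
      · exact Or.inl (by simpa [hτ] using h6)
      · refine absurd ⟨_, hp1, ?_⟩ ((hpar _ _).1 ⟨h6, h7 ▸ h5⟩)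
        rw [hp1, Sym2.eq_swap]
        exact g3
      · obtain rfl : q' = 32 * w.1 + (ps (r + 1) s e false).1 := by omega
        exact Or.inr h7
    have k1 := htwo _ _ _ _ a b hjj (Or.inr rfl) (Or.inl rfl) (fun v h5 => or_assoc.1 (hv v h5))
      (fun v h5 => or_assoc.1 (hv' v h5)) (hub _ _ b (hb _)) (hub _ _ b (hb _))
    have k2 := htwo _ _ _ _ b a hjj (Or.inr rfl) (Or.inl rfl)
      (fun v h5 => or_assoc.1 ((hv v h5).imp_left Or.symm))
      (fun v h5 => or_assoc.1 ((hv' v h5).imp_left Or.symm)) (hub _ _ a (ha _)) (hub _ _ a (ha _))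
    rcases k1 with k1 | k1
    · exact absurd (hW3 ((k, w), r, s, e) a b hab (k2.elim id g4.2) k1) (not_le.2 (hx _))
    · exact absurd (hW3 ((k, w), r + 1, s, e) a b hab (k2.elim g4.1 id) k1) (not_le.2 (hx _))
  have hbad : num univ (fun x : K × Fin m' => ∀ t, W (.inr (x, t)) < 4) ≤
      num (S ×ˢ range (32 * m')) D := by
    have h5 : ∀ x : K × Fin m', ∃ z : Fin 3 × Fin 32, (∀ t, W (.inr (x, t)) < 4) →
        D (u (x.1, z.1), 32 * x.2.1 + z.2.1) := fun x => by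
      by_cases h6 : ∀ t, W (.inr (x, t)) < 4
      · obtain ⟨r, p, h7⟩ := hwin x h6
        exact ⟨(r, p), fun _ => h7⟩
      · exact ⟨(0, 0), fun h7 => absurd h7 h6⟩
    choose c hc using h5
    refine num_le_of_injOn (fun x => (u (x.1, (c x).1), 32 * x.2.1 + (c x).2.1))
      (fun x _ hx => ⟨mem_product.2 ⟨hu _, mem_range.2 (lt_win _ _)⟩, hc x hx⟩)
      fun x _ _ y _ _ e => ?_
    obtain ⟨e1, e2⟩ := Prod.mk.inj e
    have e3 : (x.1, (c x).1) = (y.1, (c y).1) := by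
      simpa using hinj (a₁ := .inr (x.1, (c x).1)) (a₂ := .inr (y.1, (c y).1)) e1
    have e4 := (c x).2.2
    have e5 := (c y).2.2
    exact Prod.ext (Prod.mk.inj e3).1 (Fin.ext (by omega))
  have hD2 := (num_or_le (S ×ˢ range (32 * m')) _ _).trans' hbad
  have hD3 := unclean hM
  have hs1 : 32 * m' * ∑ j, cost j ≤ ∑ x : J × Fin (32 * m'), W (.inl x) := by
    refine le_trans (le_of_eq ?_) (sum_le_sum fun x _ => hW1 x)
    rw [Fintype.sum_prod_type, mul_sum]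
    simp
  have hs2 : 97 * (Fintype.card K * m') ≤
      ∑ y : (K × Fin m') × (Fin 3 × Fin 8 × Bool), W (.inr y) +
        num univ (fun x : K × Fin m' => ∀ t, W (.inr (x, t)) < 4) := by
    rw [Fintype.sum_prod_type, num_eq_sum, ← sum_add_distrib]
    refine le_trans (le_of_eq ?_) (sum_le_sum fun x _ => sum_ge fun t => hW2 (x, t))
    simp [mul_comm]
  have hs3 := Fintype.sum_sum_type W
  change ∑ j, W j + _ ≤ _ at htot
  refine Nat.le_of_mul_le_mul_left ?_ hm'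
  have h5 : m' * (32 * ∑ j, cost j + 97 * Fintype.card K) =
      32 * m' * ∑ j, cost j + 97 * (Fintype.card K * m') := by ring
  have h6 : m' * (32 * ∑ i ∈ S, σ i + E) = 32 * m' * ∑ i ∈ S, σ i + m' * E := by ring
  rw [h5, h6]
  linarith

end Pool.Agent.Lib.MP_453ac3_co.LB
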