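import Pool.Agent.Lib.MP_453ac3_co.LB.St

namespace Pool.Agent.Lib.MP_453ac3_co.LB

open Finset

theorem shrink : ShrinkStmt := by
  classical
  intro W ι S S' τ E hS h ρ hρ l σ hA J K _ _ f g u cost hinj hf hg hu hc ht
  have key := h ρ hρ (fun i => if i ∈ S' then l i else fun _ => 4)
    (fun i => if i ∈ S' then σ i else 8) ?_ J K f g u cost hinj (fun j => hS (hf j))
    (fun j => hS (hg j)) (fun k => hS (hu k)) ?_ ?_
  · have e : ∑ i ∈ S, (if i ∈ S' then σ i else 8) = ∑ i ∈ S', σ i + 8 * (S.card - S'.card) := by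
      rw [← sum_sdiff hS, add_comm, ← card_sdiff_of_subset hS]
      congr 1
      · exact sum_congr rfl fun i hi => if_pos hi
      · rw [sum_congr rfl fun i hi => if_neg (mem_sdiff.1 hi).2, sum_const, smul_eq_mul, mul_comm]
    rw [e] at key
    omega
  · intro i _
    by_cases hi : i ∈ S'
    · simpa only [if_pos hi] using hA i hi
    · simp only [if_neg hi]
      exact ⟨fun _ => by norm_num, fun a b _ => ⟨hρ.bd a b, le_rfl⟩⟩
  · intro j
    simpa only [if_pos (hf j), if_pos (hg j)] using hc j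
  · intro k r
    simpa only [if_pos (hu (k, r))] using ht k r

namespace MLXa

/-- slots with labels can be placed injectively on atoms with the same labels -/
theorem emb {T Λ ι : Type} [Fintype T] (lab : T → Λ) (S : Finset ι) (lb : ι → Λ)
    (h : ∀ lam, num univ (fun s => lab s = lam) ≤ num S fun i => lb i = lam) :
    ∃ φ : T → ι, Function.Injective φ ∧ ∀ s, φ s ∈ S ∧ lb (φ s) = lab s := by
  classical
  have h1 : ∀ lam, Nonempty ({s // lab s = lam} ↪ {i // i ∈ S.filter fun i => lb i = lam}) := by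
    intro lam
    apply Function.Embedding.nonempty_of_card_le
    have := h lam
    rw [num_eq, num_eq] at this
    rwa [Fintype.card_subtype, Fintype.card_coe]
  let e := fun lam => Classical.choice (h1 lam)
  have h2 : ∀ s, ((e (lab s) ⟨s, rfl⟩ : ι)) ∈ S ∧ lb (e (lab s) ⟨s, rfl⟩ : ι) = lab s :=
    fun s => mem_filter.1 (e (lab s) ⟨s, rfl⟩).2
  have h3 : ∀ s lam (hs : lab s = lam), ((e (lab s) ⟨s, rfl⟩ : ι)) = (e lam ⟨s, hs⟩ : ι) := by
    intro s lam hs
    subst hs
    rfl
  refine ⟨fun s => (e (lab s) ⟨s, rfl⟩ : ι), fun s t hst => ?_, h2⟩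
  have hl : lab t = lab s := by
    rw [← (h2 s).2, ← (h2 t).2]
    exact congrArg lb hst.symm
  have h4 : ((e (lab s) ⟨s, rfl⟩ : ι)) = (e (lab s) ⟨t, hl⟩ : ι) := hst.trans (h3 t _ hl)
  exact congrArg Subtype.val ((e (lab s)).injective (Subtype.ext h4))

theorem sum_slots {J Λ : Type} [Fintype J] [DecidableEq Λ] (z : J → ℕ) (f : J → Λ) (lam : Λ) :
    (∑ s : (Σ j, Fin (z j)), if f s.1 = lam then 1 else 0) =
      ∑ j, if f j = lam then z j else 0 := by
  rw [Fintype.sum_sigma]
  refine sum_congr rfl fun j _ => ?_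
  by_cases h : f j = lam <;> simp [h]

theorem adm_pull {W W' : Type} (ψ : W → W') {ρ : W' → W' → ℕ} {t : Sym2 W} {l : W' → ℕ} {σ : ℕ}
    (h : Adm ρ (t.map ψ) l σ) : Adm (fun a b => ρ (ψ a) (ψ b)) t (fun a => l (ψ a)) σ :=
  ⟨fun a => h.1 _, fun a b e => h.2 _ _ (by rw [e, Sym2.map_mk])⟩

end MLXa

theorem mlx : MLXStmt := by
  classical
  intro W W' ι _ _ S τ E ψ h ρ hρ σ hd J _ f g z cost y hz hy hx
  let lb : ι → Sym2 W' := fun i => (τ i).map ψ
  let J' := Σ j, Fin (z j)
  let K := Σ lam, Fin (y lam)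
  let lab : (J' ⊕ J') ⊕ K × Fin 3 → Sym2 W' :=
    Sum.elim (Sum.elim (fun s => f s.1) fun s => g s.1) fun s => s.1.1
  obtain ⟨φ, hφ, hφ'⟩ := MLXa.emb lab S lb fun lam => by
    refine le_trans (le_of_eq ?_) (hx lam)
    rw [num_eq_sum, Fintype.sum_sum_type, Fintype.sum_sum_type, Fintype.sum_prod_type]
    congr 1
    · congr 1
      · exact MLXa.sum_slots z f lam
      · exact MLXa.sum_slots z g lam
    · have := MLXa.sum_slots y id lam
      simp only [id, sum_ite_eq', mem_univ, if_true] at this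
      rw [← this, mul_sum]
      refine sum_congr rfl fun s _ => ?_
      by_cases hs : s.1 = lam <;> simp [lab, hs]
  have hz' : ∀ s : J', ∃ l l', Adm ρ (f s.1) l (σ (f s.1)) ∧ Adm ρ (g s.1) l' (σ (g s.1)) ∧
      ∀ a ∈ f s.1, ∀ b ∈ g s.1, cost s.1 ≤ l a + ρ a b + l' b :=
    fun s => hz s.1 (Nat.lt_of_le_of_lt (Nat.zero_le _) s.2.2)
  choose l1 l2 hl1 hl2 hl3 using hz'
  have hy' : ∀ k : K, (∀ i ∈ S, ∀ i' ∈ S, lb i = k.1 → lb i' = k.1 → τ i = τ i') ∧ 2 ≤ σ k.1 ∧
      ∀ a b, k.1 = s(a, b) → ρ a b = 2 :=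
    fun k => hy k.1 (Nat.lt_of_le_of_lt (Nat.zero_le _) k.2.2)
  have hd' : ∀ i, ∃ l, i ∈ S → Adm ρ (lb i) l (σ (lb i)) := by
    intro i
    by_cases hi : i ∈ S
    · obtain ⟨l, hl⟩ := hd (lb i) (num_pos.2 ⟨i, hi, rfl⟩)
      exact ⟨l, fun _ => hl⟩
    · exact ⟨fun _ => 0, fun h => absurd h hi⟩
  choose d hd2 using hd'
  let L : (J' ⊕ J') ⊕ K × Fin 3 → W' → ℕ := Sum.elim (Sum.elim l1 l2) fun _ _ => 1
  have hL : ∀ s, Adm ρ (lab s) (L s) (σ (lab s)) := by
    rintro ((s | s) | ⟨k, r⟩)
    · exact hl1 s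
    · exact hl2 s
    · exact ⟨fun _ => by simp [L], fun a b e =>
        ⟨((hy' k).2.2 a b e).le, (hy' k).2.1⟩⟩
  let l : ι → W' → ℕ := Function.extend φ L d
  have hl : ∀ s, l (φ s) = L s := fun s => hφ.extend_apply L d s
  have hm : ∀ s, ∀ a ∈ τ (φ s), ψ a ∈ lab s := fun s a ha => by
    rw [← (hφ' s).2]
    exact Sym2.mem_map.2 ⟨a, ha, rfl⟩
  have key := h (fun a b => ρ (ψ a) (ψ b))
    ⟨fun a => hρ.refl _, fun a b c => hρ.tri _ _ _, fun a b => hρ.bd _ _⟩
    (fun i a => l i (ψ a)) (fun i => σ (lb i)) ?_ J' K (fun s => φ (.inl (.inl s)))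
    (fun s => φ (.inl (.inr s))) (fun s => φ (.inr s)) (fun s => cost s.1) ?_
    (fun s => (hφ' _).1) (fun s => (hφ' _).1) (fun s => (hφ' _).1) ?_ ?_
  · have e1 : ∑ s : J', cost s.1 = ∑ j, z j * cost j := by
      rw [Fintype.sum_sigma]
      simp
    have e2 : Fintype.card K = ∑ lam, y lam := by simp [K]
    have e3 : ∑ i ∈ S, σ (lb i) = ∑ lam, (num S fun i => (τ i).map ψ = lam) * σ lam := by
      rw [← sum_fiberwise S lb]
      refine sum_congr rfl fun lam _ => ?_
      rw [sum_congr rfl fun i hi => congrArg σ (mem_filter.1 hi).2, sum_const, smul_eq_mul, num_eq]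
    rw [e1, e2, e3] at key
    exact key
  · intro i hi
    apply MLXa.adm_pull
    by_cases hs : ∃ s, φ s = i
    · obtain ⟨s, rfl⟩ := hs
      have := hL s
      rw [← (hφ' s).2, ← hl s] at this
      exact this
    · have e : l i = d i := Function.extend_apply' L d i hs
      rw [e]
      exact hd2 i hi
  · have e : Sum.elim (Sum.elim (fun s => φ (.inl (.inl s))) fun s => φ (.inl (.inr s)))
        (fun s => φ (.inr s)) = φ := by
      funext s
      rcases s with (s | s) | s <;> rfl
    rw [e]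
    exact hφ
  · intro s a ha b hb
    simp only [hl]
    exact hl3 s _ (hm _ a ha) _ (hm _ b hb)
  · intro k r
    refine ⟨(hy' k).1 _ (hφ' _).1 _ (hφ' _).1 (hφ' _).2 (hφ' _).2, fun a _ => ?_, fun a b e => ?_⟩
    · simp only [hl]
      rfl
    · refine ((hy' k).2.2 _ _ ?_).ge
      have := (hφ' (.inr (k, r))).2
      simp only [lb, e, Sym2.map_mk] at this
      exact this.symm

namespace MLXa

theorem sum_sym2 (F : Sym2 Bool → ℕ) :
    ∑ lam, F lam = F s(true, true) + F s(false, false) + F s(true, false) := by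
  have e : (univ : Finset (Sym2 Bool)) = {s(true, true), s(false, false), s(true, false)} := by
    decide
  rw [e, sum_insert (by decide), sum_insert (by decide), sum_singleton, add_assoc]

theorem cases_sym2 (lam : Sym2 Bool) :
    lam = s(true, true) ∨ lam = s(false, false) ∨ lam = s(true, false) := by
  revert lam
  decide

def r (a b : Bool) : ℕ := if a = b then 0 else 1

def sg (lam : Sym2 Bool) : ℕ := if lam = s(true, false) then 1 else 0

def f4 : Fin 4 → Sym2 Bool := ![s(true, true), s(true, true), s(true, false), s(true, false)]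

def g4 : Fin 4 → Sym2 Bool := ![s(false, false), s(true, false), s(false, false), s(true, false)]

def l4 : Fin 4 → Bool → ℕ := ![fun _ => 0, fun _ => 0, fun a => if a then 0 else 1,
  fun a => if a then 1 else 0]

def m4 : Fin 4 → Bool → ℕ := ![fun _ => 0, fun a => if a then 1 else 0, fun _ => 0,
  fun a => if a then 0 else 1]

theorem items (j : Fin 4) : Adm r (f4 j) (l4 j) (sg (f4 j)) ∧ Adm r (g4 j) (m4 j) (sg (g4 j)) ∧
    ∀ a ∈ f4 j, ∀ b ∈ g4 j, 1 ≤ l4 j a + r a b + m4 j b := by
  unfold Adm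
  revert j
  decide

theorem bool {x : Sym2 Bool → ℕ} {T : Sym2 Bool → Prop} {E : ℕ} (h : MLX x T E)
    (z0 z1 z2 z3 : ℕ) (h1 : z0 + z1 ≤ x s(true, true)) (h2 : z0 + z2 ≤ x s(false, false))
    (h3 : z1 + z2 + 2 * z3 ≤ x s(true, false)) :
    32 * (z0 + z1 + z2 + z3) ≤ 32 * x s(true, false) + E := by
  have key := h r ⟨by decide, by decide, by decide⟩ sg ?_ (Fin 4) f4 g4 ![z0, z1, z2, z3]
    (fun _ => 1) (fun _ => 0) (fun j _ => ⟨_, _, items j⟩) (fun _ h => absurd h (lt_irrefl 0)) ?_
  · rw [Fin.sum_univ_four, sum_sym2 fun lam => x lam * sg lam] at key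
    have e1 : sg s(true, true) = 0 := by decide
    have e2 : sg s(false, false) = 0 := by decide
    have e3 : sg s(true, false) = 1 := by decide
    simp only [e1, e2, e3, mul_one, mul_zero, sum_const_zero, add_zero, zero_add] at key
    exact key
  · intro lam _
    rcases cases_sym2 lam with rfl | rfl | rfl
    · exact ⟨_, (items 0).1⟩
    · exact ⟨_, (items 0).2.1⟩
    · exact ⟨_, (items 2).1⟩
  · intro lam
    rw [Fin.sum_univ_four, Fin.sum_univ_four]
    rcases cases_sym2 lam with rfl | rfl | rfl <;> simp [f4, g4] <;> omega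

end MLXa

theorem acut (h : MLXStmt) : ACutStmt := by
  classical
  intro W ι S τ E U hM
  have hX := h W Bool ι S τ E (fun a => decide (U a)) hM
  have key := fun z0 z1 z2 z3 => MLXa.bool hX z0 z1 z2 z3
  have e1 : num S (fun i => ∀ a ∈ τ i, U a) =
      num S fun i => (τ i).map (fun a => decide (U a)) = s(true, true) := by
    refine num_congr fun i _ => ?_
    induction τ i using Sym2.ind with
    | _ a b => simp
  have e2 : num S (fun i => ∀ a ∈ τ i, ¬ U a) =
      num S fun i => (τ i).map (fun a => decide (U a)) = s(false, false) := by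
    refine num_congr fun i _ => ?_
    induction τ i using Sym2.ind with
    | _ a b => simp
  have e3 : S.card = ∑ lam, num S fun i => (τ i).map (fun a => decide (U a)) = lam := by
    rw [card_eq_sum_card_fiberwise (f := fun i => (τ i).map fun a => decide (U a))
      (t := univ) fun _ _ => mem_univ _]
    exact sum_congr rfl fun lam _ => (num_eq _ _).symm
  rw [MLXa.sum_sym2] at e3
  rw [e1, e2, e3]
  generalize (num S fun i => (τ i).map (fun a => decide (U a)) = s(true, true)) = I at key ⊢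
  generalize (num S fun i => (τ i).map (fun a => decide (U a)) = s(false, false)) = O at key ⊢
  generalize (num S fun i => (τ i).map (fun a => decide (U a)) = s(true, false)) = B at key ⊢
  by_cases c1 : O + B ≤ I
  · have := key O B 0 0 (by omega) (by omega) (by omega)
    omega
  by_cases c2 : I + B ≤ O
  · have := key I 0 B 0 (by omega) (by omega) (by omega)
    omega
  have := key (min I O) (I - O) (O - I) ((B - (I - O) - (O - I)) / 2) (by omega) (by omega)
    (by omega)
  omega

theorem tri (h : ACutStmt) : TriStmt := by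
  classical
  intro W ι S τ E hM hnd hst hE hN a b c hab hac hbc
  have key := h W ι S τ E (fun w => w = a ∨ w = b ∨ w = c) hM
  have h1 : num S (fun i => τ i = s(a, b)) + num S (fun i => τ i = s(a, c)) +
      num S (fun i => τ i = s(b, c)) ≤ num S fun i => ∀ w ∈ τ i, w = a ∨ w = b ∨ w = c := by
    simp only [num_eq_sum, ← sum_add_distrib]
    refine sum_le_sum fun i _ => ?_
    induction τ i using Sym2.ind with
    | _ u v =>
      simp only [Sym2.eq_iff, Sym2.mem_iff, forall_eq_or_imp, forall_eq]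
      split_ifs <;> first | omega | grind
  have h2 : S.card + num S (fun i => ∀ w ∈ τ i, w = a ∨ w = b ∨ w = c) ≤
      star S τ a + star S τ b + star S τ c +
        num S fun i => ∀ w ∈ τ i, ¬ (w = a ∨ w = b ∨ w = c) := by
    unfold star
    simp only [num_eq_sum, card_eq_sum_ones S, ← sum_add_distrib]
    refine sum_le_sum fun i hi => ?_
    have := hnd i hi
    revert this
    induction τ i using Sym2.ind with
    | _ u v =>
      intro hd
      simp only [Sym2.mk_isDiag_iff] at hd
      simp only [Sym2.mem_iff, forall_eq_or_imp, forall_eq]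
      split_ifs <;> first | omega | grind
  have s1 := hst a
  have s2 := hst b
  have s3 := hst c
  omega

end Pool.Agent.Lib.MP_453ac3_co.LB
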