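import Pool.Agent.Lib.MP_453ac3_co.LB.St

namespace Pool.Agent.Lib.MP_453ac3_co.LB

open Finset

namespace Mader

/-- two distinct labels with touching bags -/
def T {V ι : Type} (G : SimpleGraph V) (bag : ι → Set V) (u v : ι) : Prop :=
  u ≠ v ∧ Touch G (bag u) (bag v)

/-- the clique minor conclusion -/
def Concl {V ι : Type} (G : SimpleGraph V) (k : ℕ) (S : Finset ι) (bag : ι → Set V) : Prop :=
  ∃ f : Fin k → Set V, (∀ i, (G.induce (f i)).Connected) ∧
    (∀ i j, i ≠ j → Disjoint (f i) (f j)) ∧ (∀ i j, i ≠ j → Touch G (f i) (f j)) ∧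
    (∀ i, ∀ x ∈ f i, ∃ u ∈ S, x ∈ bag u) ∧ (∀ i, ∃ u ∈ S, bag u ⊆ f i)

theorem touch_symm {V : Type} {G : SimpleGraph V} {A B : Set V} (h : Touch G A B) :
    Touch G B A := by
  obtain ⟨a, ha, b, hb, hab⟩ := h
  exact ⟨b, hb, a, ha, hab.symm⟩

theorem touch_mono {V : Type} {G : SimpleGraph V} {A B A' B' : Set V} (h : Touch G A B)
    (hA : A ⊆ A') (hB : B ⊆ B') : Touch G A' B' := by
  obtain ⟨a, ha, b, hb, hab⟩ := h
  exact ⟨a, hA ha, b, hB hb, hab⟩

theorem T_symm {V ι : Type} {G : SimpleGraph V} {bag : ι → Set V} {u v : ι}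
    (h : T G bag u v) : T G bag v u :=
  ⟨h.1.symm, touch_symm h.2⟩

theorem sub_update {V ι : Type} [DecidableEq ι] (bag : ι → Set V) (x y u : ι) :
    bag u ⊆ Function.update bag x (bag x ∪ bag y) (if u = y then x else u) := by
  by_cases h : u = y
  · rw [if_pos h, Function.update_self, h]
    exact Set.subset_union_right
  · rw [if_neg h]
    by_cases h' : u = x
    · rw [h', Function.update_self]
      exact Set.subset_union_left
    · rw [Function.update_of_ne h']

/-- counting touching pairs after a contraction -/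
theorem contract {V ι : Type} [DecidableEq ι] (G : SimpleGraph V) (S : Finset ι)
    (bag : ι → Set V) (x y : ι) (hx : x ∈ S) (hxy : x ≠ y) :
    num (S ×ˢ S) (fun p => T G bag p.1 p.2) ≤
      num (S.erase y ×ˢ S.erase y)
          (fun p => T G (Function.update bag x (bag x ∪ bag y)) p.1 p.2) + 2 +
        2 * num S (fun v => T G bag x v ∧ T G bag y v) := by
  classical
  set A : ι × ι → Prop := fun p => p = (x, y) ∨ p = (y, x) with hA
  set B1 : ι × ι → Prop := fun p => p.1 = y ∧ T G bag x p.2 ∧ T G bag y p.2 with hB1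
  set B2 : ι × ι → Prop := fun p => p.2 = y ∧ T G bag x p.1 ∧ T G bag y p.1 with hB2
  set R : ι × ι → Prop := fun p => T G bag p.1 p.2 ∧ ¬ A p ∧ ¬ B1 p ∧ ¬ B2 p with hR
  have h0 : num (S ×ˢ S) (fun p => T G bag p.1 p.2) ≤
      num (S ×ˢ S) (fun p => ((R p ∨ A p) ∨ B1 p) ∨ B2 p) := by
    apply num_mono
    intro p hp hT
    refine ⟨hp, ?_⟩
    by_cases h1 : A p
    · exact Or.inl (Or.inl (Or.inr h1))
    by_cases h2 : B1 p
    · exact Or.inl (Or.inr h2)
    by_cases h3 : B2 p
    · exact Or.inr h3
    exact Or.inl (Or.inl (Or.inl ⟨hT, h1, h2, h3⟩))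
  have h1 := num_or_le (S ×ˢ S) (fun p => (R p ∨ A p) ∨ B1 p) B2
  have h2 := num_or_le (S ×ˢ S) (fun p => R p ∨ A p) B1
  have h3 := num_or_le (S ×ˢ S) R A
  have hA2 : num (S ×ˢ S) A ≤ 2 := by
    have : num (S ×ˢ S) A ≤ num ({(x, y), (y, x)} : Finset (ι × ι)) (fun _ => True) := by
      apply num_mono
      intro p _ hp
      refine ⟨?_, trivial⟩
      rcases hp with hp | hp <;> simp [hp]
    exact this.trans ((num_le_card _ _).trans card_le_two)
  have hB1' : num (S ×ˢ S) B1 ≤ num S (fun v => T G bag x v ∧ T G bag y v) := by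
    apply num_le_of_injOn Prod.snd
    · intro p hp h
      exact ⟨(mem_product.1 hp).2, h.2⟩
    · intro a _ ha b _ hb hab
      exact Prod.ext (ha.1.trans hb.1.symm) hab
  have hB2' : num (S ×ˢ S) B2 ≤ num S (fun v => T G bag x v ∧ T G bag y v) := by
    apply num_le_of_injOn Prod.fst
    · intro p hp h
      exact ⟨(mem_product.1 hp).1, h.2⟩
    · intro a _ ha b _ hb hab
      exact Prod.ext hab (ha.1.trans hb.1.symm)
  have hmem : ∀ u ∈ S, (if u = y then x else u) ∈ S.erase y := by
    intro u hu
    by_cases h : u = y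
    · rw [if_pos h]
      exact mem_erase.2 ⟨hxy, hx⟩
    · rw [if_neg h]
      exact mem_erase.2 ⟨h, hu⟩
  have hR' : num (S ×ˢ S) R ≤ num (S.erase y ×ˢ S.erase y)
      (fun p => T G (Function.update bag x (bag x ∪ bag y)) p.1 p.2) := by
    apply num_le_of_injOn
      (fun p : ι × ι => ((if p.1 = y then x else p.1), (if p.2 = y then x else p.2)))
    · rintro ⟨a, b⟩ hp ⟨hT, hnA, -, -⟩
      refine ⟨mem_product.2 ⟨hmem _ (mem_product.1 hp).1, hmem _ (mem_product.1 hp).2⟩, ?_,
        touch_mono hT.2 (sub_update bag x y a) (sub_update bag x y b)⟩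
      have hab : a ≠ b := hT.1
      simp only [hA, Prod.mk.injEq, not_or, not_and] at hnA
      show (if a = y then x else a) ≠ (if b = y then x else b)
      by_cases ha : a = y <;> by_cases hb : b = y
      · exact absurd (ha.trans hb.symm) hab
      · rw [if_pos ha, if_neg hb]
        exact fun h => hnA.2 ha h.symm
      · rw [if_neg ha, if_pos hb]
        exact fun h => hnA.1 h hb
      · rw [if_neg ha, if_neg hb]
        exact hab
    · have key : ∀ a b c d : ι, R (a, b) → R (c, d) → a = y → c ≠ y →
          (if a = y then x else a) = (if c = y then x else c) →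
          (if b = y then x else b) = (if d = y then x else d) → False := by
        intro a b c d hab hcd ha hc e1 e2
        obtain ⟨hT, hnA, hnB, -⟩ := hab
        obtain ⟨hT', -, -, -⟩ := hcd
        rw [if_pos ha, if_neg hc] at e1
        have hby : b ≠ y := fun h => hT.1 (ha.trans h.symm)
        have hbx : b ≠ x := fun h => hnA (Or.inr (by rw [ha, h]))
        rw [if_neg hby] at e2
        have hdy : d ≠ y := fun h => hbx (by rw [e2, if_pos h])
        rw [if_neg hdy] at e2
        apply hnB
        refine ⟨ha, ?_, ?_⟩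
        · show T G bag x b
          rw [e1, e2]
          exact hT'
        · show T G bag y b
          rw [← ha]
          exact hT
      have hsw : ∀ a b : ι, R (a, b) → R (b, a) := by
        rintro a b ⟨hT, hnA, hn1, hn2⟩
        refine ⟨T_symm hT, ?_, hn2, hn1⟩
        rintro (h | h)
        · exact hnA (Or.inr (by rw [Prod.mk.injEq] at h ⊢; exact ⟨h.2, h.1⟩))
        · exact hnA (Or.inl (by rw [Prod.mk.injEq] at h ⊢; exact ⟨h.2, h.1⟩))
      have one : ∀ a b c d : ι, R (a, b) → R (c, d) →
          (if a = y then x else a) = (if c = y then x else c) →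
          (if b = y then x else b) = (if d = y then x else d) → a = c := by
        intro a b c d hab hcd e1 e2
        by_cases ha : a = y <;> by_cases hc : c = y
        · exact ha.trans hc.symm
        · exact (key a b c d hab hcd ha hc e1 e2).elim
        · exact (key c d a b hcd hab hc ha e1.symm e2.symm).elim
        · rwa [if_neg ha, if_neg hc] at e1
      rintro ⟨a, b⟩ _ hab ⟨c, d⟩ _ hcd h
      rw [Prod.mk.injEq] at h
      exact Prod.ext (one a b c d hab hcd h.1 h.2)
        (one b a d c (hsw _ _ hab) (hsw _ _ hcd) h.2 h.1)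
  omega

/-- counting by rows -/
theorem rows {ι : Type} (N : Finset ι) (P : ι → ι → Prop) (k : ℕ)
    (h : ∀ y ∈ N, k ≤ num N (P y)) : k * N.card ≤ num (N ×ˢ N) (fun p => P p.1 p.2) := by
  classical
  rw [num_eq_sum, sum_product, mul_comm, ← smul_eq_mul, ← sum_const]
  apply sum_le_sum
  intro y hy
  exact (h y hy).trans (num_eq_sum _ _).le

theorem base {V ι : Type} (G : SimpleGraph V) (S : Finset ι) (bag : ι → Set V)
    (hc : ∀ u ∈ S, (G.induce (bag u)).Connected)
    (hd : ∀ u ∈ S, ∀ v ∈ S, u ≠ v → Disjoint (bag u) (bag v))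
    (x y : ι) (hx : x ∈ S) (hy : y ∈ S) (hT : T G bag x y) : Concl G 2 S bag := by
  refine ⟨![bag x, bag y], ?_, ?_, ?_, ?_, ?_⟩
  · intro i
    fin_cases i
    · exact hc x hx
    · exact hc y hy
  · intro i j hij
    fin_cases i <;> fin_cases j
    · exact absurd rfl hij
    · exact hd x hx y hy hT.1
    · exact hd y hy x hx hT.1.symm
    · exact absurd rfl hij
  · intro i j hij
    fin_cases i <;> fin_cases j
    · exact absurd rfl hij
    · exact hT.2
    · exact touch_symm hT.2
    · exact absurd rfl hij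
  · intro i z hz
    fin_cases i
    · exact ⟨x, hx, hz⟩
    · exact ⟨y, hy, hz⟩
  · intro i
    fin_cases i
    · exact ⟨x, hx, subset_rfl⟩
    · exact ⟨y, hy, subset_rfl⟩

theorem uncontract {V ι : Type} [DecidableEq ι] (G : SimpleGraph V) (k : ℕ) (S : Finset ι)
    (bag : ι → Set V) (x y : ι) (hy : y ∈ S)
    (h : Concl G k (S.erase y) (Function.update bag x (bag x ∪ bag y))) : Concl G k S bag := by
  obtain ⟨f, h1, h2, h3, h4, h5⟩ := h
  refine ⟨f, h1, h2, h3, ?_, ?_⟩
  · intro i z hz
    obtain ⟨u, hu, hzu⟩ := h4 i z hz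
    by_cases hux : u = x
    · rw [hux, Function.update_self] at hzu
      rcases hzu with hzu | hzu
      · exact ⟨x, hux ▸ mem_of_mem_erase hu, hzu⟩
      · exact ⟨y, hy, hzu⟩
    · rw [Function.update_of_ne hux] at hzu
      exact ⟨u, mem_of_mem_erase hu, hzu⟩
  · intro i
    obtain ⟨u, hu, hs⟩ := h5 i
    refine ⟨u, mem_of_mem_erase hu, Set.Subset.trans ?_ hs⟩
    have := sub_update bag x y u
    rwa [if_neg (ne_of_mem_erase hu)] at this

theorem extend {V ι : Type} (G : SimpleGraph V) (k : ℕ) (S N : Finset ι) (bag : ι → Set V)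
    (hc : ∀ u ∈ S, (G.induce (bag u)).Connected)
    (hd : ∀ u ∈ S, ∀ v ∈ S, u ≠ v → Disjoint (bag u) (bag v))
    (x : ι) (hx : x ∈ S) (hN : ∀ u ∈ N, u ∈ S ∧ T G bag x u)
    (h : Concl G k N bag) : Concl G (k + 1) S bag := by
  obtain ⟨f, h1, h2, h3, h4, h5⟩ := h
  have hdis : ∀ i, Disjoint (bag x) (f i) := by
    intro i
    rw [Set.disjoint_left]
    intro z hz hzf
    obtain ⟨u, hu, hzu⟩ := h4 i z hzf
    exact Set.disjoint_left.1 (hd x hx u (hN u hu).1 (hN u hu).2.1) hz hzu
  have htou : ∀ i, Touch G (bag x) (f i) := by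
    intro i
    obtain ⟨u, hu, hs⟩ := h5 i
    exact touch_mono (hN u hu).2.2 subset_rfl hs
  refine ⟨Fin.cons (bag x) f, ?_, ?_, ?_, ?_, ?_⟩
  · intro i
    refine Fin.cases ?_ (fun i => ?_) i
    · exact hc x hx
    · exact h1 i
  · intro i j
    refine Fin.cases ?_ (fun i => ?_) i <;> refine Fin.cases ?_ (fun j => ?_) j <;> intro hij
    · exact absurd rfl hij
    · exact hdis j
    · exact (hdis i).symm
    · exact h2 i j fun e => hij (by rw [e])
  · intro i j
    refine Fin.cases ?_ (fun i => ?_) i <;> refine Fin.cases ?_ (fun j => ?_) j <;> intro hij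
    · exact absurd rfl hij
    · exact htou j
    · exact touch_symm (htou i)
    · exact h3 i j fun e => hij (by rw [e])
  · intro i
    refine Fin.cases ?_ (fun i => ?_) i
    · intro z hz
      exact ⟨x, hx, hz⟩
    · intro z hz
      obtain ⟨u, hu, hzu⟩ := h4 i z hz
      exact ⟨u, (hN u hu).1, hzu⟩
  · intro i
    refine Fin.cases ?_ (fun i => ?_) i
    · exact ⟨x, hx, subset_rfl⟩
    · obtain ⟨u, hu, hs⟩ := h5 i
      exact ⟨u, (hN u hu).1, hs⟩

theorem exists_pair {V ι : Type} (G : SimpleGraph V) (r : ℕ) (S : Finset ι) (bag : ι → Set V)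
    (hne : S.Nonempty) (h : 2 ^ r * S.card ≤ num (S ×ˢ S) (fun p => T G bag p.1 p.2)) :
    ∃ x ∈ S, ∃ y ∈ S, T G bag x y := by
  have hpos : 0 < 2 ^ r * S.card := Nat.mul_pos (by positivity) hne.card_pos
  obtain ⟨p, hp, hT⟩ := num_pos.1 (hpos.trans_le h)
  exact ⟨p.1, (mem_product.1 hp).1, p.2, (mem_product.1 hp).2, hT⟩

theorem main {V ι : Type} (G : SimpleGraph V) (r : ℕ) : ∀ (n : ℕ) (S : Finset ι)
    (bag : ι → Set V), S.card = n → S.Nonempty → (∀ u ∈ S, (G.induce (bag u)).Connected) →
    (∀ u ∈ S, ∀ v ∈ S, u ≠ v → Disjoint (bag u) (bag v)) →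
    2 ^ r * S.card ≤ num (S ×ˢ S) (fun p => T G bag p.1 p.2) → Concl G (r + 2) S bag := by
  classical
  induction r with
  | zero =>
    intro n S bag _ hne hc hd h
    obtain ⟨x, hx, y, hy, hT⟩ := exists_pair G 0 S bag hne h
    exact base G S bag hc hd x y hx hy hT
  | succ r ihr =>
    intro n
    induction n with
    | zero =>
      intro S bag hn hne
      exact absurd hne.card_pos (by omega)
    | succ n ihn =>
      intro S bag hn hne hc hd h
      by_cases hex : ∃ x ∈ S, ∃ y ∈ S, T G bag x y ∧
          2 ^ (r + 1) * (S.erase y).card ≤ num (S.erase y ×ˢ S.erase y)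
            (fun p => T G (Function.update bag x (bag x ∪ bag y)) p.1 p.2)
      · obtain ⟨x, hx, y, hy, hT, hcount⟩ := hex
        apply uncontract G _ S bag x y hy
        apply ihn _ _ (by rw [card_erase_of_mem hy, hn]; rfl) ⟨x, mem_erase.2 ⟨hT.1, hx⟩⟩ _ _
          hcount
        · intro u hu
          by_cases hux : u = x
          · rw [hux, Function.update_self]
            obtain ⟨a, ha, b, hb, hab⟩ := hT.2
            exact SimpleGraph.connected_induce_union (hc x hx).preconnected
              (hc y hy).preconnected ha hb hab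
          · rw [Function.update_of_ne hux]
            exact hc u (mem_of_mem_erase hu)
        · have hdx : ∀ v ∈ S.erase y, v ≠ x → Disjoint (bag x ∪ bag y) (bag v) := by
            intro v hv hvx
            exact Set.disjoint_union_left.2 ⟨hd x hx v (mem_of_mem_erase hv) hvx.symm,
              hd y hy v (mem_of_mem_erase hv) (ne_of_mem_erase hv).symm⟩
          intro u hu v hv huv
          by_cases hux : u = x
          · have hvx : v ≠ x := fun e => huv (hux.trans e.symm)
            rw [hux, Function.update_self, Function.update_of_ne hvx]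
            exact hdx v hv hvx
          · by_cases hvx : v = x
            · rw [hvx, Function.update_self, Function.update_of_ne hux]
              exact (hdx u hu hux).symm
            · rw [Function.update_of_ne hux, Function.update_of_ne hvx]
              exact hd u (mem_of_mem_erase hu) v (mem_of_mem_erase hv) huv
      · have hcom : ∀ x ∈ S, ∀ y ∈ S, T G bag x y →
            2 ^ r ≤ num S (fun v => T G bag x v ∧ T G bag y v) := by
          intro x hx y hy hT
          have h1 := contract G S bag x y hx hT.1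
          have h2 : num (S.erase y ×ˢ S.erase y)
              (fun p => T G (Function.update bag x (bag x ∪ bag y)) p.1 p.2) <
              2 ^ (r + 1) * (S.erase y).card := by
            by_contra hcon
            exact hex ⟨x, hx, y, hy, hT, not_lt.1 hcon⟩
          rw [card_erase_of_mem hy, hn, Nat.add_sub_cancel] at h2
          rw [hn, mul_add, mul_one] at h
          have h3 : 2 ^ (r + 1) = 2 * 2 ^ r := by ring
          omega
        obtain ⟨x, hx, y, hy, hT⟩ := exists_pair G (r + 1) S bag hne h
        set N := S.filter (fun u => T G bag x u) with hNdef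
        have hN : ∀ u ∈ N, u ∈ S ∧ T G bag x u := fun u hu => mem_filter.1 hu
        apply extend G (r + 2) S N bag hc hd x hx hN
        apply ihr N.card N bag rfl ⟨y, mem_filter.2 ⟨hy, hT⟩⟩ (fun u hu => hc u (hN u hu).1)
          (fun u hu v hv => hd u (hN u hu).1 v (hN v hv).1)
        apply rows N (T G bag)
        intro u hu
        refine (hcom x hx u (hN u hu).1 (hN u hu).2).trans (num_mono ?_)
        intro v hv h
        exact ⟨mem_filter.2 ⟨hv, h.1⟩, h.2⟩

end Mader

theorem mader : MaderStmt := by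
  intro V ι G r S bag hne hc hd h
  exact Mader.main G r S.card S bag rfl hne hc hd h

end Pool.Agent.Lib.MP_453ac3_co.LB
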