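import Pool.Agent.Lib.MP_453ac3_co.LB.St

namespace Pool.Agent.Lib.MP_453ac3_co.LB

open Finset

namespace Octa

/-- the first metric -/
def pp (a b : Fin 6) : ℕ :=
  if a = b then 0 else if b = a + 3 then 8 else
    if (a = 0 ∧ b = 5) ∨ (a = 5 ∧ b = 0) then 6 else 4

/-- the second metric -/
def pm (a b : Fin 6) : ℕ :=
  if a = b then 0 else if b = a + 3 then (if a = 1 ∨ a = 4 then 8 else 6) else
    if (a = 0 ∧ b = 5) ∨ (a = 5 ∧ b = 0) then 2 else 4

theorem pp_symm : ∀ a b, pp a b = pp b a := by decide +kernel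

theorem pm_symm : ∀ a b, pm a b = pm b a := by decide +kernel

theorem pp_met : Met pp := ⟨by decide +kernel, by decide +kernel, by decide +kernel⟩

theorem pm_met : Met pm := ⟨by decide +kernel, by decide +kernel, by decide +kernel⟩

theorem pp_pm : ∀ a b : Fin 6, a ≠ b → b ≠ a + 3 → pp a b + pm a b = 8 := by decide +kernel

/-- lengths for a pair of types of cost `k` -/
def Good (ρ : Fin 6 → Fin 6 → ℕ) (a b c d : Fin 6) (k : ℕ) : Prop :=
  ∃ t s : Fin 7, t.1 ≤ ρ a b ∧ s.1 ≤ ρ c d ∧ k ≤ t.1 + ρ a c + s.1 ∧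
    k ≤ t.1 + ρ a d + (ρ c d - s.1) ∧ k ≤ (ρ a b - t.1) + ρ b c + s.1 ∧
    k ≤ (ρ a b - t.1) + ρ b d + (ρ c d - s.1)

instance (ρ : Fin 6 → Fin 6 → ℕ) (a b c d : Fin 6) (k : ℕ) : Decidable (Good ρ a b c d k) :=
  inferInstanceAs (Decidable (∃ t s : Fin 7, t.1 ≤ ρ a b ∧ s.1 ≤ ρ c d ∧ k ≤ t.1 + ρ a c + s.1 ∧
    k ≤ t.1 + ρ a d + (ρ c d - s.1) ∧ k ≤ (ρ a b - t.1) + ρ b c + s.1 ∧
    k ≤ (ρ a b - t.1) + ρ b d + (ρ c d - s.1)))

theorem base_good : ∀ a b c d : Fin 6, a ≠ b → b ≠ a + 3 → c ≠ d → d ≠ c + 3 → a ≠ c → a ≠ d →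
    b ≠ c → b ≠ d → ∃ k : Fin 3, Good pp a b c d (7 + k.1) ∧ Good pm a b c d (9 - k.1) := by
  decide +kernel

/-- a pair of types can be given cost `k` -/
def Item (ρ : Fin 6 → Fin 6 → ℕ) (σ : Sym2 (Fin 6) → ℕ) (lam mu : Sym2 (Fin 6)) (k : ℕ) : Prop :=
  ∃ l l', Adm ρ lam l (σ lam) ∧ Adm ρ mu l' (σ mu) ∧ ∀ a ∈ lam, ∀ b ∈ mu, k ≤ l a + ρ a b + l' b

variable {ρ : Fin 6 → Fin 6 → ℕ}

theorem adm (hρ : Met ρ) (hs : ∀ a b, ρ a b = ρ b a) {a b : Fin 6} (hab : a ≠ b) {t : ℕ}
    (ht : t ≤ ρ a b) :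
    Adm ρ s(a, b) (fun u => if u = a then t else ρ a b - t) (Sym2.lift ⟨ρ, hs⟩ s(a, b)) := by
  have h8 := hρ.bd a b
  refine ⟨fun u => ?_, fun u v huv => ?_⟩
  · dsimp only
    split_ifs <;> omega
  · rw [Sym2.lift_mk]
    rcases Sym2.eq_iff.1 huv with ⟨rfl, rfl⟩ | ⟨rfl, rfl⟩
    · simp only [if_true, if_neg hab.symm]
      omega
    · have := hs a b
      simp only [if_true, if_neg hab.symm]
      omega

theorem item (hρ : Met ρ) (hs : ∀ a b, ρ a b = ρ b a) {a b c d : Fin 6} (hab : a ≠ b)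
    (hcd : c ≠ d) {k : ℕ} (h : Good ρ a b c d k) :
    Item ρ (Sym2.lift ⟨ρ, hs⟩) s(a, b) s(c, d) k := by
  obtain ⟨t, s, ht, hs', h1, h2, h3, h4⟩ := h
  refine ⟨_, _, adm hρ hs hab ht, adm hρ hs hcd hs', fun u hu v hv => ?_⟩
  rcases Sym2.mem_iff.1 hu with rfl | rfl <;> rcases Sym2.mem_iff.1 hv with rfl | rfl <;>
    simp only [if_true, if_neg hab.symm, if_neg hcd.symm] <;> assumption

/-- the length inequality for a base pairing and two more items -/
theorem plan {x : Sym2 (Fin 6) → ℕ} {T : Sym2 (Fin 6) → Prop} {E μ : ℕ} (hx : MLX x T E)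
    (hd : ∀ a, x s(a, a) = 0) (hρ : Met ρ) (hs : ∀ a b, ρ a b = ρ b a)
    (z k : Sym2 (Fin 6) → Sym2 (Fin 6) → ℕ)
    (hz : ∀ lam mu, 0 < z lam mu → Item ρ (Sym2.lift ⟨ρ, hs⟩) lam mu (k lam mu))
    {f₁ g₁ f₂ g₂ : Sym2 (Fin 6)} {c₁ c₂ : ℕ} (h₁ : Item ρ (Sym2.lift ⟨ρ, hs⟩) f₁ g₁ c₁)
    (h₂ : Item ρ (Sym2.lift ⟨ρ, hs⟩) f₂ g₂ c₂)
    (hc : ∀ lam, ∑ mu, z lam mu + ∑ mu, z mu lam + ((if f₁ = lam then μ else 0) +
      (if f₂ = lam then μ else 0) + (if g₁ = lam then μ else 0) + (if g₂ = lam then μ else 0)) ≤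
        x lam) :
    32 * (∑ lam, ∑ mu, z lam mu * k lam mu + μ * (c₁ + c₂)) ≤
      32 * ∑ lam, x lam * Sym2.lift ⟨ρ, hs⟩ lam + E := by
  have h := hx ρ hρ (Sym2.lift ⟨ρ, hs⟩) (fun lam => by
      induction lam using Sym2.ind with
      | _ a b =>
        intro h0
        have hab : a ≠ b := fun e => by
          rw [e, hd] at h0
          exact lt_irrefl _ h0
        exact ⟨_, adm hρ hs hab (Nat.zero_le _)⟩)
    ((Sym2 (Fin 6) × Sym2 (Fin 6)) ⊕ Bool) (Sum.elim Prod.fst fun b => cond b f₁ f₂)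
    (Sum.elim Prod.snd fun b => cond b g₁ g₂) (Sum.elim (fun p => z p.1 p.2) fun _ => μ)
    (Sum.elim (fun p => k p.1 p.2) fun b => cond b c₁ c₂) (fun _ => 0)
    (by
      rintro (p | b) h0
      · exact hz p.1 p.2 h0
      · cases b
        exacts [h₂, h₁])
    (fun _ h0 => absurd h0 (lt_irrefl 0))
    (fun lam => by
      have e1 : ∑ p : Sym2 (Fin 6) × Sym2 (Fin 6), (if p.1 = lam then z p.1 p.2 else 0) =
          ∑ mu, z lam mu := by
        rw [Fintype.sum_prod_type_right]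
        exact sum_congr rfl fun mu _ => by simp
      have e2 : ∑ p : Sym2 (Fin 6) × Sym2 (Fin 6), (if p.2 = lam then z p.1 p.2 else 0) =
          ∑ mu, z mu lam := by
        rw [Fintype.sum_prod_type]
        exact sum_congr rfl fun mu _ => by simp
      have := hc lam
      simp only [Fintype.sum_sum_type, Sum.elim_inl, Sum.elim_inr, Fintype.sum_bool, cond_true,
        cond_false, e1, e2]
      omega)
  simp only [Fintype.sum_sum_type, Sum.elim_inl, Sum.elim_inr, Fintype.sum_bool, cond_true,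
    cond_false, Fintype.sum_prod_type, sum_const_zero] at h
  rw [mul_add μ]
  omega

end Octa

open Octa in
theorem octa (h : BaseStmt) : OctaStmt := by
  intro x T E μ hx hsp h0 hμ h80
  have hedge : ∀ a b : Fin 6, 0 < x s(a, b) → a ≠ b ∧ b ≠ a + 3 := fun a b hab =>
    ⟨fun e => by
      rw [e, hsp.nd] at hab
      exact lt_irrefl _ hab, fun e => by
      rw [e, h0] at hab
      exact lt_irrefl _ hab⟩
  have hr : ∑ lam : Sym2 (Fin 6), ((if s(0, 1) = lam then μ else 0) +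
      (if s(0, 2) = lam then μ else 0) + (if s(3, 4) = lam then μ else 0) +
      (if s(4, 5) = lam then μ else 0)) = 4 * μ := by
    simp only [sum_add_distrib, sum_ite_eq, mem_univ, if_true]
    ring
  obtain ⟨z, hz1, hz2, hz3⟩ := h (Fin 6) x (fun lam => (if s(0, 1) = lam then μ else 0) +
      (if s(0, 2) = lam then μ else 0) + (if s(3, 4) = lam then μ else 0) +
      (if s(4, 5) = lam then μ else 0)) hsp (fun lam => by
      by_cases k1 : s(0, 1) = lam
      · subst k1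
        rw [if_pos rfl, if_neg (by decide), if_neg (by decide), if_neg (by decide)]
        exact hμ 0 1 (by decide) (by decide)
      by_cases k2 : s(0, 2) = lam
      · subst k2
        rw [if_neg k1, if_pos rfl, if_neg (by decide), if_neg (by decide), zero_add]
        exact hμ 0 2 (by decide) (by decide)
      by_cases k3 : s(3, 4) = lam
      · subst k3
        rw [if_neg k1, if_neg k2, if_pos rfl, if_neg (by decide), zero_add, zero_add]
        exact hμ 3 4 (by decide) (by decide)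
      by_cases k4 : s(4, 5) = lam
      · subst k4
        rw [if_neg k1, if_neg k2, if_neg k3, if_pos rfl]
        exact (Nat.zero_add μ).trans_le (hμ 4 5 (by decide) (by decide))
      rw [if_neg k1, if_neg k2, if_neg k3, if_neg k4]
      exact Nat.zero_le _) (by rw [hr]; omega)
  rw [hr] at hz3
  have hk : ∀ lam mu, ∃ k : ℕ, k ≤ 16 ∧ (0 < z lam mu →
      Item pp (Sym2.lift ⟨pp, pp_symm⟩) lam mu k ∧
        Item pm (Sym2.lift ⟨pm, pm_symm⟩) lam mu (16 - k)) := by
    intro lam mu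
    by_cases hp : 0 < z lam mu
    swap
    · exact ⟨0, Nat.zero_le _, fun h => absurd h hp⟩
    have k1 : 0 < x lam := by
      have := hz1 lam
      have := single_le_sum (f := fun mu => z lam mu) (fun _ _ => Nat.zero_le _) (mem_univ mu)
      omega
    have k2 : 0 < x mu := by
      have := hz1 mu
      have := single_le_sum (f := fun nu => z nu mu) (fun _ _ => Nat.zero_le _) (mem_univ lam)
      omega
    have k3 := hz2 lam mu hp
    induction lam using Sym2.ind with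
    | _ a b =>
    induction mu using Sym2.ind with
    | _ c d =>
    have ka := k3 a (Sym2.mem_mk_left a b)
    have kb := k3 b (Sym2.mem_mk_right a b)
    rw [Sym2.mem_iff, not_or] at ka kb
    obtain ⟨k, g1, g2⟩ := base_good a b c d (hedge a b k1).1 (hedge a b k1).2 (hedge c d k2).1
      (hedge c d k2).2 ka.1 ka.2 kb.1 kb.2
    have e : 16 - (7 + k.1) = 9 - k.1 := by omega
    exact ⟨7 + k.1, by omega, fun _ => ⟨item pp_met pp_symm (hedge a b k1).1 (hedge c d k2).1 g1,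
      e ▸ item pm_met pm_symm (hedge a b k1).1 (hedge c d k2).1 g2⟩⟩
  choose k hk1 hk2 using hk
  have p1 := plan (μ := μ) hx hsp.nd pp_met pp_symm z k (fun lam mu h => (hk2 lam mu h).1)
    (item pp_met pp_symm (a := 0) (b := 1) (c := 3) (d := 4) (k := 8) (by decide) (by decide)
      (by decide +kernel))
    (item pp_met pp_symm (a := 0) (b := 2) (c := 4) (d := 5) (k := 9) (by decide) (by decide)
      (by decide +kernel)) hz1
  have p2 := plan (μ := μ) hx hsp.nd pm_met pm_symm z (fun lam mu => 16 - k lam mu)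
    (fun lam mu h => (hk2 lam mu h).2)
    (item pm_met pm_symm (a := 0) (b := 1) (c := 4) (d := 5) (k := 8) (by decide) (by decide)
      (by decide +kernel))
    (item pm_met pm_symm (a := 0) (b := 2) (c := 3) (d := 4) (k := 8) (by decide) (by decide)
      (by decide +kernel)) (fun lam => by have := hz1 lam; omega)
  have e1 : ∑ lam, ∑ mu, z lam mu * k lam mu + ∑ lam, ∑ mu, z lam mu * (16 - k lam mu) =
      16 * ∑ lam, ∑ mu, z lam mu := by
    rw [← sum_add_distrib, mul_sum]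
    refine sum_congr rfl fun lam _ => ?_
    rw [← sum_add_distrib, mul_sum]
    refine sum_congr rfl fun mu _ => ?_
    rw [← mul_add, Nat.add_sub_cancel' (hk1 lam mu), mul_comm]
  have e2 : ∑ lam, x lam * Sym2.lift ⟨pp, pp_symm⟩ lam +
      ∑ lam, x lam * Sym2.lift ⟨pm, pm_symm⟩ lam = 8 * ∑ lam, x lam := by
    rw [← sum_add_distrib, mul_sum]
    refine sum_congr rfl fun lam _ => ?_
    induction lam using Sym2.ind with
    | _ a b =>
    rcases Nat.eq_zero_or_pos (x s(a, b)) with k1 | k1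
    · simp [k1]
    · rw [← mul_add, Sym2.lift_mk, Sym2.lift_mk, mul_comm]
      exact congrArg (· * x s(a, b)) (pp_pm a b (hedge a b k1).1 (hedge a b k1).2)
  omega

end Pool.Agent.Lib.MP_453ac3_co.LB
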