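import Pool.Agent.Lib.MP_453ac3_co.LB.St

namespace Pool.Agent.Lib.MP_453ac3_co.LB

open Finset

namespace Order

theorem line {V : Type} (G : SimpleGraph V) (C : Finset V)
    (h1 : ∀ w ∈ C, ∀ x ∈ C, ∀ y ∈ C, ∀ z ∈ C, G.Adj w x → G.Adj w y → G.Adj w z →
      x ≠ y → x ≠ z → y = z)
    (h2 : ∀ Z ⊆ C, Z.Nonempty → ∃ v ∈ Z, ∀ x ∈ Z, ∀ y ∈ Z, G.Adj v x → G.Adj v y → x = y)
    (n : ℕ) : ∀ Z ⊆ C, Z.card = n + 1 → ∀ v ∈ Z,
      (∀ x ∈ Z, ∀ y ∈ Z, G.Adj v x → G.Adj v y → x = y) →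
      ∃ o : ℕ → V, o 0 = v ∧ (∀ p < n + 1, o p ∈ Z) ∧
        (∀ p < n + 1, ∀ q < n + 1, o p = o q → p = q) ∧
        ∀ p < n + 1, ∀ q < n + 1, G.Adj (o p) (o q) → q = p + 1 ∨ p = q + 1 := by
  classical
  induction n with
  | zero =>
    intro Z _ _ v hv _
    exact ⟨fun _ => v, rfl, fun _ _ => hv, fun p hp q hq _ => by omega,
      fun _ _ _ _ h => absurd rfl h.ne⟩
  | succ n ih =>
    intro Z hZ hc v hv hl
    have hc' : (Z.erase v).card = n + 1 := by
      rw [card_erase_of_mem hv, hc]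
      rfl
    have hs : Z.erase v ⊆ C := (erase_subset _ _).trans hZ
    obtain ⟨u, hu, a1, a2⟩ : ∃ u ∈ Z.erase v,
        (∀ x ∈ Z.erase v, ∀ y ∈ Z.erase v, G.Adj u x → G.Adj u y → x = y) ∧
        ∀ x ∈ Z.erase v, G.Adj v x → x = u := by
      by_cases h : ∃ u ∈ Z.erase v, G.Adj v u
      · obtain ⟨u, hu, huv⟩ := h
        exact ⟨u, hu, fun x hx y hy b1 b2 => h1 u (hs hu) v (hZ hv) x (hs hx) y (hs hy) huv.symm
          b1 b2 (ne_of_mem_erase hx).symm (ne_of_mem_erase hy).symm,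
          fun x hx b1 => hl x (mem_of_mem_erase hx) u (mem_of_mem_erase hu) b1 huv⟩
      · obtain ⟨u, hu, b1⟩ := h2 _ hs (card_pos.1 (by omega))
        exact ⟨u, hu, b1, fun x hx b2 => absurd ⟨x, hx, b2⟩ h⟩
    obtain ⟨o, o0, o1, o2, o3⟩ := ih _ hs hc' u hu a1
    have key : ∀ q < n + 1, G.Adj v (o q) → q = 0 := fun q hq h =>
      o2 q hq 0 (by omega) ((a2 _ (o1 q hq) h).trans o0.symm)
    refine ⟨fun p => Nat.casesOn p v o, rfl, ?_, ?_, ?_⟩
    · rintro (_ | p) hp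
      exacts [hv, mem_of_mem_erase (o1 p (by omega))]
    · rintro (_ | p) hp (_ | q) hq h
      · rfl
      · exact absurd h.symm (ne_of_mem_erase (o1 q (by omega)))
      · exact absurd h (ne_of_mem_erase (o1 p (by omega)))
      · exact congrArg (· + 1) (o2 p (by omega) q (by omega) h)
    · rintro (_ | p) hp (_ | q) hq h
      · exact absurd rfl h.ne
      · have := key q (by omega) h
        omega
      · have := key p (by omega) h.symm
        omega
      · have := o3 p (by omega) q (by omega) h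
        omega

def Cl {V : Type} (G : SimpleGraph V) {k : ℕ} (f : Fin k → Set V) : Prop :=
  (∀ i, (G.induce (f i)).Connected) ∧ (∀ i j, i ≠ j → Disjoint (f i) (f j)) ∧
    ∀ i j, i ≠ j → Touch G (f i) (f j)

theorem Cl.cons {V : Type} {G : SimpleGraph V} {k : ℕ} {f : Fin k → Set V} (h : Cl G f)
    {A : Set V} (h1 : (G.induce A).Connected) (h2 : ∀ i, Disjoint A (f i))
    (h3 : ∀ i, Touch G A (f i)) : Cl G (Fin.cons A f : Fin (k + 1) → Set V) := by
  refine ⟨fun i => Fin.cases h1 h.1 i, fun i j => ?_, fun i j => ?_⟩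
  · refine Fin.cases (Fin.cases (fun e => absurd rfl e) (fun j _ => h2 j) j)
      (fun i => Fin.cases (fun _ => (h2 i).symm) (fun j e => ?_) j) i
    exact h.2.1 i j fun e' => e (congrArg _ e')
  · refine Fin.cases (Fin.cases (fun e => absurd rfl e) (fun j _ => h3 j) j)
      (fun i => Fin.cases (fun _ => ?_) (fun j e => ?_) j) i
    · obtain ⟨a, ha, b, hb, hab⟩ := h3 i
      exact ⟨b, hb, a, ha, hab.symm⟩
    · exact h.2.2 i j fun e' => e (congrArg _ e')

theorem single {V : Type} (G : SimpleGraph V) (v : V) : (G.induce {v}).Connected := by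
  rw [SimpleGraph.induce_singleton_eq_top]
  exact SimpleGraph.connected_top

end Order

open _root_.Pool.Agent.Lib.MP_453ac3_co.LB.Order in
theorem order (h : MaderStmt) (h2 : TwoStmt) : OrderStmt := by
  classical
  intro V _ G hP a b C hab hC
  rcases C.eq_empty_or_nonempty with rfl | ⟨x₀, hx₀⟩
  · exact ⟨0, fun _ => a, by simp, by simp, by simp, by simp⟩
  have a1 : ∀ w ∈ C.erase x₀, ∀ x ∈ C.erase x₀, ∀ y ∈ C.erase x₀, ∀ z ∈ C.erase x₀,
      G.Adj w x → G.Adj w y → G.Adj w z → x ≠ y → x ≠ z → y = z := by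
    intro w hw x hx y hy z hz b1 b2 b3 b4 b5
    by_contra b6
    have hw' := hC w (mem_of_mem_erase hw)
    have := h2 V G hP a b w hab hw'.1.ne' hw'.2.ne'
    rw [num_eq] at this
    have c : ∀ t ∈ C.erase x₀, G.Adj w t →
        t ∈ univ.filter fun y => G.Adj y a ∧ G.Adj y b ∧ G.Adj y w := fun t ht e =>
      mem_filter.2 ⟨mem_univ _, (hC t (mem_of_mem_erase ht)).1, (hC t (mem_of_mem_erase ht)).2,
        e.symm⟩
    exact absurd (two_lt_card_iff.2 ⟨x, y, z, c x hx b1, c y hy b2, c z hz b3, b4, b5, b6⟩)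
      (not_lt.2 this)
  have a2 : ∀ Z ⊆ C.erase x₀, Z.Nonempty →
      ∃ v ∈ Z, ∀ x ∈ Z, ∀ y ∈ Z, G.Adj v x → G.Adj v y → x = y := by
    intro Z hZ hne
    by_contra hc
    push Not at hc
    obtain ⟨f, f1, f2, f3, f4, f5⟩ := h V V G 1 Z (fun v => {v}) hne (fun v _ => single G v)
      (fun u _ v _ e => Set.disjoint_singleton.2 e) (by
        rw [num_eq_sum, sum_product, mul_comm, ← smul_eq_mul, ← sum_const]
        refine sum_le_sum fun v hv => ?_
        obtain ⟨x, hx, y, hy, b1, b2, b3⟩ := hc v hv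
        rw [← card_filter]
        exact one_lt_card.2 ⟨x, mem_filter.2 ⟨hx, b1.ne, v, rfl, x, rfl, b1⟩,
          y, mem_filter.2 ⟨hy, b2.ne, v, rfl, y, rfl, b2⟩, b3⟩)
    have g1 : ∀ i, ∀ x ∈ f i, x ∈ C.erase x₀ := fun i x hx => by
      obtain ⟨u, hu, e⟩ := f4 i x hx
      exact hZ (e ▸ hu)
    have g2 : ∀ i, ∃ u ∈ f i, G.Adj a u ∧ G.Adj b u := fun i => by
      obtain ⟨u, hu, e⟩ := f5 i
      have := hC u (mem_of_mem_erase (hZ hu))
      exact ⟨u, e rfl, this.1.symm, this.2.symm⟩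
    have c1 : Cl G (Fin.cons {b} f : Fin (1 + 2 + 1) → Set V) :=
      Cl.cons ⟨f1, f2, f3⟩ (single G b)
        (fun i => Set.disjoint_singleton_left.2 fun e =>
          (hC b (mem_of_mem_erase (g1 i b e))).2.ne rfl)
        fun i => (g2 i).elim fun u hu => ⟨b, rfl, u, hu.1, hu.2.2⟩
    refine hP.1 ⟨_, c1.cons (A := {a, x₀})
      (SimpleGraph.induce_pair_connected_of_adj (hC x₀ hx₀).1.symm) (fun i => ?_) fun i => ?_⟩
    · refine Set.disjoint_left.2 ?_
      refine Fin.cases ?_ (fun i => ?_) i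
      · rintro x (rfl | rfl) e
        exacts [hab e, (hC x hx₀).2.ne e]
      · rintro x (rfl | rfl) e
        exacts [(hC x (mem_of_mem_erase (g1 i x e))).1.ne rfl, ne_of_mem_erase (g1 i x e) rfl]
    · refine Fin.cases ?_ (fun i => ?_) i
      · exact ⟨x₀, Or.inr rfl, b, rfl, (hC x₀ hx₀).2⟩
      · exact (g2 i).elim fun u hu => ⟨a, Or.inl rfl, u, hu.1, hu.2.1⟩
  have hc := card_erase_add_one hx₀
  rcases (C.erase x₀).eq_empty_or_nonempty with e | hne
  · rw [e] at hc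
    exact ⟨0, fun _ => a, hc.ge, by simp, by simp, by simp⟩
  obtain ⟨v, hv, hl⟩ := a2 _ Subset.rfl hne
  obtain ⟨n, hn⟩ := Nat.exists_eq_add_one_of_ne_zero hne.card_pos.ne'
  obtain ⟨o, -, o1, o2, o3⟩ := line G _ a1 a2 n _ Subset.rfl hn v hv hl
  exact ⟨n + 1, o, by omega, fun p hp => mem_of_mem_erase (o1 p hp), o2, o3⟩

end Pool.Agent.Lib.MP_453ac3_co.LB
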