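import Pool.Agent.Lib.MP_453ac3_co.LB.St

namespace Pool.Agent.Lib.MP_453ac3_co.LB

open Finset

namespace PathSys

theorem notri {V : Type} {G : SimpleGraph V} {u v : V} (p : G.Walk u v) (hp : p.IsPath) {x y z : V}
    (h1 : s(x, y) ∈ p.edges) (h2 : s(y, z) ∈ p.edges) (h3 : s(z, x) ∈ p.edges) : False := by
  induction p with
  | nil => simp at h1
  | @cons u u' v h q ih =>
    have key : ∀ {s t : V}, s(s, t) ∈ (SimpleGraph.Walk.cons h q).edges →
        s(u, s) ∈ (SimpleGraph.Walk.cons h q).edges →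
        s(t, u) ∈ (SimpleGraph.Walk.cons h q).edges → False := fun a1 a2 a3 =>
      (SimpleGraph.Walk.adj_of_mem_edges _ a1).ne
        ((hp.eq_snd_of_mem_edges a2).trans (hp.eq_snd_of_mem_edges (Sym2.eq_swap ▸ a3)).symm)
    by_cases e1 : x = u
    · subst e1
      exact key h2 h1 h3
    by_cases e2 : y = u
    · subst e2
      exact key h3 h2 h1
    by_cases e3 : z = u
    · subst e3
      exact key h1 h3 h2
    have sub : ∀ {s t : V}, s ≠ u → t ≠ u → s(s, t) ∈ (SimpleGraph.Walk.cons h q).edges →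
        s(s, t) ∈ q.edges := by
      intro s t a1 a2 a3
      rw [SimpleGraph.Walk.edges_cons, List.mem_cons, Sym2.eq_iff] at a3
      tauto
    exact ih hp.of_cons (sub e1 e2 h1) (sub e2 e3 h2) (sub e3 e1 h3)

theorem num_edges {V : Type} [Fintype V] [DecidableEq V] (U : Finset (Sym2 V)) (v : V) :
    num univ (fun w => s(v, w) ∈ U) = (U.filter (v ∈ ·)).card := by
  rw [num_eq]
  refine card_bij (fun w _ => s(v, w))
    (fun w hw => mem_filter.2 ⟨(mem_filter.1 hw).2, Sym2.mem_mk_left _ _⟩)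
    (fun w _ w' _ e => Sym2.congr_right.1 e) fun e he => ?_
  obtain ⟨w, rfl⟩ := Sym2.mem_iff_exists.1 (mem_filter.1 he).2
  exact ⟨w, mem_filter.2 ⟨mem_univ _, (mem_filter.1 he).1⟩, rfl⟩

theorem par {V : Type} [Fintype V] [DecidableEq V] {G : SimpleGraph V} {u u' : V}
    {p : G.Walk u u'} (hp : p.IsPath) (hu : u ≠ u') (v : V) :
    Odd (num univ fun w => s(v, w) ∈ p.edges.toFinset) ↔ v = u ∨ v = u' := by
  have h := hp.isTrail.even_countP_edges_iff v
  rw [List.countP_eq_length_filter,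
    ← List.toFinset_card_of_nodup (hp.isTrail.edges_nodup.filter _), List.toFinset_filter] at h
  rw [num_edges, ← Nat.not_even_iff_odd]
  simp only [decide_eq_true_eq] at h
  rw [h]
  tauto

end PathSys

open _root_.Pool.Agent.Lib.MP_453ac3_co.LB.PathSys in
theorem pathSys : PathSysStmt := by
  classical
  intro V J _ _ G f g hG hfg
  obtain ⟨P, hP, hD⟩ : ∃ P : ∀ j, G.Walk (f j) (g j), (∀ j, (P j).IsPath) ∧
      ∀ i j e, e ∈ (P i).edges → e ∈ (P j).edges → i = j := by
    set σ := Fintype.equivFin J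
    obtain ⟨Q, h1, h2⟩ := hG _ (f ∘ σ.symm) (g ∘ σ.symm) (by
      rw [← Sum.elim_comp_map]
      exact hfg.comp (Sum.map_injective.2 ⟨σ.symm.injective, σ.symm.injective⟩))
    refine ⟨fun j => (Q (σ j)).copy (by simp) (by simp), fun j => by simpa using h1 _,
      fun i j e a1 a2 => ?_⟩
    by_contra hc
    rw [SimpleGraph.Walk.edges_copy] at a1 a2
    exact h2 (σ.injective.ne hc) a1 a2
  have hne : ∀ j, f j ≠ g j := fun j e =>
    Sum.inl_ne_inr (@hfg (Sum.inl j) (Sum.inr j) e)
  have hend : ∀ i j v, v = f i ∨ v = g i → v = f j ∨ v = g j → i = j := by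
    rintro i j v (rfl | rfl) (e | e)
    · exact Sum.inl.inj (@hfg (Sum.inl i) (Sum.inl j) e)
    · exact absurd (@hfg (Sum.inl i) (Sum.inr j) e) Sum.inl_ne_inr
    · exact absurd (@hfg (Sum.inr i) (Sum.inl j) e) Sum.inr_ne_inl
    · exact Sum.inr.inj (@hfg (Sum.inr i) (Sum.inr j) e)
  have hdis : ((univ : Finset J) : Set J).PairwiseDisjoint fun j => (P j).edges.toFinset :=
    fun i _ j _ e => disjoint_left.2 fun x a1 a2 =>
      e (hD i j x (List.mem_toFinset.1 a1) (List.mem_toFinset.1 a2))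
  have hU : ∀ e, e ∈ (univ.biUnion fun j => (P j).edges.toFinset) ↔ ∃ j, e ∈ (P j).edges := by
    simp
  refine ⟨P, _, hU, fun w => ?_, fun j v hv => ?_, ?_⟩
  · rw [sum_biUnion hdis]
    exact sum_congr rfl fun j _ => (List.sum_toFinset w (hP j).isTrail.edges_nodup).symm
  · rw [num_edges, filter_biUnion, card_biUnion fun i hi j hj e =>
      disjoint_filter_filter (hdis hi hj e), odd_sum_iff_odd_card_odd]
    have : (univ.filter fun i => Odd ((P i).edges.toFinset.filter (v ∈ ·)).card) = {j} := by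
      ext i
      rw [mem_filter, ← num_edges, par (hP i) (hne i), mem_singleton]
      exact ⟨fun h => hend i j v h.2 hv, fun h => ⟨mem_univ _, h ▸ hv⟩⟩
    rw [this]
    exact odd_one
  have loc : ∀ j k v v' a b, v = f j ∨ v = g j →
      (∀ w, (∃ i, s(v, w) ∈ (P i).edges) → w = a ∨ w = b ∨ w = v') → s(v, b) ∈ (P k).edges →
      b ∉ (P j).support → s(v, v') ∈ (P j).edges ∨ s(v, v') ∈ (P k).edges := by
    intro j k v v' a b hv hn hk hb
    have a1 : k ≠ j := by
      rintro rfl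
      exact hb ((P k).snd_mem_support_of_mem_edges hk)
    obtain ⟨y, -, hy⟩ := num_pos.1 ((par (hP j) (hne j) v).2 hv).pos
    rw [List.mem_toFinset] at hy
    obtain ⟨y', hy', a2⟩ : ∃ y', s(v, y') ∈ (P k).edges ∧ y' ≠ b := by
      by_contra hc
      push Not at hc
      refine a1 (hend k j v ((par (hP k) (hne k) v).1 ?_) hv)
      have : (univ.filter fun w => s(v, w) ∈ (P k).edges.toFinset) = {b} := by
        ext w
        rw [mem_filter, List.mem_toFinset, mem_singleton]
        exact ⟨fun h => hc w h.2, fun h => ⟨mem_univ _, h ▸ hk⟩⟩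
      rw [num_eq, this]
      exact odd_one
    have a3 : y ≠ b := by
      rintro rfl
      exact hb ((P j).snd_mem_support_of_mem_edges hy)
    have a4 : y ≠ y' := by
      rintro rfl
      exact a1 (hD _ _ _ hy' hy)
    rcases hn y ⟨j, hy⟩ with e | e | e
    · rcases hn y' ⟨k, hy'⟩ with e' | e' | e'
      exacts [absurd (e.trans e'.symm) a4, absurd e' a2, Or.inr (e' ▸ hy')]
    exacts [absurd e a3, Or.inl (e ▸ hy)]
  intro j j' v v' a b hj hv hv' h1 h2 h3 h4
  simp only [hU] at h1 h2 h3 h4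
  obtain ⟨k, hk⟩ := h3
  obtain ⟨k', hk'⟩ := h4
  by_contra hc
  rw [not_or] at hc
  have b1 := loc j k v v' a b hv h1 hk hc.1
  have b2 := loc j' k' v' v a b hv' h2 hk' hc.2
  rw [Sym2.eq_swap] at b2
  rcases b1 with b1 | b1 <;> rcases b2 with b2 | b2 <;> obtain rfl := hD _ _ _ b1 b2
  · exact hj rfl
  · exact hc.1 ((P j).snd_mem_support_of_mem_edges hk')
  · exact hc.2 ((P _).snd_mem_support_of_mem_edges hk)
  · exact notri _ (hP k) b1 hk' (Sym2.eq_swap ▸ hk)

end Pool.Agent.Lib.MP_453ac3_co.LB
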