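import Pool.Agent.Lib.MP_453ac3_co.LB.St

namespace Pool.Agent.Lib.MP_453ac3_co.LB

open Finset

namespace Plan

/-- path metric of the 4-cycle `0 1 3 2` -/
def rho (a b : Fin 4) : ℕ := ![![0, 1, 1, 2], ![1, 0, 2, 1], ![1, 2, 0, 1], ![2, 1, 1, 0]] a b

def sig : Sym2 (Fin 4) → ℕ := Sym2.lift ⟨rho, by decide⟩

def ty : Fin 5 → Sym2 (Fin 4) := ![s(0, 0), s(0, 1), s(0, 2), s(1, 3), s(2, 3)]

def f0 : Fin 5 → Sym2 (Fin 4) := ![s(0, 3), s(0, 0), s(0, 0), s(0, 0), s(0, 0)]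

def g0 : Fin 5 → Sym2 (Fin 4) := ![s(1, 2), s(0, 3), s(1, 2), s(1, 3), s(2, 3)]

def l0 : Fin 5 → Fin 4 → ℕ := ![![1, 1, 1, 1], ![0, 0, 0, 0], ![0, 0, 0, 0], ![0, 0, 0, 0],
  ![0, 0, 0, 0]]

def l1 : Fin 5 → Fin 4 → ℕ := ![![1, 1, 1, 1], ![2, 0, 0, 0], ![1, 1, 1, 1], ![0, 1, 0, 0],
  ![0, 0, 1, 0]]

def c0 : Fin 5 → ℕ := ![3, 2, 2, 2, 2]

def sg : Fin 5 → ℕ := ![0, 1, 1, 1, 1]

def one (v a : Fin 4) : ℕ := if a = v then 1 else 0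

theorem met : Met rho := ⟨by decide, by decide, by decide⟩

instance (lam : Sym2 (Fin 4)) (l : Fin 4 → ℕ) (s : ℕ) : Decidable (Adm rho lam l s) := by
  unfold Adm
  infer_instance

theorem adm0 : ∀ a b : Fin 4,
    Adm rho s(a, b) (fun c => if c = a then rho a b else 0) (sig s(a, b)) := by decide +kernel

theorem adm1 : ∀ j : Fin 5, Adm rho (f0 j) (l0 j) (sig (f0 j)) ∧
    Adm rho (g0 j) (l1 j) (sig (g0 j)) ∧
    ∀ a : Fin 4, a ∈ f0 j → ∀ b : Fin 4, b ∈ g0 j → c0 j ≤ l0 j a + rho a b + l1 j b := by decide +kernel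

theorem adm2 : ∀ i j : Fin 5, i ≠ j → ∃ v w : Fin 4, Adm rho (ty i) (one v) (sig (ty i)) ∧
    Adm rho (ty j) (one w) (sig (ty j)) ∧
    ∀ a : Fin 4, a ∈ ty i → ∀ b : Fin 4, b ∈ ty j →
      sg i + sg j ≤ one v a + rho a b + one w b := by decide +kernel

theorem univ_eq : (univ : Finset (Sym2 (Fin 4))) = {s(0, 0), s(0, 1), s(0, 2), s(0, 3), s(1, 1),
    s(1, 2), s(1, 3), s(2, 2), s(2, 3), s(3, 3)} := by decide +kernel

theorem sum_eq (F : Sym2 (Fin 4) → ℕ) : ∑ lam, F lam = F s(0, 0) + F s(0, 1) + F s(0, 2) +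
    F s(0, 3) + F s(1, 1) + F s(1, 2) + F s(1, 3) + F s(2, 2) + F s(2, 3) + F s(3, 3) := by
  rw [univ_eq]
  repeat rw [sum_insert (by decide)]
  rw [sum_singleton]
  ring

theorem all (P : Sym2 (Fin 4) → Prop) (h : P s(0, 0) ∧ P s(0, 1) ∧ P s(0, 2) ∧ P s(0, 3) ∧
    P s(1, 1) ∧ P s(1, 2) ∧ P s(1, 3) ∧ P s(2, 2) ∧ P s(2, 3) ∧ P s(3, 3)) : ∀ lam, P lam := by
  intro lam
  have := mem_univ lam
  rw [univ_eq] at this
  simp only [mem_insert, mem_singleton] at this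
  rcases this with rfl | rfl | rfl | rfl | rfl | rfl | rfl | rfl | rfl | rfl <;> tauto

theorem core (h : MultiStmt) (x : Sym2 (Fin 4) → ℕ) (T : Sym2 (Fin 4) → Prop) (E K : ℕ)
    (hM : MLX x T E) (hT : T s(0, 3)) (y w u q1 q2 r0 r3 r4 e1 e2 : ℕ) (h0 : w + 3 * y = 3 * K)
    (h1 : u + 3 * y + e1 = x s(0, 3)) (h2 : u + e2 = x s(1, 2)) (h3 : q1 + q2 = u + 3 * K)
    (h4 : q1 + r3 = x s(1, 3)) (h5 : q2 + r4 = x s(2, 3))
    (h6 : e1 + e2 + q1 + q2 + r0 ≤ x s(0, 0))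
    (h7 : ∀ a, 2 * ![r0, x s(0, 1), x s(0, 2), r3, r4] a ≤
      r0 + x s(0, 1) + x s(0, 2) + r3 + r4 + 1) : K ≤ E + 32 := by
  obtain ⟨z, z1, z2, z3⟩ := h (Fin 5) ![r0, x s(0, 1), x s(0, 2), r3, r4]
    (by simpa [Fin.sum_univ_five] using h7)
  set R : Fin 5 → ℕ := fun a => ∑ b, z a b with hR
  set C : Fin 5 → ℕ := fun a => ∑ b, z b a with hC
  have hRC : ∑ a, R a = ∑ a, C a := sum_comm
  have a1 : ∀ lam, (∑ p : Fin 5 × Fin 5, if ty p.1 = lam then z p.1 p.2 else 0) =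
      ∑ a, if ty a = lam then R a else 0 := by
    intro lam
    rw [Fintype.sum_prod_type]
    refine sum_congr rfl fun a _ => ?_
    split_ifs <;> simp [hR]
  have a2 : ∀ lam, (∑ p : Fin 5 × Fin 5, if ty p.2 = lam then z p.1 p.2 else 0) =
      ∑ a, if ty a = lam then C a else 0 := by
    intro lam
    rw [Fintype.sum_prod_type_right]
    refine sum_congr rfl fun a _ => ?_
    split_ifs <;> simp [hC]
  have a3 : (∑ p : Fin 5 × Fin 5, z p.1 p.2 * (sg p.1 + sg p.2)) =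
      ∑ a, R a * sg a + ∑ a, C a * sg a := by
    simp only [mul_add, sum_add_distrib, hR, hC, sum_mul]
    rw [Fintype.sum_prod_type, Fintype.sum_prod_type_right]
  have b0 : R 0 + C 0 ≤ r0 := z1 0
  have b1 : R 1 + C 1 ≤ x s(0, 1) := z1 1
  have b2 : R 2 + C 2 ≤ x s(0, 2) := z1 2
  have b3 : R 3 + C 3 ≤ r3 := z1 3
  have b4 : R 4 + C 4 ≤ r4 := z1 4
  have b5 : r0 + x s(0, 1) + x s(0, 2) + r3 + r4 ≤ 2 * ∑ a, R a + 1 := by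
    simpa [Fin.sum_univ_five, hR] using z3
  clear_value R C
  have k := hM rho met sig
    (fun lam _ => by
      induction lam using Sym2.ind with
      | _ a b => exact ⟨_, adm0 a b⟩)
    (Fin 5 ⊕ Fin 5 × Fin 5) (Sum.elim f0 fun p => ty p.1) (Sum.elim g0 fun p => ty p.2)
    (Sum.elim ![u, e1, e2, q1, q2] fun p => z p.1 p.2)
    (Sum.elim c0 fun p => sg p.1 + sg p.2) (fun lam => if lam = s(0, 3) then y else 0)
    (by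
      rintro (j | ⟨i, j⟩) hj
      · exact ⟨_, _, adm1 j⟩
      · have hij : i ≠ j := by
          rintro rfl
          simp [z2] at hj
        obtain ⟨v, w, hv⟩ := adm2 i j hij
        exact ⟨_, _, hv⟩)
    (by
      intro lam hl
      have : lam = s(0, 3) := by
        by_contra hne
        simp [hne] at hl
      subst this
      exact ⟨hT, by decide, by decide⟩)
    (by
      simp only [Fintype.sum_sum_type, Sum.elim_inl, Sum.elim_inr, a1, a2]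
      refine all _ ⟨?_, ?_, ?_, ?_, ?_, ?_, ?_, ?_, ?_, ?_⟩ <;>
        simp [Fin.sum_univ_five, f0, g0, ty] <;> omega)
  simp only [Fintype.sum_sum_type, Sum.elim_inl, Sum.elim_inr, a3] at k
  rw [sum_eq fun lam => x lam * sig lam] at k
  simp [Fin.sum_univ_five, c0, sg, sig, rho] at k hRC b5
  linarith

theorem split (B C q h : ℕ) (h1 : q ≤ B + C) (h2 : B ≤ q + h) (h3 : C ≤ q + h)
    (h4 : B + C ≤ q + 2 * h) :
    ∃ q1 q2 r3 r4, q1 + q2 = q ∧ q1 + r3 = B ∧ q2 + r4 = C ∧ r3 ≤ h ∧ r4 ≤ h := by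
  obtain ⟨q1, a1, a2, a3, a4, a5⟩ : ∃ q1, q1 ≤ q ∧ q1 ≤ B ∧ B ≤ q1 + h ∧ q ≤ q1 + C ∧
      C + q1 ≤ q + h := ⟨max (B - h) (q - C), by omega⟩
  exact ⟨q1, q - q1, B - q1, C - (q - q1), by omega⟩

theorem arith (a Aj Ak d1 d2 Bj Bk K N : ℕ) (hN : N = a + Aj + Ak + d1 + d2 + Bj + Bk)
    (c1 : d1 ≤ a) (c2 : d2 + 12 * K ≤ a) (c3 : 2 * (Aj + d1 + d2) + 12 * K ≤ N)
    (c4 : 2 * (Ak + d1 + d2) + 12 * K ≤ N) (c5 : 20 * (Bj + d1) ≤ 9 * N)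
    (c6 : 20 * (Bj + d2) ≤ 9 * N) (c7 : 20 * (Bk + d1) ≤ 9 * N) (c8 : 20 * (Bk + d2) ≤ 9 * N)
    (c9 : 10 * (2 * a + d1 + Aj + Ak) ≤ 9 * N) (c10 : 60 * K ≤ N) :
    ∃ y w u q1 q2 r0 r3 r4 e1 e2 : ℕ, w + 3 * y = 3 * K ∧
      u + 3 * y + e1 = d1 ∧ u + e2 = d2 ∧ q1 + q2 = u + 3 * K ∧
      q1 + r3 = Bj ∧ q2 + r4 = Bk ∧ e1 + e2 + q1 + q2 + r0 ≤ a ∧
      2 * r0 ≤ r0 + Aj + Ak + r3 + r4 + 1 ∧ 2 * Aj ≤ r0 + Aj + Ak + r3 + r4 + 1 ∧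
      2 * Ak ≤ r0 + Aj + Ak + r3 + r4 + 1 ∧ 2 * r3 ≤ r0 + Aj + Ak + r3 + r4 + 1 ∧
      2 * r4 ≤ r0 + Aj + Ak + r3 + r4 + 1 := by
  have p1 : d1 + d2 + 12 * K ≤ a + Bj + Bk := by linarith
  have p2 : 6 * K ≤ Bj + Bk := by linarith
  obtain ⟨y, w, y0, y1, y2⟩ : ∃ y w, w + 3 * y = 3 * K ∧ 3 * y ≤ d1 ∧ d1 + w ≤ a := by
    by_cases hc : d2 + 6 * K ≤ d1
    · exact ⟨K, 0, by simp, by linarith, c1⟩
    · exact ⟨0, 3 * K, by simp, by simp, by linarith [not_le.1 hc]⟩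
  obtain ⟨u, u1, u2, u3, u4⟩ : ∃ u, u + 3 * y ≤ d1 ∧ u ≤ d2 ∧ u + 3 * K ≤ Bj + Bk ∧
      (u + 3 * y = d1 ∨ u = d2 ∨ u + 3 * K = Bj + Bk) := by
    clear hN c1 c2 c3 c4 c5 c6 c7 c8 c9 c10 p1 y0 y2
    exact ⟨min (d1 - 3 * y) (min d2 (Bj + Bk - 3 * K)), by omega⟩
  obtain ⟨r, hr⟩ : ∃ r, a + u = d1 + d2 + w + r :=
    Nat.exists_eq_add_of_le (by rcases u4 with h | h | h <;> linarith)
  obtain ⟨e1, he1⟩ := Nat.exists_eq_add_of_le u1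
  obtain ⟨e2, he2⟩ := Nat.exists_eq_add_of_le u2
  by_cases hc : Aj + Ak + Bj + Bk ≤ r + (u + 3 * K)
  · obtain ⟨q1, q2, r3, r4, a1, a2, a3, -, -⟩ := split Bj Bk (u + 3 * K) (Bj + Bk) u3
      (by linarith) (by linarith) (by linarith)
    refine ⟨y, w, u, q1, q2, Aj + Ak + r3 + r4, r3, r4, e1, e2, y0, he1.symm, he2.symm, a1, a2,
      a3, ?_, ?_, ?_, ?_, ?_, ?_⟩ <;> linarith
  · have hc' := not_le.1 hc
    obtain ⟨R, hR⟩ : ∃ R, r + Aj + Ak + Bj + Bk = u + 3 * K + R :=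
      Nat.exists_eq_add_of_le (by linarith)
    obtain ⟨h, h1, h2⟩ : ∃ h, R ≤ 2 * h ∧ 2 * h ≤ R + 1 :=
      ⟨(R + 1) / 2, by clear * -; omega, by clear * -; omega⟩
    have t1 : 2 * Bj ≤ 2 * (u + 3 * K + h) := by rcases u4 with h | h | h <;> linarith
    have t2 : 2 * Bk ≤ 2 * (u + 3 * K + h) := by rcases u4 with h | h | h <;> linarith
    obtain ⟨q1, q2, r3, r4, a1, a2, a3, a4, a5⟩ := split Bj Bk (u + 3 * K) h u3
      (by linarith) (by linarith) (by linarith)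
    refine ⟨y, w, u, q1, q2, r, r3, r4, e1, e2, y0, he1.symm, he2.symm, a1, a2,
      a3, ?_, ?_, ?_, ?_, ?_, ?_⟩ <;> linarith

end Plan

theorem plan (h : MultiStmt) : PlanStmt := by
  intro x T E K N hM hT _ _ _ hN c1 c2 c3 c4 c5 c6 c7 c8 c9 c10
  obtain ⟨y, w, u, q1, q2, r0, r3, r4, e1, e2, h0, h1, h2, h3, h4, h5, h6, h7⟩ :=
    Plan.arith _ _ _ _ _ _ _ K N hN c1 c2 c3 c4 c5 c6 c7 c8 c9 c10
  refine Plan.core h x T E K hM hT y w u q1 q2 r0 r3 r4 e1 e2 h0 h1 h2 h3 h4 h5 h6 fun a => ?_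
  fin_cases a
  exacts [h7.1, h7.2.1, h7.2.2.1, h7.2.2.2.1, h7.2.2.2.2]

end Pool.Agent.Lib.MP_453ac3_co.LB
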