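import Pool.Agent.Lib.MP_453ac3_co.LB.St

namespace Pool.Agent.Lib.MP_453ac3_co.LB

open Finset

namespace Round

/-- partners and colours in a weighted graph which is seven-degenerate -/
theorem partner {ι : Type} [DecidableEq ι] (W : ι → ι → ℕ) (hs : ∀ a b, W a b = W b a)
    (hd : ∀ T : Finset ι, T.Nonempty → ∃ a ∈ T, num T (fun b => 0 < W a b) ≤ 7) (T : Finset ι) :
    ∃ (p : ι → ι) (col : ι → Bool), (∀ a ∈ T, p a ∈ T ∧ (p a ≠ a → col a ≠ col (p a))) ∧
      ∑ a ∈ T, ∑ b ∈ T, W a b ≤ 14 * ∑ a ∈ T, W a (p a) := by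
  induction T using Finset.strongInduction with
  | H T ih =>
  rcases T.eq_empty_or_nonempty with rfl | hT
  · exact ⟨id, fun _ => true, by simp, by simp⟩
  obtain ⟨a, ha, h7⟩ := hd T hT
  obtain ⟨p, col, h1, h2⟩ := ih (T.erase a) (erase_ssubset ha)
  obtain ⟨b, hb, hm⟩ := exists_max_image T (W a) hT
  refine ⟨Function.update p a b, Function.update col a (!col b), fun x hx => ?_, ?_⟩
  · by_cases e : x = a
    · subst e
      rw [Function.update_self, Function.update_self]
      refine ⟨hb, fun hne => ?_⟩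
      rw [Function.update_of_ne hne]
      simp
    · obtain ⟨k1, k2⟩ := h1 x (mem_erase.2 ⟨e, hx⟩)
      rw [Function.update_of_ne e, Function.update_of_ne e,
        Function.update_of_ne (mem_erase.1 k1).1]
      exact ⟨(mem_erase.1 k1).2, k2⟩
  · have e1 : ∑ x ∈ T, W a x ≤ 7 * W a b := by
      rw [num_eq] at h7
      calc ∑ x ∈ T, W a x = ∑ x ∈ T with 0 < W a x, W a x := by
            rw [sum_filter]
            exact sum_congr rfl fun x _ => by split_ifs <;> omega
        _ ≤ (T.filter fun x => 0 < W a x).card • W a b :=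
            sum_le_card_nsmul _ _ _ fun x hx => hm x (mem_filter.1 hx).1
        _ ≤ 7 * W a b := Nat.mul_le_mul_right _ h7
    have e2 : ∑ x ∈ T, W x (Function.update p a b x) = W a b + ∑ x ∈ T.erase a, W x (p x) := by
      rw [← add_sum_erase T _ ha, Function.update_self]
      congr 1
      exact sum_congr rfl fun x hx => by rw [Function.update_of_ne (mem_erase.1 hx).1]
    have e3 : ∑ x ∈ T.erase a, ∑ y ∈ T, W x y =
        ∑ x ∈ T.erase a, W a x + ∑ x ∈ T.erase a, ∑ y ∈ T.erase a, W x y := by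
      rw [← sum_add_distrib]
      exact sum_congr rfl fun x _ => by rw [← add_sum_erase T _ ha, hs x a]
    have e4 : ∑ x ∈ T.erase a, W a x ≤ ∑ x ∈ T, W a x := sum_le_sum_of_subset (erase_subset _ _)
    rw [← add_sum_erase T _ ha, e2, e3]
    omega

variable {V : Type} [Fintype V] [DecidableEq V] (G : SimpleGraph V) (R : Finset V) (c : V → V)

/-- the number of ordered edges between two different clusters -/
noncomputable def W (a b : V) : ℕ :=
  cnt G fun u v => u ∈ R ∧ v ∈ R ∧ c u = a ∧ c v = b ∧ a ≠ b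

omit [DecidableEq V] in
theorem W_symm (a b : V) : W G R c a b = W G R c b a := by
  unfold W
  rw [cnt_swap]
  exact num_congr fun x _ => by tauto

omit [DecidableEq V] in
theorem W_pos {a b : V} : 0 < W G R c a b ↔
    a ≠ b ∧ ∃ u ∈ R, ∃ v ∈ R, c u = a ∧ c v = b ∧ G.Adj u v := by
  unfold W cnt
  rw [num_pos]
  constructor
  · rintro ⟨x, -, h1, h2, h3, h4, h5, h6⟩
    exact ⟨h6, _, h2, _, h3, h4, h5, h1⟩
  · rintro ⟨h6, u, h2, v, h3, h4, h5, h1⟩
    exact ⟨(u, v), mem_univ _, h1, h2, h3, h4, h5, h6⟩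

omit [DecidableEq V] in
theorem W_self (a : V) : W G R c a a = 0 :=
  Nat.eq_zero_of_not_pos fun h => ((W_pos G R c).1 h).1 rfl

/-- edges between clusters are counted label by label -/
theorem cnt_fib (P : V → V → Prop) [∀ a b, Decidable (P a b)] (hP : ∀ a, ¬ P a a) :
    cnt G (fun u v => u ∈ R ∧ v ∈ R ∧ P (c u) (c v)) =
      ∑ a, ∑ b, if P a b then W G R c a b else 0 := by
  classical
  rw [← Fintype.sum_prod_type', cnt, num_eq,
    card_eq_sum_card_fiberwise (f := fun x : V × V => (c x.1, c x.2)) (t := univ)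
      fun _ _ => mem_univ _]
  refine sum_congr rfl fun y _ => ?_
  rw [filter_filter]
  split_ifs with h
  · rw [W, cnt, num_eq]
    congr 1
    ext x
    simp only [mem_filter, mem_univ, true_and, Prod.ext_iff]
    constructor
    · rintro ⟨⟨h1, h2, h3, -⟩, h5, h6⟩
      exact ⟨h1, h2, h3, h5, h6, fun e => hP y.2 (e ▸ h)⟩
    · rintro ⟨h1, h2, h3, h5, h6, -⟩
      exact ⟨⟨h1, h2, h3, h5 ▸ h6 ▸ h⟩, h5, h6⟩
  · rw [card_eq_zero, filter_eq_empty_iff]
    rintro x - ⟨⟨-, -, -, h4⟩, rfl⟩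
    exact h h4

theorem sum_W_le (b : V) : ∑ a, W G R c a b ≤ ∑ v ∈ R with c v = b, (dg G v + 1) := by
  have h1 := cnt_fib G R c (fun x y => x = b ∧ y ≠ b) (by tauto)
  have h2 : ∑ a, W G R c a b = ∑ x, ∑ y, if x = b ∧ y ≠ b then W G R c x y else 0 := by
    rw [sum_comm]
    refine sum_congr rfl fun y _ => ?_
    by_cases e : y = b
    · simp [e, W_self]
    · simp [e, W_symm G R c y b]
  rw [h2, ← h1]
  refine le_trans (cnt_mono (Q := fun u _ => u ∈ R.filter fun v => c v = b)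
    fun u v _ h => mem_filter.2 ⟨h.1, h.2.2.1⟩) ?_
  rw [cnt_left]
  exact sum_le_sum fun _ _ => Nat.le_succ _

theorem degen (h : DegenStmt) (hG : IsPlanar G)
    (hc : ∀ v ∈ R, (G.induce {w | w ∈ R ∧ c w = c v}).Connected) (T : Finset V)
    (hT : T.Nonempty) : ∃ a ∈ T, num T (fun b => 0 < W G R c a b) ≤ 7 := by
  by_cases h1 : ∀ a ∈ T, ∃ v ∈ R, c v = a
  · obtain ⟨a, ha, h2⟩ := h V V G hG T (fun a => {w | w ∈ R ∧ c w = a}) hT
      (fun a ha => by
        obtain ⟨v, hv, rfl⟩ := h1 a ha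
        exact hc v hv)
      (fun a _ b _ hab => Set.disjoint_left.2 fun x h1 h2 => hab (h1.2.symm.trans h2.2))
    refine ⟨a, ha, le_trans (num_mono fun b hb hp => ⟨hb, ?_⟩) h2⟩
    obtain ⟨k, u, hu, v, hv, e1, e2, e3⟩ := (W_pos G R c).1 hp
    exact ⟨k, u, ⟨hu, e1⟩, v, ⟨hv, e2⟩, e3⟩
  · push Not at h1
    obtain ⟨a, ha, h2⟩ := h1
    refine ⟨a, ha, le_trans (Nat.le_of_not_lt fun h3 => ?_) (Nat.zero_le 7)⟩
    obtain ⟨b, -, hp⟩ := num_pos.1 h3
    obtain ⟨-, u, hu, -, -, e1, -⟩ := (W_pos G R c).1 hp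
    exact h2 u hu e1

section

variable {G R c} {L : V → Prop} [DecidablePred L] {p : V → V}

omit [DecidableEq V] in
theorem conn (hc : ∀ v ∈ R, (G.induce {w | w ∈ R ∧ c w = c v}).Connected)
    (h1 : ∀ a, L a → 0 < W G R c a (p a)) (h2 : ∀ a, L a → ¬ L (p a)) (v : V) (hv : v ∈ R) :
    (G.induce {w | w ∈ R ∧ (if L (c w) then p (c w) else c w) =
      if L (c v) then p (c v) else c v}).Connected := by
  obtain ⟨u, hu, e1, e2⟩ : ∃ u ∈ R, ¬ L (c u) ∧ (if L (c v) then p (c v) else c v) = c u := by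
    by_cases k : L (c v)
    · obtain ⟨-, -, -, u, hu, -, e, -⟩ := (W_pos G R c).1 (h1 _ k)
      exact ⟨u, hu, e ▸ h2 _ k, by rw [if_pos k, e]⟩
    · exact ⟨v, hv, k, if_neg k⟩
  rw [e2]
  have sub : {w | w ∈ R ∧ c w = c u} ⊆
      {w | w ∈ R ∧ (if L (c w) then p (c w) else c w) = c u} :=
    fun w hw => ⟨hw.1, by rw [hw.2, if_neg e1]⟩
  refine G.induce_connected_of_patches u (sub ⟨hu, rfl⟩) fun {w} hw => ?_
  by_cases k : L (c w)
  · have e3 : p (c w) = c u := by rw [← hw.2, if_pos k]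
    obtain ⟨-, x, hx, y, hy, f1, f2, f3⟩ := (W_pos G R c).1 (h1 _ k)
    refine ⟨{z | z ∈ R ∧ c z = c w} ∪ {z | z ∈ R ∧ c z = c u}, Set.union_subset ?_ sub,
      Or.inr ⟨hu, rfl⟩, Or.inl ⟨hw.1, rfl⟩, ?_⟩
    · exact fun z hz => ⟨hz.1, by rw [hz.2, if_pos k, e3]⟩
    · exact (SimpleGraph.connected_induce_union (hc w hw.1).preconnected (hc u hu).preconnected
        ⟨hx, f1⟩ ⟨hy, f2.trans e3⟩ f3).preconnected _ _
  · have e3 : c w = c u := by rw [← hw.2, if_neg k]
    exact ⟨_, sub, ⟨hu, rfl⟩, ⟨hw.1, e3⟩, (hc u hu).preconnected _ _⟩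

theorem vol {q B : ℕ} (hB : ∀ a, ∑ v ∈ R with c v = a, (dg G v + 1) ≤ B)
    (h1 : ∀ a, L a → ∑ v ∈ R with c v = a, (dg G v + 1) ≤ q * W G R c a (p a)) (b : V) :
    ∑ v ∈ R with (if L (c v) then p (c v) else c v) = b, (dg G v + 1) ≤ (q + 1) * B := by
  rw [← sum_fiberwise (s := R.filter fun v => (if L (c v) then p (c v) else c v) = b) c]
  have k : ∀ a, ∑ v ∈ R.filter (fun v => (if L (c v) then p (c v) else c v) = b) with c v = a,
      (dg G v + 1) ≤ q * W G R c a b + if a = b then B else 0 := by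
    intro a
    by_cases e : (if L a then p a else a) = b
    · refine le_trans (sum_le_sum_of_subset (filter_subset_filter _ (filter_subset _ _))) ?_
      by_cases l : L a
      · rw [if_pos l] at e
        exact le_trans (e ▸ h1 a l) (Nat.le_add_right _ _)
      · rw [if_neg l] at e
        rw [if_pos e]
        exact le_trans (hB a) (Nat.le_add_left _ _)
    · rw [sum_eq_zero]
      · exact Nat.zero_le _
      · intro v hv
        rw [mem_filter, mem_filter] at hv
        exact absurd (hv.2 ▸ hv.1.2) e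
  refine le_trans (sum_le_sum fun a _ => k a) ?_
  rw [sum_add_distrib, ← mul_sum, sum_ite_eq', if_pos (mem_univ _), add_mul, one_mul]
  exact Nat.add_le_add_right (Nat.mul_le_mul_left _ ((sum_W_le G R c b).trans (hB b))) _

theorem cross (h2 : ∀ a, L a → ¬ L (p a)) :
    cnt G (fun u v => u ∈ R ∧ v ∈ R ∧
      (if L (c u) then p (c u) else c u) ≠ if L (c v) then p (c v) else c v) +
      ∑ a with L a, W G R c a (p a) ≤ ∑ a, ∑ b, W G R c a b := by
  rw [cnt_fib G R c (fun a b => (if L a then p a else a) ≠ if L b then p b else b)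
    fun _ h => h rfl, sum_filter, ← sum_add_distrib]
  refine sum_le_sum fun a _ => ?_
  by_cases l : L a
  · rw [if_pos l, if_pos l, ← add_sum_erase _ _ (mem_univ (p a)),
      ← add_sum_erase _ _ (mem_univ (p a)), if_neg (h2 a l), if_neg fun h => h rfl, zero_add,
      add_comm]
    exact Nat.add_le_add_left (sum_le_sum fun b _ => by split_ifs <;> simp) _
  · rw [if_neg l, if_neg l, add_zero]
    exact sum_le_sum fun b _ => by split_ifs <;> simp

end

end Round

open Round in
theorem round (h : DegenStmt) : RoundStmt := by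
  intro V _ _ G hG R q B c hc hB
  classical
  obtain ⟨p, col, h1, h2⟩ := partner (W G R c) (W_symm G R c)
    (degen G R c h hG hc) univ
  have hX : cnt G (fun u v => u ∈ R ∧ v ∈ R ∧ c u ≠ c v) = ∑ a, ∑ b, W G R c a b := by
    rw [cnt_fib G R c (fun a b => a ≠ b) fun _ h => h rfl]
    refine sum_congr rfl fun a _ => sum_congr rfl fun b _ => ?_
    split_ifs with e
    · rfl
    · rw [not_not.1 e, W_self]
  let A : V → Prop := fun a =>
    0 < W G R c a (p a) ∧ ∑ v ∈ R with c v = a, (dg G v + 1) ≤ q * W G R c a (p a)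
  have h3 : q * ∑ a, W G R c a (p a) ≤ q * ∑ a with A a ∧ col a = true, W G R c a (p a) +
      q * ∑ a with A a ∧ col a = false, W G R c a (p a) + ∑ v ∈ R, (dg G v + 1) := by
    rw [← sum_fiberwise (s := R) c, sum_filter, sum_filter, mul_sum, mul_sum, mul_sum,
      ← sum_add_distrib, ← sum_add_distrib]
    refine sum_le_sum fun a _ => ?_
    by_cases e : A a
    · cases col a <;> simp [e]
    · rcases not_and_or.1 e with k | k
      · exact le_trans (mul_eq_zero_of_right q (Nat.eq_zero_of_not_pos k)).le (Nat.zero_le _)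
      · exact le_trans (not_le.1 k).le (Nat.le_add_left _ _)
  obtain ⟨k, hk⟩ : ∃ k, q * ∑ a, W G R c a (p a) ≤
      2 * (q * ∑ a with A a ∧ col a = k, W G R c a (p a)) + ∑ v ∈ R, (dg G v + 1) := by
    rcases le_total (q * ∑ a with A a ∧ col a = true, W G R c a (p a))
      (q * ∑ a with A a ∧ col a = false, W G R c a (p a)) with e | e
    · exact ⟨false, by omega⟩
    · exact ⟨true, by omega⟩
  have h4 : ∀ a, A a ∧ col a = k → ¬ (A (p a) ∧ col (p a) = k) := fun a ha hb =>
    (h1 a (mem_univ _)).2 ((W_pos G R c).1 ha.1.1).1.symm (ha.2.trans hb.2.symm)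
  refine ⟨fun v => if A (c v) ∧ col (c v) = k then p (c v) else c v,
    conn (L := fun a => A a ∧ col a = k) hc (fun a ha => ha.1.1) h4,
    vol (L := fun a => A a ∧ col a = k) hB fun a ha => ha.1.2, ?_⟩
  have h5 := Nat.mul_le_mul_left (28 * q) (cross (G := G) (R := R) (c := c)
    (L := fun a => A a ∧ col a = k) h4)
  have h6 := Nat.mul_le_mul_left q h2
  rw [hX]
  rw [mul_add, mul_assoc 28 q (∑ a with A a ∧ col a = k, W G R c a (p a))] at h5
  rw [mul_left_comm] at h6
  beta_reduce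
  omega

end Pool.Agent.Lib.MP_453ac3_co.LB
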