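import Pool.Agent.Lib.MP_453ac3_co.LB.St

namespace Pool.Agent.Lib.MP_453ac3_co.LB

open Finset

namespace Sparse

theorem conn_star {V : Type} (G : SimpleGraph V) (c : V) (s : Set V) (hc : c ∈ s)
    (h : ∀ v ∈ s, v = c ∨ G.Adj v c) : (G.induce s).Connected := by
  refine (SimpleGraph.connected_iff_exists_forall_reachable _).2 ⟨⟨c, hc⟩, ?_⟩
  rintro ⟨v, hv⟩
  rcases h v hv with rfl | h
  · exact SimpleGraph.Reachable.refl _
  · exact SimpleGraph.Adj.reachable (show G.Adj c v from h.symm)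

theorem conn_one {V : Type} (G : SimpleGraph V) (c : V) : (G.induce {c}).Connected :=
  conn_star G c {c} rfl fun _ hv => Or.inl hv

theorem dense (h : MaderStmt) {V ι : Type} {G : SimpleGraph V} (hG : IsPlanar G) (S : Finset ι)
    (bag : ι → Set V) (h0 : S.Nonempty) (h1 : ∀ u ∈ S, (G.induce (bag u)).Connected)
    (h2 : ∀ u ∈ S, ∀ v ∈ S, u ≠ v → Disjoint (bag u) (bag v)) :
    num (S ×ˢ S) (fun p => p.1 ≠ p.2 ∧ Touch G (bag p.1) (bag p.2)) < 8 * S.card := by
  by_contra hc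
  obtain ⟨f, f1, f2, f3, -⟩ := h V ι G 3 S bag h0 h1 h2 (not_lt.1 hc)
  exact hG.1 ⟨f, f1, f2, f3⟩

theorem k33 {V : Type} {G : SimpleGraph V} (hG : IsPlanar G) (p q : Fin 3 → V)
    (hp : Function.Injective p) (hq : Function.Injective q) (h : ∀ i j, G.Adj (p i) (q j)) :
    False := by
  refine hG.2 ⟨fun i => {Sum.elim p q i}, fun i => conn_one G _, ?_,
    fun i j => ⟨_, rfl, _, rfl, h i j⟩⟩
  rintro (i | i) (j | j) hij <;> rw [Set.disjoint_singleton]
  · exact fun e => hij (congrArg _ (hp e))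
  · exact (h i j).ne
  · exact (h j i).ne'
  · exact fun e => hij (congrArg _ (hq e))

theorem inj3 {V : Type} {a b c : V} (h1 : a ≠ b) (h2 : a ≠ c) (h3 : b ≠ c) :
    Function.Injective ![a, b, c] := by
  intro i j
  fin_cases i <;> fin_cases j <;> simp [h1, h2, h3, h1.symm, h2.symm, h3.symm]

variable {V ι : Type} [Fintype V] {G : SimpleGraph V} {S : Finset ι} {m : ℕ} {A : ι → ℕ → V}
  {τ : ι → Sym2 V} {X : ℕ}

theorem nok5 (hG : IsPlanar G) (M : MOD G S m A τ X) (hm : 0 < m) : NoK5 S τ := by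
  rintro ⟨f, hf⟩
  have hk : ∀ i j, ∃ k, i ≠ j → k ∈ S ∧ τ k = s(f i, f j) := by
    intro i j
    by_cases hij : i = j
    · obtain ⟨k, -⟩ := hf 0 1 (by decide)
      exact ⟨k, fun h => absurd hij h⟩
    · obtain ⟨k, hk⟩ := hf i j hij
      exact ⟨k, fun _ => hk⟩
  choose k hk using hk
  have hinj : Function.Injective f := by
    intro i j e
    by_contra hij
    have := M.nd _ (hk i j hij).1
    rw [(hk i j hij).2, Sym2.mk_isDiag_iff] at this
    exact this e
  have a1 : ∀ i j, i ≠ j → G.Adj (A (k i j) 0) (f i) := fun i j hij =>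
    M.adj _ (hk i j hij).1 0 hm _ (by rw [(hk i j hij).2]; exact Sym2.mem_mk_left _ _)
  have a2 : ∀ i j, i ≠ j → G.Adj (A (k i j) 0) (f j) := fun i j hij =>
    M.adj _ (hk i j hij).1 0 hm _ (by rw [(hk i j hij).2]; exact Sym2.mem_mk_right _ _)
  have nh : ∀ i j, i ≠ j → ∀ a b, a ≠ b → A (k a b) 0 ≠ f i := by
    intro i j hij a b hab e
    refine M.nothub _ (hk a b hab).1 _ (hk i j hij).1 0 hm ?_
    rw [e, (hk i j hij).2]
    exact Sym2.mem_mk_left _ _
  refine hG.1 ⟨fun i => {v | v = f i ∨ ∃ j, i < j ∧ v = A (k i j) 0}, fun i => ?_, ?_, ?_⟩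
  · refine conn_star G (f i) _ (Or.inl rfl) ?_
    rintro v (rfl | ⟨j, hj, rfl⟩)
    · exact Or.inl rfl
    · exact Or.inr (a1 i j hj.ne)
  · intro i j hij
    rw [Set.disjoint_left]
    rintro v (rfl | ⟨a, ha, rfl⟩) (e | ⟨b, hb, e⟩)
    · exact hij (hinj e)
    · exact nh i j hij j b hb.ne e.symm
    · exact nh j i hij.symm i a ha.ne e
    · have e1 := (M.inj _ (hk i a ha.ne).1 _ (hk j b hb.ne).1 0 hm 0 hm e).1
      have e2 : s(f i, f a) = s(f j, f b) := by rw [← (hk i a ha.ne).2, e1, (hk j b hb.ne).2]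
      rcases Sym2.eq_iff.1 e2 with e3 | e3
      · exact hij (hinj e3.1)
      · have := hinj e3.1
        have := hinj e3.2
        omega
  · intro i j hij
    rcases lt_or_gt_of_ne hij with h | h
    · exact ⟨_, Or.inr ⟨j, h, rfl⟩, _, Or.inl rfl, a2 i j hij⟩
    · exact ⟨_, Or.inl rfl, _, Or.inr ⟨i, h, rfl⟩, (a2 j i hij.symm).symm⟩

theorem nok33 (hG : IsPlanar G) (M : MOD G S m A τ X) (hm : 0 < m) : NoK33 S τ := by
  rintro ⟨f, g, hf, hg, hk⟩
  choose k hk1 hk2 using hk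
  have hne : ∀ i j, f i ≠ g j := by
    intro i j e
    have := M.nd _ (hk1 i j)
    rw [hk2, Sym2.mk_isDiag_iff] at this
    exact this e
  have a1 : ∀ i j, G.Adj (A (k i j) 0) (f i) := fun i j =>
    M.adj _ (hk1 i j) 0 hm _ (by rw [hk2]; exact Sym2.mem_mk_left _ _)
  have a2 : ∀ i j, G.Adj (A (k i j) 0) (g j) := fun i j =>
    M.adj _ (hk1 i j) 0 hm _ (by rw [hk2]; exact Sym2.mem_mk_right _ _)
  have n1 : ∀ i a b, A (k a b) 0 ≠ f i := by
    intro i a b e
    refine M.nothub _ (hk1 a b) _ (hk1 i 0) 0 hm ?_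
    rw [e, hk2]
    exact Sym2.mem_mk_left _ _
  have n2 : ∀ j a b, A (k a b) 0 ≠ g j := by
    intro j a b e
    refine M.nothub _ (hk1 a b) _ (hk1 0 j) 0 hm ?_
    rw [e, hk2]
    exact Sym2.mem_mk_right _ _
  refine hG.2 ⟨Sum.elim (fun i => {v | v = f i ∨ ∃ j, v = A (k i j) 0}) fun j => {g j}, ?_, ?_,
    fun i j => ⟨_, Or.inr ⟨j, rfl⟩, _, rfl, a2 i j⟩⟩
  · rintro (i | j)
    · refine conn_star G (f i) _ (Or.inl rfl) ?_
      rintro v (rfl | ⟨j, rfl⟩)
      · exact Or.inl rfl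
      · exact Or.inr (a1 i j)
    · exact conn_one G _
  · rintro (i | i) (j | j) hij <;> rw [Set.disjoint_left]
    · have hij' : i ≠ j := fun e => hij (congrArg _ e)
      rintro v (rfl | ⟨a, rfl⟩) (e | ⟨b, e⟩)
      · exact hij' (hf e)
      · exact n1 i j b e.symm
      · exact n1 j i a e
      · have e1 := (M.inj _ (hk1 i a) _ (hk1 j b) 0 hm 0 hm e).1
        have e2 : s(f i, g a) = s(f j, g b) := by rw [← hk2, e1, hk2]
        rcases Sym2.eq_iff.1 e2 with e3 | e3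
        · exact hij' (hf e3.1)
        · exact hne _ _ e3.1
    · rintro v (rfl | ⟨a, rfl⟩) e
      · exact hne _ _ e
      · exact n2 j i a e
    · rintro v rfl (e | ⟨a, e⟩)
      · exact hne _ _ e.symm
      · exact n2 i j a e.symm
    · rintro v rfl e
      exact hij (congrArg _ (hg e))

theorem star_le (M : MOD G S m A τ X) (u : V) : m * star S τ u ≤ dg G u := by
  classical
  have e : m * star S τ u = num (S ×ˢ range m) fun p => u ∈ τ p.1 := by
    unfold star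
    rw [num_eq, num_eq, filter_product_left (fun i => u ∈ τ i), card_product, card_range,
      mul_comm]
  rw [e]
  refine num_le_of_injOn (fun p => A p.1 p.2) ?_ ?_
  · intro p hp hu
    rw [mem_product, mem_range] at hp
    exact ⟨mem_univ _, (M.adj _ hp.1 _ hp.2 _ hu).symm⟩
  · intro p hp _ q hq _ h
    rw [mem_product, mem_range] at hp hq
    exact Prod.ext_iff.2 (M.inj _ hp.1 _ hq.1 _ hp.2 _ hq.2 h)

end Sparse

theorem sparse (h : MaderStmt) : SparseStmt := by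
  intro V _ G hG Z
  have e : cnt G (fun u v => u ∈ Z ∧ v ∈ Z) ≤
      num (Z ×ˢ Z) fun p => p.1 ≠ p.2 ∧ Touch G {p.1} {p.2} :=
    num_mono fun p _ hp => ⟨mem_product.2 hp.2, hp.1.ne, _, rfl, _, rfl, hp.1⟩
  rcases Z.eq_empty_or_nonempty with rfl | h0
  · exact e.trans ((num_le_card _ _).trans (by simp))
  · exact e.trans (Sparse.dense h hG Z (fun v => {v}) h0 (fun u _ => Sparse.conn_one G u)
      fun u _ v _ huv => Set.disjoint_singleton.2 huv).le

theorem degen (h : MaderStmt) : DegenStmt := by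
  classical
  intro V ι G hG S bag h0 h1 h2
  by_contra hc
  push Not at hc
  have h3 := Sparse.dense h hG S bag h0 h1 h2
  rw [num_eq_sum, sum_product] at h3
  have h4 : ∑ _u ∈ S, 8 ≤ ∑ u ∈ S, num S fun v => u ≠ v ∧ Touch G (bag u) (bag v) :=
    sum_le_sum fun u hu => hc u hu
  rw [sum_const, smul_eq_mul, mul_comm] at h4
  simp only [num_eq_sum] at h4
  exact absurd h3 (not_lt.2 h4)

theorem two : TwoStmt := by
  classical
  intro V _ G hG a b w h1 h2 h3
  by_contra hc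
  rw [not_le, num_eq, two_lt_card] at hc
  obtain ⟨x, hx, y, hy, z, hz, e1, e2, e3⟩ := hc
  rw [mem_filter] at hx hy hz
  refine Sparse.k33 hG ![x, y, z] ![a, b, w] (Sparse.inj3 e1 e2 e3) (Sparse.inj3 h1 h2 h3) ?_
  intro i j
  fin_cases i <;> fin_cases j <;>
    simp [hx.2.1, hx.2.2.1, hx.2.2.2, hy.2.1, hy.2.2.1, hy.2.2.2, hz.2.1, hz.2.2.1, hz.2.2.2]

theorem gamma : GammaStmt := fun _ _ _ _ _ _ _ _ _ hG M hm =>
  ⟨Sparse.nok5 hG M hm, Sparse.nok33 hG M hm, Sparse.star_le M⟩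

end Pool.Agent.Lib.MP_453ac3_co.LB
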