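import Pool.Agent.Lib.MP_453ac3_co.LB.St

namespace Pool.Agent.Lib.MP_453ac3_co.LB

open Finset

namespace Walk

theorem along {V : Type} {G : SimpleGraph V} (φ : V → ℕ) (w : Sym2 V → ℕ)
    (h : ∀ x y, G.Adj x y → φ y ≤ φ x + w s(x, y)) {u v : V} (P : G.Walk u v) :
    φ v ≤ φ u + (P.edges.map w).sum := by
  induction P with
  | nil => simp
  | cons ha P ih =>
    have := h _ _ ha
    simp only [SimpleGraph.Walk.edges_cons, List.map_cons, List.sum_cons]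
    omega

variable {V ι : Type} [Fintype V] {G : SimpleGraph V} {S : Finset ι} {m : ℕ} {A : ι → ℕ → V}
  {τ : ι → Sym2 V} {X : ℕ} {ρ : V → V → ℕ} {l : ι → V → ℕ} {σ : ι → ℕ}

theorem wt_hub {j : ι} (hj : j ∈ S) {p : ℕ} (hp : p < m) {a : V} (ha : a ∈ τ j) :
    l j a ≤ wt S m A τ l s(A j p, a) := by
  classical
  unfold wt
  refine le_trans ?_ (Nat.le_add_left _ _)
  refine le_trans ?_ (single_le_sum (fun _ _ => Nat.zero_le _) hj)
  refine le_trans ?_ (single_le_sum (fun _ _ => Nat.zero_le _) (mem_range.2 hp))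
  refine le_trans ?_ (single_le_sum (fun _ _ => Nat.zero_le _) (mem_univ a))
  rw [if_pos ⟨ha, rfl⟩]

theorem wt_exc {x y : V} (h : ¬ (Reg S m A τ x y ∨ Reg S m A τ y x)) :
    24 ≤ wt S m A τ l s(x, y) := by
  unfold wt
  refine le_trans ?_ (Nat.le_add_right _ _)
  rw [if_pos ⟨x, y, rfl, h⟩]

theorem adm_le {lam : Sym2 V} {L : V → ℕ} {s : ℕ} (hρ : Met ρ) (h : Adm ρ lam L s) {a b : V}
    (ha : a ∈ lam) (hb : b ∈ lam) : ρ a b ≤ L a + L b := by
  by_cases e : a = b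
  · rw [e, hρ.refl]
    exact Nat.zero_le _
  · exact (h.2 a b ((Sym2.mem_and_mem_iff e).1 ⟨ha, hb⟩)).1

theorem pot (hM : MOD G S m A τ X) (hρ : Met ρ) (hl : ∀ i ∈ S, Adm ρ (τ i) (l i) (σ i))
    (D : V → ℕ) (Z : ι → Prop) (d1 : ∀ b b', D b ≤ D b' + ρ b' b) (d2 : ∀ b, D b ≤ 16)
    (d3 : ∀ j ∈ S, Z j → ∀ b ∈ τ j, D b ≤ l j b) :
    ∃ φ : V → ℕ, (∀ j ∈ S, ∀ h ∈ τ j, φ h = D h) ∧ (∀ j ∈ S, ∀ p < m, Z j → φ (A j p) = 0) ∧
      (∀ j ∈ S, ∀ p < m, ¬ Z j → ∃ b ∈ τ j, φ (A j p) = D b + l j b) ∧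
      ∀ u v (P : G.Walk u v), φ v ≤ φ u + (P.edges.map (wt S m A τ l)).sum := by
  classical
  have hv : ∀ j, ∃ n, (Z j → n = 0) ∧ (¬ Z j → ∃ b ∈ τ j, n = D b + l j b) ∧
      ∀ b ∈ τ j, n ≤ D b + l j b := fun j => by
    by_cases hz : Z j
    · exact ⟨0, fun _ => rfl, fun h => absurd hz h, fun _ _ => Nat.zero_le _⟩
    · exact ⟨sInf {n | ∃ b ∈ τ j, n = D b + l j b}, fun h => absurd h hz,
        fun _ => Nat.sInf_mem (s := {n | ∃ b ∈ τ j, n = D b + l j b})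
          ⟨_, _, Sym2.out_fst_mem _, rfl⟩, fun b hb => Nat.sInf_le ⟨b, hb, rfl⟩⟩
  choose val v1 v2 v3 using hv
  have hφ : ∀ v, ∃ n, (∀ j ∈ S, ∀ p < m, v = A j p → n = val j) ∧
      ((¬ ∃ j ∈ S, ∃ p < m, v = A j p) → n = D v) := fun v => by
    by_cases h : ∃ j ∈ S, ∃ p < m, v = A j p
    · obtain ⟨j, hj, p, hp, e⟩ := h
      refine ⟨val j, fun j' hj' p' hp' e' => ?_, fun h => absurd ⟨j, hj, p, hp, e⟩ h⟩
      rw [(hM.inj j hj j' hj' p hp p' hp' (e.symm.trans e')).1]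
    · exact ⟨D v, fun j hj p hp e => absurd ⟨j, hj, p, hp, e⟩ h, fun _ => rfl⟩
  choose φ f1 f2 using hφ
  have g1 : ∀ j ∈ S, ∀ p < m, φ (A j p) = val j := fun j hj p hp => f1 _ j hj p hp rfl
  have g2 : ∀ j ∈ S, ∀ h ∈ τ j, φ h = D h := fun j hj h hh => f2 h (by
    rintro ⟨i, hi, p, hp, rfl⟩
    exact hM.nothub i hi j hj p hp hh)
  have g3 : ∀ v, φ v ≤ 24 := fun v => by
    by_cases h : ∃ j ∈ S, ∃ p < m, v = A j p
    · obtain ⟨j, hj, p, hp, rfl⟩ := h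
      have a1 := v3 j _ (Sym2.out_fst_mem _)
      have a2 := d2 (τ j).out.1
      have a3 := (hl j hj).1 (τ j).out.1
      rw [g1 j hj p hp]
      omega
    · have := d2 v
      rw [f2 v h]
      omega
  refine ⟨φ, g2, fun j hj p hp hz => (g1 j hj p hp).trans (v1 j hz),
    fun j hj p hp hz => g1 j hj p hp ▸ v2 j hz, fun u v P => along φ _ (fun x y _ => ?_) P⟩
  by_cases h : Reg S m A τ x y ∨ Reg S m A τ y x
  swap
  · have a1 := wt_exc (l := l) h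
    have a2 := g3 y
    omega
  rcases h with ⟨j, hj, p, hp, rfl, h | ⟨hp', rfl⟩⟩ | ⟨j, hj, p, hp, rfl, h | ⟨hp', rfl⟩⟩
  · have a1 := wt_hub (A := A) (l := l) hj hp h
    rw [g2 j hj y h, g1 j hj p hp]
    by_cases hz : Z j
    · have := d3 j hj hz y h
      omega
    · obtain ⟨b, hb, e⟩ := v2 j hz
      have a2 := d1 y b
      have a3 := adm_le hρ (hl j hj) hb h
      omega
  · rw [g1 j hj p hp, g1 j hj _ hp']
    omega
  · have a1 := wt_hub (A := A) (l := l) hj hp h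
    have a2 := v3 j x h
    rw [g2 j hj x h, g1 j hj p hp, Sym2.eq_swap]
    omega
  · rw [g1 j hj p hp, g1 j hj _ hp']
    omega

/-- walks that start at a hub -/
theorem fromHub (hM : MOD G S m A τ X) (hρ : Met ρ) (hl : ∀ i ∈ S, Adm ρ (τ i) (l i) (σ i))
    {i : ι} (hi : i ∈ S) {a : V} (ha : a ∈ τ i) :
    (∀ j ∈ S, ∀ b ∈ τ j, ∀ P : G.Walk a b, ρ a b ≤ (P.edges.map (wt S m A τ l)).sum) ∧
    ∀ j ∈ S, ∀ p < m, ∀ P : G.Walk a (A j p),
      ∃ b ∈ τ j, l j b ≤ (P.edges.map (wt S m A τ l)).sum := by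
  obtain ⟨φ, f1, -, f3, f4⟩ := pot hM hρ hl (ρ a) (fun _ => False) (fun b b' => hρ.tri a b' b)
    (fun b => (hρ.bd a b).trans (by norm_num)) fun _ _ h => h.elim
  have e : φ a = 0 := (f1 i hi a ha).trans (hρ.refl a)
  refine ⟨fun j hj b hb P => ?_, fun j hj p hp P => ?_⟩
  · have := f4 _ _ P
    rw [e, f1 j hj b hb] at this
    omega
  · obtain ⟨b, hb, e'⟩ := f3 j hj p hp not_false
    have := f4 _ _ P
    exact ⟨b, hb, by omega⟩

/-- walks that start in an atom -/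
theorem fromAtom (hM : MOD G S m A τ X) (hρ : Met ρ) (hl : ∀ i ∈ S, Adm ρ (τ i) (l i) (σ i))
    {i : ι} (hi : i ∈ S) {p : ℕ} (hp : p < m) :
    (∀ j ∈ S, ∀ b ∈ τ j, ∀ P : G.Walk (A i p) b,
      ∃ a ∈ τ i, l i a ≤ (P.edges.map (wt S m A τ l)).sum) ∧
    ∀ j ∈ S, i ≠ j → ∀ q < m, ∀ P : G.Walk (A i p) (A j q),
      ∃ a ∈ τ i, ∃ b ∈ τ j, l i a + ρ a b + l j b ≤ (P.edges.map (wt S m A τ l)).sum := by
  have hD : ∀ h, ∃ n, (∃ a ∈ τ i, n = l i a + ρ a h) ∧ ∀ a ∈ τ i, n ≤ l i a + ρ a h := fun h =>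
    ⟨sInf {n | ∃ a ∈ τ i, n = l i a + ρ a h},
      Nat.sInf_mem (s := {n | ∃ a ∈ τ i, n = l i a + ρ a h}) ⟨_, _, Sym2.out_fst_mem _, rfl⟩,
      fun a ha => Nat.sInf_le ⟨a, ha, rfl⟩⟩
  choose D D1 D2 using hD
  obtain ⟨φ, f1, f2, f3, f4⟩ := pot hM hρ hl D (fun j => j = i)
    (fun b b' => by
      obtain ⟨a, ha, e⟩ := D1 b'
      have a1 := D2 b a ha
      have a2 := hρ.tri a b' b
      omega)
    (fun b => by
      obtain ⟨a, ha, e⟩ := D1 b
      have a1 := (hl i hi).1 a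
      have a2 := hρ.bd a b
      omega)
    (fun j _ e b hb => by
      subst e
      have a1 := D2 b b hb
      rwa [hρ.refl] at a1)
  have e : φ (A i p) = 0 := f2 i hi p hp rfl
  refine ⟨fun j hj b hb P => ?_, fun j hj hij q hq P => ?_⟩
  · obtain ⟨a, ha, e'⟩ := D1 b
    have := f4 _ _ P
    rw [e, f1 j hj b hb] at this
    exact ⟨a, ha, by omega⟩
  · obtain ⟨b, hb, e1⟩ := f3 j hj q hq hij.symm
    obtain ⟨a, ha, e2⟩ := D1 b
    have := f4 _ _ P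
    exact ⟨a, ha, b, hb, by omega⟩

theorem three (hM : MOD G S m A τ X) (hρ : Met ρ) (hl : ∀ i ∈ S, Adm ρ (τ i) (l i) (σ i))
    {i i' : ι} (hi : i ∈ S) (hi' : i' ∈ S) {p p' : ℕ} (hp : p < m) (hp' : p' < m) {a b : V}
    (ha : a ∈ τ i) (hb : b ∈ τ i) (h1 : ∀ x ∈ τ i, l i x = 1) (h2 : ∀ x ∈ τ i', l i' x = 1)
    (h3 : 2 ≤ ρ a b) (P1 : G.Walk (A i p) a) (P2 : G.Walk a b) (P3 : G.Walk b (A i' p')) :
    4 ≤ (P1.edges.map (wt S m A τ l)).sum + (P2.edges.map (wt S m A τ l)).sum +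
      (P3.edges.map (wt S m A τ l)).sum := by
  obtain ⟨x, hx, a1⟩ := (fromAtom hM hρ hl hi hp).1 i hi a ha P1
  have a2 := (fromHub hM hρ hl hi ha).1 i hi b hb P2
  obtain ⟨y, hy, a3⟩ := (fromHub hM hρ hl hi hb).2 i' hi' p' hp' P3
  rw [h1 x hx] at a1
  rw [h2 y hy] at a3
  omega

open Classical in
theorem slot {lam : Sym2 V} {L : V → ℕ} {s : ℕ} (h : Adm ρ lam L s) (Q : V → Prop) :
    (∑ a : V, if a ∈ lam ∧ Q a then L a else 0) +
      (if ∃ a ∈ lam, 1 ≤ L a ∧ ¬ Q a then 1 else 0) ≤ s := by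
  have a1 : (∑ a : V, if a ∈ lam ∧ Q a then L a else 0) +
      (∑ a : V, if a ∈ lam ∧ ¬ Q a then L a else 0) ≤ s := by
    rw [← sum_add_distrib]
    induction lam using Sym2.ind with
    | _ x y =>
      refine le_trans (sum_le_sum (g := fun a => (if a = x then L a else 0) +
        if a = y then L a else 0) fun a _ => ?_) ?_
      · simp only [Sym2.mem_iff]
        split_ifs <;> first | omega | tauto
      · rw [sum_add_distrib]
        simpa using (h.2 x y rfl).2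
  refine le_trans (Nat.add_le_add_left ?_ _) a1
  split_ifs with hc
  · obtain ⟨a, ha, b1, b2⟩ := hc
    refine le_trans ?_ (single_le_sum (fun _ _ => Nat.zero_le _) (mem_univ a))
    rwa [if_pos ⟨ha, b2⟩]
  · exact Nat.zero_le _

end Walk

theorem walkl : WalkStmt := by
  intro V ι _ G S m A τ X ρ l σ hM hρ hl i hi i' hi' hne p hp p' hp' P
  refine ⟨fun cost hc => ?_, fun a b e e' l1 l2 l3 l4 r1 r2 ha hb => ?_⟩
  · obtain ⟨a, ha, b, hb, h⟩ := (Walk.fromAtom hM hρ hl hi hp).2 i' hi' hne p' hp' P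
    exact (hc a ha b hb).trans h
  have ma : a ∈ τ i := e ▸ Sym2.mem_mk_left a b
  have mb : b ∈ τ i := e ▸ Sym2.mem_mk_right a b
  have h1 : ∀ x ∈ τ i, l i x = 1 := fun x hx => by
    rw [e, Sym2.mem_iff] at hx
    rcases hx with rfl | rfl
    exacts [l1, l2]
  have h2 : ∀ x ∈ τ i', l i' x = 1 := fun x hx => by
    rw [e', Sym2.mem_iff] at hx
    rcases hx with rfl | rfl
    exacts [l3, l4]
  obtain ⟨P1, P2, rfl⟩ := SimpleGraph.Walk.mem_support_iff_exists_append.1 ha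
  rcases (SimpleGraph.Walk.mem_support_append_iff P1 P2).1 hb with h | h
  · obtain ⟨Q1, Q2, rfl⟩ := SimpleGraph.Walk.mem_support_iff_exists_append.1 h
    have := Walk.three hM hρ hl hi hi' hp hp' mb ma h1 h2 r2 Q1 Q2 P2
    simp only [SimpleGraph.Walk.edges_append, List.map_append, List.sum_append]
    omega
  · obtain ⟨Q1, Q2, rfl⟩ := SimpleGraph.Walk.mem_support_iff_exists_append.1 h
    have := Walk.three hM hρ hl hi hi' hp hp' ma mb h1 h2 r1 P1 Q1 Q2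
    simp only [SimpleGraph.Walk.edges_append, List.map_append, List.sum_append]
    omega

theorem total : TotalStmt := by
  classical
  intro V ι _ G S m A τ X ρ l σ hM hl U hU
  have a1 : num U (fun e => ∃ u v, e = s(u, v) ∧ ¬ (Reg S m A τ u v ∨ Reg S m A τ v u)) ≤ X := by
    refine le_trans ?_ hM.exc
    unfold cnt
    rw [num_eq, num_eq]
    refine le_trans (card_le_card ?_) (card_image_le (f := fun p : V × V => s(p.1, p.2)))
    intro e he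
    obtain ⟨h1, u, v, rfl, h2⟩ := mem_filter.1 he
    exact mem_image.2 ⟨(u, v), mem_filter.2 ⟨mem_univ _, hU _ h1, h2⟩, rfl⟩
  have a2 : ∑ e ∈ U, (if ∃ u v, e = s(u, v) ∧ ¬ (Reg S m A τ u v ∨ Reg S m A τ v u) then 24
      else 0) ≤ 24 * X := by
    refine le_trans (le_of_eq ?_) (Nat.mul_le_mul_left 24 a1)
    rw [num_eq_sum, mul_sum]
    exact sum_congr rfl fun e _ => by split_ifs <;> rfl
  have a3 : ∑ e ∈ U, ∑ i ∈ S, ∑ p ∈ range m, ∑ a : V,
      (if a ∈ τ i ∧ e = s(A i p, a) then l i a else 0) =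
      ∑ i ∈ S, ∑ p ∈ range m, ∑ a : V, if a ∈ τ i ∧ s(A i p, a) ∈ U then l i a else 0 := by
    rw [sum_comm]
    refine sum_congr rfl fun i _ => ?_
    rw [sum_comm]
    refine sum_congr rfl fun p _ => ?_
    rw [sum_comm]
    refine sum_congr rfl fun a _ => ?_
    by_cases h : a ∈ τ i <;> simp [h]
  have a4 : (∑ i ∈ S, ∑ p ∈ range m, ∑ a : V, if a ∈ τ i ∧ s(A i p, a) ∈ U then l i a else 0) +
      num (S ×ˢ range m) (fun x => ∃ a ∈ τ x.1, 1 ≤ l x.1 a ∧ s(A x.1 x.2, a) ∉ U) ≤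
      m * ∑ i ∈ S, σ i := by
    rw [num_eq_sum, sum_product, ← sum_add_distrib, mul_sum]
    refine sum_le_sum fun i hi => ?_
    rw [← sum_add_distrib]
    calc _ ≤ ∑ _p ∈ range m, σ i := sum_le_sum fun p _ => by
          refine le_trans (le_of_eq ?_) (Walk.slot (hl i hi) fun a => s(A i p, a) ∈ U)
          congr!
      _ = m * σ i := by simp
  unfold wt
  rw [sum_add_distrib]
  have a5 := Nat.add_le_add a2 a4
  rw [← a3, ← add_assoc] at a5
  convert a5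

end Pool.Agent.Lib.MP_453ac3_co.LB
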