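import Pool.Agent.Lib.MP_453ac3_co.LB.Mader
import Pool.Agent.Lib.MP_453ac3_co.LB.Sparse
import Pool.Agent.Lib.MP_453ac3_co.LB.Order
import Pool.Agent.Lib.MP_453ac3_co.LB.Round
import Pool.Agent.Lib.MP_453ac3_co.LB.Cluster
import Pool.Agent.Lib.MP_453ac3_co.LB.Light
import Pool.Agent.Lib.MP_453ac3_co.LB.Heavy
import Pool.Agent.Lib.MP_453ac3_co.LB.Mod
import Pool.Agent.Lib.MP_453ac3_co.LB.PathSys
import Pool.Agent.Lib.MP_453ac3_co.LB.Walk
import Pool.Agent.Lib.MP_453ac3_co.LB.ML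
import Pool.Agent.Lib.MP_453ac3_co.LB.MLX
import Pool.Agent.Lib.MP_453ac3_co.LB.Few
import Pool.Agent.Lib.MP_453ac3_co.LB.Hall
import Pool.Agent.Lib.MP_453ac3_co.LB.Bad
import Pool.Agent.Lib.MP_453ac3_co.LB.Octa
import Pool.Agent.Lib.MP_453ac3_co.LB.Plan
import Pool.Agent.Lib.MP_453ac3_co.LB.AM
import Pool.Agent.Lib.MP_453ac3_co.LB.Fin

namespace Pool.Agent.Lib.MP_453ac3_co.LB

theorem lower : LBStmt :=
  lb (cs (sparse mader) (cluster (sparse mader) (round (degen mader)))) (light cut group)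
    (heavy cut fill (light cut group)) (modl (sparse mader) two (order mader two))
    (ml pathSys walkl total gadget) gamma
    (am mlx shrink (tri (acut mlx)) (few (acut mlx) group) gap (bad (base hall)) cls
      (octa (base hall)) (bip mlx (plan multi)))

end Pool.Agent.Lib.MP_453ac3_co.LB
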