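import Pool.Agent.Lib.MP_453ac3_co.LB.Defs

namespace Pool.Agent.Lib.MP_453ac3_co.LB

open Finset

/-- G1: dense families of connected bags contain clique minors -/
def MaderStmt : Prop :=
  ∀ (V ι : Type) (G : SimpleGraph V) (r : ℕ) (S : Finset ι) (bag : ι → Set V),
    S.Nonempty → (∀ u ∈ S, (G.induce (bag u)).Connected) →
    (∀ u ∈ S, ∀ v ∈ S, u ≠ v → Disjoint (bag u) (bag v)) →
    2 ^ r * S.card ≤ num (S ×ˢ S) (fun p => p.1 ≠ p.2 ∧ Touch G (bag p.1) (bag p.2)) →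
    ∃ f : Fin (r + 2) → Set V, (∀ i, (G.induce (f i)).Connected) ∧
      (∀ i j, i ≠ j → Disjoint (f i) (f j)) ∧ (∀ i j, i ≠ j → Touch G (f i) (f j)) ∧
      (∀ i, ∀ x ∈ f i, ∃ u ∈ S, x ∈ bag u) ∧ (∀ i, ∃ u ∈ S, bag u ⊆ f i)

/-- G2a: few edges inside every vertex set -/
def SparseStmt : Prop :=
  ∀ (V : Type) [Fintype V] (G : SimpleGraph V), IsPlanar G →
    ∀ Z : Finset V, cnt G (fun u v => u ∈ Z ∧ v ∈ Z) ≤ 8 * Z.card

/-- G2b: every family of bags has a bag touching at most seven others -/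
def DegenStmt : Prop :=
  ∀ (V ι : Type) (G : SimpleGraph V), IsPlanar G → ∀ (S : Finset ι) (bag : ι → Set V),
    S.Nonempty → (∀ u ∈ S, (G.induce (bag u)).Connected) →
    (∀ u ∈ S, ∀ v ∈ S, u ≠ v → Disjoint (bag u) (bag v)) →
    ∃ u ∈ S, num S (fun v => u ≠ v ∧ Touch G (bag u) (bag v)) ≤ 7

/-- G2c: three vertices have at most two common neighbours -/
def TwoStmt : Prop :=
  ∀ (V : Type) [Fintype V] (G : SimpleGraph V), IsPlanar G →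
    ∀ a b w : V, a ≠ b → a ≠ w → b ≠ w →
      num univ (fun y => G.Adj y a ∧ G.Adj y b ∧ G.Adj y w) ≤ 2

/-- G3: common neighbours of two vertices, up to one, can be ordered linearly -/
def OrderStmt : Prop :=
  ∀ (V : Type) [Fintype V] (G : SimpleGraph V), IsPlanar G → ∀ (a b : V) (C : Finset V),
    a ≠ b → (∀ y ∈ C, G.Adj y a ∧ G.Adj y b) →
    ∃ (L : ℕ) (o : ℕ → V), C.card ≤ L + 1 ∧ (∀ p < L, o p ∈ C) ∧
      (∀ p < L, ∀ q < L, o p = o q → p = q) ∧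
      ∀ p < L, ∀ q < L, G.Adj (o p) (o q) → q = p + 1 ∨ p = q + 1

/-- G4a: one round of star contraction -/
def RoundStmt : Prop :=
  ∀ (V : Type) [Fintype V] [DecidableEq V] (G : SimpleGraph V), IsPlanar G →
    ∀ (R : Finset V) (q B : ℕ) (c : V → V),
    (∀ v ∈ R, (G.induce {w | w ∈ R ∧ c w = c v}).Connected) →
    (∀ a, ∑ v ∈ R with c v = a, (dg G v + 1) ≤ B) →
    ∃ c' : V → V, (∀ v ∈ R, (G.induce {w | w ∈ R ∧ c' w = c' v}).Connected) ∧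
      (∀ a, ∑ v ∈ R with c' v = a, (dg G v + 1) ≤ (q + 1) * B) ∧
      28 * q * cnt G (fun u v => u ∈ R ∧ v ∈ R ∧ c' u ≠ c' v) +
          q * cnt G (fun u v => u ∈ R ∧ v ∈ R ∧ c u ≠ c v) ≤
        28 * q * cnt G (fun u v => u ∈ R ∧ v ∈ R ∧ c u ≠ c v) +
          14 * ∑ v ∈ R, (dg G v + 1)

/-- G4b: clustering -/
def ClusterStmt : Prop :=
  ∀ d : ℕ, ∃ C : ℕ, ∀ (V : Type) [Fintype V] [DecidableEq V] (G : SimpleGraph V), IsPlanar G →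
    ∀ (R : Finset V) (B : ℕ), (∀ v ∈ R, dg G v + 1 ≤ B) →
    ∃ c : V → V, (∀ v ∈ R, (G.induce {w | w ∈ R ∧ c w = c v}).Connected) ∧
      (∀ a, ∑ v ∈ R with c v = a, (dg G v + 1) ≤ C * B) ∧
      d * cnt G (fun u v => u ∈ R ∧ v ∈ R ∧ c u ≠ c v) ≤ Fintype.card V

/-- G5: existence of the cluster structure -/
def CSStmt : Prop :=
  ∀ d : ℕ, ∃ K n0 : ℕ, ∀ (V : Type) [Fintype V] (G : SimpleGraph V), IsPlanar G →
    n0 ≤ Fintype.card V →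
    ∃ (H Y : Finset V) (c : V → V) (τ : V → Sym2 V) (X : ℕ),
      d * X ≤ Fintype.card V ∧ H.card ≤ K ∧ CS G H Y c τ X

/-- G6a: cut condition -/
def CutStmt : Prop :=
  ∀ (V : Type) [Fintype V] (G : SimpleGraph V), PathPairable G →
    ∀ Z : Finset V, 2 * Z.card ≤ Fintype.card V → Z.card ≤ cnt G fun u v => u ∈ Z ∧ v ∉ Z

/-- G6b: grouping -/
def GroupStmt : Prop :=
  ∀ (W : Type) [DecidableEq W] (w : W → ℕ) (D : Finset W → ℕ) (t e : ℕ) (U : Finset W),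
    (∀ u ∈ U, w u ≤ t) → (∀ A B, D (A ∪ B) ≤ D A + D B) →
    (∀ A ⊆ U, ∑ u ∈ A, w u ≤ t → D A ≤ e) → t * D U ≤ (2 * ∑ u ∈ U, w u + t) * e

/-- G6c: filling up by whole clusters -/
def FillStmt : Prop :=
  ∀ (V : Type) (c : V → V) (A B : Finset V) (X t : ℕ), A ⊆ B →
    (∀ u ∈ A, ∀ v ∈ B, c u = c v → v ∈ A) → (∀ a, num B (fun y => c y = a) ≤ X) →
    A.card ≤ t → t ≤ B.card →
    ∃ C : Finset V, A ⊆ C ∧ C ⊆ B ∧ (∀ u ∈ C, ∀ v ∈ B, c u = c v → v ∈ C) ∧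
      C.card ≤ t ∧ t ≤ C.card + X

/-- G7a: vertices missing the hub `v` although the other hub `u` is light -/
def LightStmt : Prop :=
  ∀ (V : Type) [Fintype V] (G : SimpleGraph V) (H Y : Finset V) (c : V → V) (τ : V → Sym2 V)
    (X : ℕ), PathPairable G → CS G H Y c τ X → 1000 * X ≤ Fintype.card V →
    1000 ≤ Fintype.card V →
    num Y (fun y => ∃ u v, τ y = s(u, v) ∧ ¬ G.Adj y v ∧
      2 * (star Y τ u + X) ≤ Fintype.card V) ≤ 10 * X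

/-- G7b: if all degrees are at most `0.45 n` then all hubs are light -/
def HeavyStmt : Prop :=
  ∀ (V : Type) [Fintype V] (G : SimpleGraph V) (H Y : Finset V) (c : V → V) (τ : V → Sym2 V)
    (X : ℕ), PathPairable G → CS G H Y c τ X → 1000 * X ≤ Fintype.card V →
    1000 ≤ Fintype.card V → (∀ v, 20 * dg G v ≤ 9 * Fintype.card V) →
    ∀ u, 2 * (star Y τ u + X) ≤ Fintype.card V

/-- G8: from the cluster structure to the atom model -/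
def ModStmt : Prop :=
  ∀ (V : Type) [Fintype V] (G : SimpleGraph V) (H Y : Finset V) (c : V → V) (τ : V → Sym2 V)
    (X D K m : ℕ), IsPlanar G → CS G H Y c τ X → H.card ≤ K →
    num Y (fun y => ∃ v ∈ τ y, ¬ G.Adj y v) ≤ D → 0 < m →
    ∃ (S : Finset (Sym2 V × ℕ)) (A : Sym2 V × ℕ → ℕ → V),
      MOD G S m A Prod.fst (X + 16 * (D + K ^ 2 * m) + 2 * S.card)

/-- G9: path systems -/
def PathSysStmt : Prop :=
  ∀ (V J : Type) [Fintype V] [Fintype J] (G : SimpleGraph V) (f g : J → V), PathPairable G →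
    Function.Injective (Sum.elim f g) →
    ∃ (P : ∀ j, G.Walk (f j) (g j)) (U : Finset (Sym2 V)),
      (∀ e, e ∈ U ↔ ∃ j, e ∈ (P j).edges) ∧
      (∀ w : Sym2 V → ℕ, ∑ j, ((P j).edges.map w).sum = ∑ e ∈ U, w e) ∧
      (∀ j v, v = f j ∨ v = g j → Odd (num univ fun w => s(v, w) ∈ U)) ∧
      ∀ j j' v v' a b, j ≠ j' → v = f j ∨ v = g j → v' = f j' ∨ v' = g j' →
        (∀ w, s(v, w) ∈ U → w = a ∨ w = b ∨ w = v') →
        (∀ w, s(v', w) ∈ U → w = a ∨ w = b ∨ w = v) →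
        s(v, b) ∈ U → s(v', b) ∈ U → b ∈ (P j).support ∨ b ∈ (P j').support

/-- G10a: walks between atoms are long -/
def WalkStmt : Prop :=
  ∀ (V ι : Type) [Fintype V] (G : SimpleGraph V) (S : Finset ι) (m : ℕ) (A : ι → ℕ → V)
    (τ : ι → Sym2 V) (X : ℕ) (ρ : V → V → ℕ) (l : ι → V → ℕ) (σ : ι → ℕ),
    MOD G S m A τ X → Met ρ → (∀ i ∈ S, Adm ρ (τ i) (l i) (σ i)) →
    ∀ i ∈ S, ∀ i' ∈ S, i ≠ i' → ∀ p < m, ∀ p' < m, ∀ P : G.Walk (A i p) (A i' p'),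
      (∀ cost, (∀ a ∈ τ i, ∀ b ∈ τ i', cost ≤ l i a + ρ a b + l i' b) →
        cost ≤ (P.edges.map (wt S m A τ l)).sum) ∧
      ∀ a b, τ i = s(a, b) → τ i' = s(a, b) → l i a = 1 → l i b = 1 → l i' a = 1 → l i' b = 1 →
        2 ≤ ρ a b → 2 ≤ ρ b a → a ∈ P.support → b ∈ P.support →
        4 ≤ (P.edges.map (wt S m A τ l)).sum

open Classical in
/-- G10b: total weight of a set of edges -/
def TotalStmt : Prop :=
  ∀ (V ι : Type) [Fintype V] (G : SimpleGraph V) (S : Finset ι) (m : ℕ) (A : ι → ℕ → V)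
    (τ : ι → Sym2 V) (X : ℕ) (ρ : V → V → ℕ) (l : ι → V → ℕ) (σ : ι → ℕ),
    MOD G S m A τ X → (∀ i ∈ S, Adm ρ (τ i) (l i) (σ i)) →
    ∀ U : Finset (Sym2 V), (∀ e ∈ U, e ∈ G.edgeSet) →
      ∑ e ∈ U, wt S m A τ l e +
        num (S ×ˢ range m) (fun x => ∃ a ∈ τ x.1, 1 ≤ l x.1 a ∧ s(A x.1 x.2, a) ∉ U) ≤
      24 * X + m * ∑ i ∈ S, σ i

/-- G11a: the frustration gadget.  `pos r k e d` is the position in window `r` of the end `d`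
of a pair in slot `k` of kind `e`; the pair `(r, k, e)` joins `pos r k e true` in window `r`
to `pos (r+1) k e false` in window `r+1`. -/
def GadgetStmt : Prop :=
  ∃ pos : Fin 3 → Fin 8 → Bool → Bool → Fin 32,
    (∀ r, Function.Bijective fun x : Fin 8 × Bool × Bool => pos r x.1 x.2.1 x.2.2) ∧
    ∀ (right : Fin 3 → ℕ → Prop) (ex : Fin 3 → Fin 8 → Bool → Prop),
      (∀ r p, p + 1 < 32 → (right r (p + 1) ↔ ¬ right r p)) →
      ∃ r k e, (pos (r + 1) k e true : ℕ) = pos (r + 1) k e false + 1 ∧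
        right (r + 1) (pos (r + 1) k e false) ∧ (ex r k e ↔ ex (r + 1) k e)

/-- G11b: the length inequality holds in the atom model -/
def MLStmt : Prop :=
  ∀ (V ι : Type) [Fintype V] (G : SimpleGraph V) (S : Finset ι) (m' : ℕ) (A : ι → ℕ → V)
    (τ : ι → Sym2 V) (X E : ℕ), PathPairable G → MOD G S (32 * m') A τ X → 0 < m' →
    25 * X ≤ m' * E → ML S τ E

/-- G12: the graph of types -/
def GammaStmt : Prop :=
  ∀ (V ι : Type) [Fintype V] (G : SimpleGraph V) (S : Finset ι) (m : ℕ) (A : ι → ℕ → V)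
    (τ : ι → Sym2 V) (X : ℕ), IsPlanar G → MOD G S m A τ X → 0 < m →
    NoK5 S τ ∧ NoK33 S τ ∧ ∀ u, m * star S τ u ≤ dg G u

/-- A1a: from atoms to types, along any map of hubs -/
def MLXStmt : Prop :=
  ∀ (W W' ι : Type) [Fintype W'] [DecidableEq W'] (S : Finset ι) (τ : ι → Sym2 W) (E : ℕ)
    (ψ : W → W'), ML S τ E →
    MLX (fun lam => num S fun i => (τ i).map ψ = lam)
      (fun lam => ∀ i ∈ S, ∀ i' ∈ S, (τ i).map ψ = lam → (τ i').map ψ = lam → τ i = τ i') E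

/-- A1b: removing atoms -/
def ShrinkStmt : Prop :=
  ∀ (W ι : Type) (S S' : Finset ι) (τ : ι → Sym2 W) (E : ℕ), S' ⊆ S → ML S τ E →
    ML S' τ (E + 256 * (S.card - S'.card))

/-- A2a: cuts -/
def ACutStmt : Prop :=
  ∀ (W ι : Type) (S : Finset ι) (τ : ι → Sym2 W) (E : ℕ) (U : W → Prop), ML S τ E →
    32 * num S (fun i => ∀ a ∈ τ i, U a) ≤ E ∨ 32 * num S (fun i => ∀ a ∈ τ i, ¬ U a) ≤ E ∨
      32 * (num S (fun i => ∀ a ∈ τ i, U a) + num S (fun i => ∀ a ∈ τ i, ¬ U a)) ≤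
        16 * S.card + 16 + E

/-- A2b: triangles are light -/
def TriStmt : Prop :=
  ∀ (W ι : Type) (S : Finset ι) (τ : ι → Sym2 W) (E : ℕ), ML S τ E →
    (∀ i ∈ S, ¬ (τ i).IsDiag) → (∀ u, 20 * star S τ u ≤ 9 * S.card) → 10 * E ≤ S.card →
    1000 ≤ S.card → ∀ a b c : W, a ≠ b → a ≠ c → b ≠ c →
      20 * (num S (fun i => τ i = s(a, b)) + num S (fun i => τ i = s(a, c)) +
        num S (fun i => τ i = s(b, c))) ≤ 9 * S.card

/-- A3: almost all atoms live on at most 50 hubs -/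
def FewStmt : Prop :=
  ∀ (W ι : Type) [Fintype W] (S : Finset ι) (τ : ι → Sym2 W) (E : ℕ), ML S τ E →
    (∀ u, 20 * star S τ u ≤ 9 * S.card) → 10 * E ≤ S.card → 1000 ≤ S.card →
    ∃ L : Finset W, L.card ≤ 50 ∧ num S (fun i => ∃ a ∈ τ i, a ∉ L) ≤ 40 * E

/-- A4: a gap in the class sizes -/
def GapStmt : Prop :=
  ∀ (α : Type) (T : Finset α) (x : α → ℕ) (q N : ℕ), 1 ≤ q → T.card ≤ 2500 →
    ∃ k ≤ 2500, ∀ a ∈ T, N ≤ q ^ (k + 1) * x a ∨ q ^ (k + 2) * x a < N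

/-- A5a: exact pairing of disjoint types -/
def HallStmt : Prop :=
  ∀ (W : Type) [Fintype W] [DecidableEq W] (h : Sym2 W → ℕ), (∀ a, h s(a, a) = 0) →
    (∀ u, 2 * (∑ lam, if u ∈ lam then h lam else 0) ≤ ∑ lam, h lam) →
    (∀ a b c, a ≠ b → a ≠ c → b ≠ c → 2 * (h s(a, b) + h s(a, c) + h s(b, c)) ≤ ∑ lam, h lam) →
    ∃ z : Sym2 W → Sym2 W → ℕ, (∀ lam, ∑ mu, z lam mu = h lam) ∧ (∀ mu, ∑ lam, z lam mu = h mu) ∧
      ∀ lam mu, 0 < z lam mu → ∀ a ∈ lam, a ∉ mu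

/-- A5b: almost perfect pairing of disjoint types after removing `r` -/
def BaseStmt : Prop :=
  ∀ (W : Type) [Fintype W] [DecidableEq W] (x r : Sym2 W → ℕ), Spread x →
    (∀ lam, r lam ≤ x lam) → 20 * ∑ lam, r lam ≤ ∑ lam, x lam →
    ∃ z : Sym2 W → Sym2 W → ℕ, (∀ lam, ∑ mu, z lam mu + ∑ mu, z mu lam + r lam ≤ x lam) ∧
      (∀ lam mu, 0 < z lam mu → ∀ a ∈ lam, a ∉ mu) ∧
      ∑ lam, x lam ≤ 2 * ∑ lam, ∑ mu, z lam mu + ∑ lam, r lam + 2500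

/-- A6: an end of a big type sees every disjoint big type -/
def BadStmt : Prop :=
  ∀ (W : Type) [Fintype W] [DecidableEq W] (x : Sym2 W → ℕ) (T : Sym2 W → Prop) (E μ : ℕ),
    MLX x T E → Spread x → 40 * μ ≤ ∑ lam, x lam → E + 160000 < 32 * μ →
    ∀ a b c d : W, a ≠ c → a ≠ d → b ≠ c → b ≠ d → μ ≤ x s(a, b) → μ ≤ x s(c, d) →
      0 < x s(b, c) ∨ 0 < x s(b, d)

/-- A7: classification -/
def ClassStmt : Prop :=
  ∀ (W : Type) (adj : W → W → Prop), (∀ a b, adj a b → adj b a) → (∀ a, ¬ adj a a) →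
    (∃ a b, adj a b) →
    (∀ a b c d, a ≠ c → a ≠ d → b ≠ c → b ≠ d → adj a b → adj c d → adj b c ∨ adj b d) →
    (¬ ∃ f : Fin 5 → W, ∀ i j, i ≠ j → adj (f i) (f j)) →
    (¬ ∃ f g : Fin 3 → W, Function.Injective f ∧ Function.Injective g ∧ ∀ i j, adj (f i) (g j)) →
    (∀ a b, ∃ u v, adj u v ∧ u ≠ a ∧ u ≠ b ∧ v ≠ a ∧ v ≠ b) →
    (∀ a b c d, ∃ u v, adj u v ∧ u ≠ a ∧ u ≠ b ∧ u ≠ c ∧ u ≠ d) →
    (∃ η : Fin 5 → W, Function.Injective η ∧ ¬ adj (η 0) (η 1) ∧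
      ∀ u v, adj u v → ∃ i, u = η i) ∨
    ∃ η : Fin 6 → W, Function.Injective η ∧ (∀ i j, adj (η i) (η j) ↔ j ≠ i ∧ j ≠ i + 3) ∧
      ∀ u v, adj u v → ∃ i, u = η i

/-- A8: the octahedron is impossible -/
def OctaStmt : Prop :=
  ∀ (x : Sym2 (Fin 6) → ℕ) (T : Sym2 (Fin 6) → Prop) (E μ : ℕ), MLX x T E → Spread x →
    (∀ i, x s(i, i + 3) = 0) → (∀ i j, j ≠ i → j ≠ i + 3 → μ ≤ x s(i, j)) →
    80 * μ ≤ ∑ lam, x lam → 16 * μ ≤ E + 320000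

/-- A9a: pairing different groups -/
def MultiStmt : Prop :=
  ∀ (Λ : Type) [Fintype Λ] (r : Λ → ℕ), (∀ a, 2 * r a ≤ ∑ b, r b + 1) →
    ∃ z : Λ → Λ → ℕ, (∀ a, ∑ b, z a b + ∑ b, z b a ≤ r a) ∧ (∀ a, z a a = 0) ∧
      ∑ a, r a ≤ 2 * ∑ a, ∑ b, z a b + 1

/-- A9b: the frustration plan on the contracted hub set -/
def PlanStmt : Prop :=
  ∀ (x : Sym2 (Fin 4) → ℕ) (T : Sym2 (Fin 4) → Prop) (E K N : ℕ), MLX x T E → T s(0, 3) →
    x s(1, 1) = 0 → x s(2, 2) = 0 → x s(3, 3) = 0 →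
    N = x s(0, 0) + x s(0, 1) + x s(0, 2) + x s(0, 3) + x s(1, 2) + x s(1, 3) + x s(2, 3) →
    x s(0, 3) ≤ x s(0, 0) → x s(1, 2) + 12 * K ≤ x s(0, 0) →
    2 * (x s(0, 1) + x s(0, 3) + x s(1, 2)) + 12 * K ≤ N →
    2 * (x s(0, 2) + x s(0, 3) + x s(1, 2)) + 12 * K ≤ N →
    20 * (x s(1, 3) + x s(0, 3)) ≤ 9 * N → 20 * (x s(1, 3) + x s(1, 2)) ≤ 9 * N →
    20 * (x s(2, 3) + x s(0, 3)) ≤ 9 * N → 20 * (x s(2, 3) + x s(1, 2)) ≤ 9 * N →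
    10 * (2 * x s(0, 0) + x s(0, 3) + x s(0, 1) + x s(0, 2)) ≤ 9 * N →
    60 * K ≤ N → K ≤ E + 32

/-- A10: five hubs with a missing type -/
def BipStmt : Prop :=
  ∀ (W ι : Type) (S : Finset ι) (τ : ι → Sym2 W) (E Δ : ℕ) (η : Fin 5 → W), ML S τ E →
    Function.Injective η → (∀ i ∈ S, ¬ (τ i).IsDiag) → (∀ i ∈ S, ∀ a ∈ τ i, ∃ k, a = η k) →
    (∀ i ∈ S, τ i ≠ s(η 0, η 1)) → (∀ u, star S τ u ≤ Δ) → 20 * Δ ≤ 9 * S.card →
    60 * (E + 33) ≤ S.card → 4 * S.card ≤ 9 * Δ + 200 * (E + 33)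

/-- A11: the abstract lower bound -/
def AMStmt : Prop :=
  ∀ (W ι : Type) [Fintype W] (S : Finset ι) (τ : ι → Sym2 W) (E Δ q : ℕ), ML S τ E →
    (∀ i ∈ S, ¬ (τ i).IsDiag) → NoK5 S τ → NoK33 S τ → (∀ u, star S τ u ≤ Δ) →
    1000000 ≤ q → q ^ 2504 ≤ S.card → E * q ^ 2504 ≤ S.card →
    4 * q * S.card ≤ 9 * q * Δ + 10000 * S.card

/-- the lower bound -/
def LBStmt : Prop :=
  ∀ δ : ℝ, 0 < δ → ∃ n0 : ℕ, ∀ (V : Type) [Fintype V] (G : SimpleGraph V),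
    n0 ≤ Fintype.card V → IsPlanar G → PathPairable G →
    ∃ v, (4 / 9 - δ) * Fintype.card V ≤ ((G.neighborSet v).ncard : ℝ)

end Pool.Agent.Lib.MP_453ac3_co.LB
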